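import Pool.Agent.Helper25.CP.Def

namespace Pool.Agent.Helper25.CP

open Finset Pool.Agent.Helper4.PC

variable {V C : Type} [Fintype V] [DecidableEq V] [DecidableEq C]

private theorem QS_card {N : V → Finset V} {q : V} (hq : q ∈ QS N) : #(N q) ≤ 399 := by
  unfold QS SS at hq
  simp only [mem_filter, mem_univ, true_and] at hq
  omega

private theorem NB_sub (N : V → Finset V) (u : V) : NB N u ⊆ N u := filter_subset _ _

private theorem card_biUnion_le' {s : Finset V} {f : V → Finset V} {a b : ℕ} (hs : #s ≤ a)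
    (hf : ∀ x ∈ s, #(f x) ≤ b) : #(s.biUnion f) ≤ a * b :=
  (card_biUnion_le_card_mul s f b hf).trans (Nat.mul_le_mul_right b hs)

private theorem card_dep {N : V → Finset V} (hG : Gr N) {Δ : ℕ} (hΔ1 : 1 ≤ Δ)
    (hN : ∀ v, #(N v) ≤ Δ) (u : V) : #(dep N u) ≤ 400 * Δ ^ 2 := by
  have h1 : #(NB N u) ≤ Δ := (card_le_card (NB_sub N u)).trans (hN u)
  have h2 : #((QS N).filter fun q => ¬ Disjoint (N q) (NB N u)) ≤ Δ * Δ := by
    refine le_trans (card_le_card ?_) (card_biUnion_le' (s := NB N u) (f := N) h1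
      fun x _ => hN x)
    intro q hq
    rw [mem_filter] at hq
    obtain ⟨w, hw1, hw2⟩ := not_disjoint_iff.mp hq.2
    exact mem_biUnion.mpr ⟨w, hw2, hG.symm _ _ hw1⟩
  have h3 : #(((QS N).filter fun q => ¬ Disjoint (N q) (NB N u)).biUnion N) ≤ Δ * Δ * 399 :=
    card_biUnion_le' h2 fun q hq => QS_card (mem_filter.mp hq).1
  have h4 : #(dep N u) ≤ Δ + Δ * Δ * 399 := (card_union_le _ _).trans (add_le_add h1 h3)
  have h5 : Δ ≤ Δ * Δ := Nat.le_mul_of_pos_left Δ hΔ1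
  calc #(dep N u) ≤ Δ + Δ * Δ * 399 := h4
    _ ≤ Δ * Δ + Δ * Δ * 399 := by omega
    _ = 400 * Δ ^ 2 := by ring

private theorem card_bal {N H : V → Finset V} (hG : Gr N) {Δ : ℕ} (hΔ1 : 1 ≤ Δ)
    (hN : ∀ v, #(N v) ≤ Δ) (hH : ∀ v, #(H v) ≤ Δ) (u : V) : #(bal N H u) ≤ 801 * Δ ^ 3 := by
  have h0 := card_dep hG hΔ1 hN u
  have h1 : #((dep N u).biUnion H) ≤ 400 * Δ ^ 2 * Δ := card_biUnion_le' h0 fun x _ => hH x
  have h2 : #(NB N u) ≤ Δ := (card_le_card (NB_sub N u)).trans (hN u)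
  have h3 : #((NB N u).biUnion H) ≤ Δ * Δ := card_biUnion_le' h2 fun x _ => hH x
  have h4 : #(((NB N u).biUnion H).biUnion H) ≤ Δ * Δ * Δ := card_biUnion_le' h3 fun x _ => hH x
  have h5 : #(bal N H u) ≤ 400 * Δ ^ 2 + 400 * Δ ^ 2 * Δ + Δ * Δ * Δ :=
    (card_union_le _ _).trans (add_le_add ((card_union_le _ _).trans (add_le_add h0 h1)) h4)
  have h6 : Δ ^ 2 ≤ Δ ^ 3 := Nat.pow_le_pow_right hΔ1 (by norm_num)
  calc #(bal N H u) ≤ 400 * Δ ^ 2 + 400 * Δ ^ 2 * Δ + Δ * Δ * Δ := h5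
    _ = 400 * Δ ^ 2 + 401 * Δ ^ 3 := by ring
    _ ≤ 801 * Δ ^ 3 := by omega

private theorem card_rev {N : V → Finset V} (hG : Gr N) {Δ : ℕ} (hΔ1 : 1 ≤ Δ)
    (hN : ∀ v, #(N v) ≤ Δ) (y : V) : #(univ.filter fun x => y ∈ dep N x) ≤ 400 * Δ ^ 2 := by
  have h1 : #((N y).filter fun q => q ∈ QS N) ≤ Δ := (card_le_card (filter_subset _ _)).trans (hN y)
  have h2 : #(((N y).filter fun q => q ∈ QS N).biUnion N) ≤ Δ * 399 :=
    card_biUnion_le' h1 fun q hq => QS_card (mem_filter.mp hq).2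
  have h3 : #((((N y).filter fun q => q ∈ QS N).biUnion N).biUnion N) ≤ Δ * 399 * Δ :=
    card_biUnion_le' h2 fun x _ => hN x
  have h4 : #(N y ∪ (((N y).filter fun q => q ∈ QS N).biUnion N).biUnion N) ≤ Δ + Δ * 399 * Δ :=
    (card_union_le _ _).trans (add_le_add (hN y) h3)
  have h5 : (univ.filter fun x => y ∈ dep N x) ⊆
      N y ∪ (((N y).filter fun q => q ∈ QS N).biUnion N).biUnion N := by
    intro x hx
    rw [mem_filter] at hx
    have hx2 := hx.2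
    unfold dep at hx2
    rw [mem_union] at hx2 ⊢
    rcases hx2 with h | h
    · exact Or.inl (hG.symm _ _ (NB_sub N x h))
    · right
      obtain ⟨q, hq, hyq⟩ := mem_biUnion.mp h
      rw [mem_filter] at hq
      obtain ⟨w, hw1, hw2⟩ := not_disjoint_iff.mp hq.2
      refine mem_biUnion.mpr ⟨w, mem_biUnion.mpr ⟨q, mem_filter.mpr ⟨hG.symm _ _ hyq, hq.1⟩, hw1⟩, ?_⟩
      exact hG.symm _ _ (NB_sub N x hw2)
  have h6 : Δ ≤ Δ * Δ := Nat.le_mul_of_pos_left Δ hΔ1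
  calc #(univ.filter fun x => y ∈ dep N x) ≤ Δ + Δ * 399 * Δ := (card_le_card h5).trans h4
    _ ≤ Δ * Δ + Δ * 399 * Δ := by omega
    _ = 400 * Δ ^ 2 := by ring

/-- PIECE BA (counting). `#(dep N u) ≤ Δ + Δ * 399 * Δ ≤ 400 Δ^2` (the `q` with `¬ Disjoint (N q) (NB N u)`: `q ∈ N w` for some `w ∈ NB N u`, so at most `Δ^2`
of them, each with `#(N q) ≤ 399`), `#(bal N H u) ≤ 400 Δ^2 + 400 Δ^3 + Δ^3 ≤ 801 Δ^3`. For a vertex `y` the `x` with `y ∈ dep N x`: either `y ∈ N x`, so `x ∈ N y`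
(at most `Δ`), or `y ∈ N q`, `w ∈ N q`, `w ∈ N x` for some `q ∈ QS N`: `q ∈ N y`, `w ∈ N q`, `x ∈ N w`: at most `Δ * 399 * Δ`; together at most `400 Δ^2`.
`¬ Disjoint (dep N x) (bal N H v)` means that some `y ∈ bal N H v` is in `dep N x`: at most `801 Δ^3 * 400 Δ^2` such `x`. -/
theorem card_int {N H : V → Finset V} (hG : Gr N) {Δ : ℕ} (hΔ1 : 1 ≤ Δ)
    (hN : ∀ v, #(N v) ≤ Δ) (hH : ∀ v, #(H v) ≤ Δ) (v : V) :
    #(univ.filter fun x => ¬ Disjoint (dep N x) (bal N H v)) ≤ 320400 * Δ ^ 5 := by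
  have h1 : (univ.filter fun x => ¬ Disjoint (dep N x) (bal N H v)) ⊆
      (bal N H v).biUnion fun y => univ.filter fun x => y ∈ dep N x := by
    intro x hx
    rw [mem_filter] at hx
    obtain ⟨y, hy1, hy2⟩ := not_disjoint_iff.mp hx.2
    exact mem_biUnion.mpr ⟨y, hy2, mem_filter.mpr ⟨mem_univ _, hy1⟩⟩
  calc #(univ.filter fun x => ¬ Disjoint (dep N x) (bal N H v))
      ≤ #((bal N H v).biUnion fun y => univ.filter fun x => y ∈ dep N x) := card_le_card h1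
    _ ≤ 801 * Δ ^ 3 * (400 * Δ ^ 2) :=
        card_biUnion_le' (card_bal hG hΔ1 hN hH v) fun y _ => card_rev hG hΔ1 hN y
    _ = 320400 * Δ ^ 5 := by ring

/-- goodness of `u` depends only on the colours on `dep N u`: `Bl`, `Uq` only on those of `NB N u`; and a certificate of a touched
`w ∈ NB N u` lies in `N q`, `w ∈ N q`, so in `dep N u`. -/
theorem good_dep {N : V → Finset V} (u : V) {φ ψ : V → Option C}
    (h : ∀ y ∈ dep N u, ψ y = φ y) :
    Bl (NB N) ψ u = Bl (NB N) φ u ∧ Uq (NB N) ψ u = Uq (NB N) φ u ∧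
      Tc (QS N) N (NB N u) ψ = Tc (QS N) N (NB N u) φ := by
  have h1 : ∀ y ∈ NB N u, ψ y = φ y := fun y hy => h y (mem_union_left _ hy)
  refine ⟨?_, ?_, ?_⟩
  · unfold Bl
    refine filter_congr fun x hx => ?_
    rw [h1 x hx]
  · unfold Uq
    refine filter_congr fun x hx => ?_
    rw [h1 x hx]
    refine and_congr Iff.rfl (forall₂_congr fun w hw => ?_)
    rw [h1 w hw]
  · unfold Tc
    refine filter_congr fun w hw => ?_
    refine exists_congr fun q => ?_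
    refine and_congr_right fun hq => and_congr_right fun hwq => ?_
    have h2 : ∀ y ∈ N q, ψ y = φ y := fun y hy => h y (mem_union_right _
      (mem_biUnion.mpr ⟨q, mem_filter.mpr ⟨hq, not_disjoint_iff.mpr ⟨w, hwq, hw⟩⟩, hy⟩))
    refine exists_congr fun a => and_congr_right fun ha => exists_congr fun b =>
      and_congr_right fun hb => exists_congr fun c => and_congr_right fun hc => ?_
    unfold Eqv
    rw [h2 a ha, h2 b hb, h2 c hc, h2 w hwq]

end Pool.Agent.Helper25.CP
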