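import Pool.Agent.Helper4.PC.Base
import Pool.Agent.Helper4.PC.St.A1
import Pool.Agent.Helper4.PC.St.A2
import Pool.Agent.Helper4.PC.St.S1B

/-!
Base file of PROJECT CP (MP_cab741_co, lists Delta + 1 for all graphs of large maximum degree). `N` is the neighbour function
of the graph in which colourings are proper, `M v` is the set of neighbours of `v` on which a colour used once is wanted.
-/

namespace Pool.Agent.Helper25.CP

open Finset Pool.Agent.Helper4.PC

variable {V C : Type} [Fintype V] [DecidableEq V] [DecidableEq C]

/-- all vertices of `M v`, and all their neighbours, have more than `r/2` available colours -/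
abbrev NiceA (N M : V → Finset V) (L : V → Finset C) (r : ℕ) (v : V) (φ : V → Option C) : Prop :=
  (∀ u ∈ M v, r < 2 * #(Av N L φ u)) ∧ ∀ u ∈ M v, ∀ w ∈ N u, r < 2 * #(Av N L φ w)

/-- moreover `M v` has fewer than `b0` blank vertices -/
abbrev Nice (N M : V → Finset V) (L : V → Finset C) (r b0 : ℕ) (v : V) (φ : V → Option C) : Prop :=
  NiceA N M L r v φ ∧ #(Bl M φ v) < b0

end Pool.Agent.Helper25.CP
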