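import Pool.Agent.Helper25.CP.Def

namespace Pool.Agent.Helper25.CP

open Finset Pool.Agent.Helper4.PC

variable {V C : Type} [Fintype V] [DecidableEq V] [DecidableEq C]

/-- type of certificates `⟨w, q, a, b, c⟩` -/
private abbrev Ct (V : Type) : Type := (_ : V) × (_ : V) × (V × V × V)

/-- all candidates -/
private def cs0 (Q : Finset V) (P : V → Finset V) (T : Finset V) : Finset (Ct V) :=
  T.sigma fun w => (Q.filter fun q => w ∈ P q).sigma fun q => P q ×ˢ (P q ×ˢ P q)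

/-- the four vertices are different -/
private abbrev Dist (t : Ct V) : Prop :=
  t.2.2.1 ≠ t.1 ∧ t.2.2.2.1 ≠ t.1 ∧ t.2.2.2.2 ≠ t.1 ∧ t.2.2.2.1 ≠ t.2.2.1 ∧
    t.2.2.2.2 ≠ t.2.2.1 ∧ t.2.2.2.2 ≠ t.2.2.2.1

private def cs (Q : Finset V) (P : V → Finset V) (T : Finset V) : Finset (Ct V) :=
  (cs0 Q P T).filter Dist

private abbrev vl (φ : V → Option C) (t : Ct V) : Prop :=
  Eqv φ t.1 t.2.2.1 ∧ Eqv φ t.2.2.2.1 t.2.2.2.2

private def zt (Z : Finset V) (t : Ct V) : Finset V :=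
  insert t.1 (insert t.2.2.1 (insert t.2.2.2.1 (insert t.2.2.2.2 Z)))

private def lt' (l : Finset (V × V)) (t : Ct V) : Finset (V × V) :=
  insert (t.2.2.2.1, t.2.2.2.2) (insert (t.1, t.2.2.1) l)

/-- number of certificate sequences -/
private def Sq (Q : Finset V) (P : V → Finset V) (T : Finset V) (φ : V → Option C) :
    ℕ → Finset V → ℕ
  | 0, _ => 1
  | n + 1, Z => ∑ t ∈ (cs Q P T).filter (fun t => t.1 ∉ Z ∧ vl φ t), Sq Q P T φ n (zt Z t)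

private theorem zt_card (Z : Finset V) (t : Ct V) : #(zt Z t) ≤ #Z + 4 := by
  unfold zt
  have h1 := card_insert_le t.1 (insert t.2.2.1 (insert t.2.2.2.1 (insert t.2.2.2.2 Z)))
  have h2 := card_insert_le t.2.2.1 (insert t.2.2.2.1 (insert t.2.2.2.2 Z))
  have h3 := card_insert_le t.2.2.2.1 (insert t.2.2.2.2 Z)
  have h4 := card_insert_le t.2.2.2.2 Z
  omega

private theorem mem_cs {Q : Finset V} {P : V → Finset V} {T : Finset V} {t : Ct V} :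
    t ∈ cs Q P T ↔ (t.1 ∈ T ∧ (t.2.1 ∈ Q ∧ t.1 ∈ P t.2.1) ∧ t.2.2.1 ∈ P t.2.1 ∧
      t.2.2.2.1 ∈ P t.2.1 ∧ t.2.2.2.2 ∈ P t.2.1) ∧ Dist t := by
  unfold cs cs0
  rw [mem_filter, mem_sigma, mem_sigma, mem_filter, mem_product, mem_product]

/-- lower bound for the number of sequences -/
private theorem Sq_lower (Q : Finset V) (P : V → Finset V) (T : Finset V) (φ : V → Option C)
    (J : ℕ) (hJ : J ≤ #(Tc Q P T φ)) : ∀ n : ℕ, ∀ Z : Finset V, #Z + 4 * n ≤ J →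
    (J - #Z - 4 * n) ^ n ≤ Sq Q P T φ n Z := by
  intro n
  induction n with
  | zero => intro Z _; simp [Sq]
  | succ n ih =>
    intro Z hZ
    have h1 : #(Tc Q P T φ \ Z) ≤
        #((cs Q P T).filter (fun t => t.1 ∉ Z ∧ vl φ t)) := by
      have hsub : Tc Q P T φ \ Z ⊆
          ((cs Q P T).filter (fun t => t.1 ∉ Z ∧ vl φ t)).image (fun t => t.1) := by
        intro w hw
        obtain ⟨hw1, hw2⟩ := mem_sdiff.mp hw
        obtain ⟨hwT, q, hq, hwq, a, ha, b, hb, c, hc, d1, d2, d3, d4, d5, d6, e1, e2⟩ :=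
          mem_filter.mp hw1
        exact mem_image.mpr ⟨⟨w, q, a, b, c⟩,
          mem_filter.mpr ⟨mem_cs.mpr ⟨⟨hwT, ⟨hq, hwq⟩, ha, hb, hc⟩, d1, d2, d3, d4, d5, d6⟩,
            hw2, e1, e2⟩, rfl⟩
      exact (card_le_card hsub).trans card_image_le
    have h2 : J - #Z ≤ #(Tc Q P T φ \ Z) := by
      have := le_card_sdiff Z (Tc Q P T φ)
      omega
    have h3 : #((cs Q P T).filter (fun t => t.1 ∉ Z ∧ vl φ t)) *
        (J - (#Z + 4) - 4 * n) ^ n ≤ Sq Q P T φ (n + 1) Z := by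
      rw [Sq, ← smul_eq_mul]
      refine card_nsmul_le_sum _ _ _ fun t _ => ?_
      have h4 := zt_card Z t
      refine le_trans ?_ (ih (zt Z t) (by omega))
      exact Nat.pow_le_pow_left (by omega) n
    calc (J - #Z - 4 * (n + 1)) ^ (n + 1)
        = (J - #Z - 4 * (n + 1)) ^ n * (J - #Z - 4 * (n + 1)) := pow_succ _ _
      _ ≤ (J - (#Z + 4) - 4 * n) ^ n *
          #((cs Q P T).filter (fun t => t.1 ∉ Z ∧ vl φ t)) := by
          refine Nat.mul_le_mul (Nat.pow_le_pow_left (by omega) n) (by omega)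
      _ = _ := Nat.mul_comm _ _
      _ ≤ _ := h3

/-- `∑_{t ∈ cs} g(t.1) ≤ ∑_{w ∈ T} cnt w k0^3 g(w)` -/
private theorem sum_cs {Q : Finset V} {P : V → Finset V} {T : Finset V} (k0 : ℕ)
    (hk : ∀ q ∈ Q, #(P q) ≤ k0) (g : V → ℝ) (hg : ∀ w, 0 ≤ g w) :
    ∑ t ∈ cs Q P T, g t.1 ≤ ∑ w ∈ T, (cnt Q P w : ℝ) * (k0 : ℝ) ^ 3 * g w := by
  calc ∑ t ∈ cs Q P T, g t.1 ≤ ∑ t ∈ cs0 Q P T, g t.1 :=
        sum_le_sum_of_subset_of_nonneg (filter_subset _ _) fun t _ _ => hg _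
    _ = ∑ w ∈ T, ∑ q ∈ Q.filter (fun q => w ∈ P q), (#(P q) : ℝ) ^ 3 * g w := by
        unfold cs0
        rw [sum_sigma]
        refine sum_congr rfl fun w _ => ?_
        rw [sum_sigma]
        refine sum_congr rfl fun q _ => ?_
        show ∑ _s ∈ P q ×ˢ (P q ×ˢ P q), g w = (#(P q) : ℝ) ^ 3 * g w
        rw [sum_const, card_product, card_product, nsmul_eq_mul]
        push_cast
        ring
    _ ≤ ∑ w ∈ T, ∑ q ∈ Q.filter (fun q => w ∈ P q), (k0 : ℝ) ^ 3 * g w := by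
        refine sum_le_sum fun w _ => sum_le_sum fun q hq => ?_
        refine mul_le_mul_of_nonneg_right ?_ (hg w)
        have : (#(P q) : ℝ) ≤ k0 := by exact_mod_cast hk q (mem_filter.mp hq).1
        exact pow_le_pow_left₀ (Nat.cast_nonneg _) this 3
    _ = _ := by
        refine sum_congr rfl fun w _ => ?_
        rw [sum_const, nsmul_eq_mul]
        unfold cnt
        ring

/-- certificates whose second pair lies in `Z` and is not heavy -/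
private theorem card_B {Q : Finset V} {P : V → Finset V} {T : Finset V} (k0 M : ℕ)
    (hk : ∀ q ∈ Q, #(P q) ≤ k0) (Z : Finset V) :
    #((cs Q P T).filter fun t => (t.2.2.2.1 ∈ Z ∧ t.2.2.2.2 ∈ Z) ∧
      cnt2 Q P t.2.2.2.1 t.2.2.2.2 ≤ M) ≤ #Z ^ 2 * M * k0 ^ 2 := by
  set D0 : Finset ((_ : V × V) × (_ : V) × (V × V)) :=
    ((Z ×ˢ Z).filter fun p => cnt2 Q P p.1 p.2 ≤ M).sigma fun p =>
      (Q.filter fun q => p.1 ∈ P q ∧ p.2 ∈ P q).sigma fun q => P q ×ˢ P q with hD0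
  have h1 : #((cs Q P T).filter fun t => (t.2.2.2.1 ∈ Z ∧ t.2.2.2.2 ∈ Z) ∧
      cnt2 Q P t.2.2.2.1 t.2.2.2.2 ≤ M) ≤ #D0 := by
    refine card_le_card_of_injOn
      (fun t => ⟨(t.2.2.2.1, t.2.2.2.2), ⟨t.2.1, (t.1, t.2.2.1)⟩⟩) ?_ ?_
    · intro t ht
      obtain ⟨ht1, ht2, ht3⟩ := mem_filter.mp (mem_coe.mp ht)
      obtain ⟨⟨_, ⟨hq, hw⟩, ha, hb, hc⟩, _⟩ := mem_cs.mp ht1
      rw [mem_coe, hD0, mem_sigma, mem_sigma]
      exact ⟨mem_filter.mpr ⟨mem_product.mpr ht2, ht3⟩, mem_filter.mpr ⟨hq, hb, hc⟩,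
        mem_product.mpr ⟨hw, ha⟩⟩
    · rintro ⟨w, q, a, b, c⟩ _ ⟨w', q', a', b', c'⟩ _ h
      simp only [Sigma.mk.injEq, Prod.mk.injEq, heq_eq_eq] at h
      obtain ⟨⟨h1, h2⟩, h3, h4, h5⟩ := h
      subst h1; subst h2; subst h3; subst h4; subst h5; rfl
  refine h1.trans ?_
  rw [hD0, card_sigma]
  calc ∑ p ∈ (Z ×ˢ Z).filter fun p => cnt2 Q P p.1 p.2 ≤ M,
        #((Q.filter fun q => p.1 ∈ P q ∧ p.2 ∈ P q).sigma fun q => P q ×ˢ P q)
      ≤ ∑ _p ∈ (Z ×ˢ Z).filter fun p => cnt2 Q P p.1 p.2 ≤ M, M * k0 ^ 2 := by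
        refine sum_le_sum fun p hp => ?_
        have hp2 := (mem_filter.mp hp).2
        rw [card_sigma]
        calc _ ≤ ∑ _q ∈ Q.filter (fun q => p.1 ∈ P q ∧ p.2 ∈ P q), k0 ^ 2 := by
              refine sum_le_sum fun q hq => ?_
              have := hk q (mem_filter.mp hq).1
              rw [card_product, sq]
              exact Nat.mul_le_mul this this
          _ = cnt2 Q P p.1 p.2 * k0 ^ 2 := by
              rw [sum_const, smul_eq_mul]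
              rfl
          _ ≤ M * k0 ^ 2 := Nat.mul_le_mul_right _ hp2
    _ = #((Z ×ˢ Z).filter fun p => cnt2 Q P p.1 p.2 ≤ M) * (M * k0 ^ 2) := by
        rw [sum_const, smul_eq_mul]
    _ ≤ #(Z ×ˢ Z) * (M * k0 ^ 2) := Nat.mul_le_mul_right _ (card_filter_le _ _)
    _ = #Z ^ 2 * M * k0 ^ 2 := by rw [card_product]; ring

private theorem Eqv_comm {φ : V → Option C} {a b : V} : Eqv φ a b ↔ Eqv φ b a := by
  constructor
  · rintro ⟨h1, h2⟩
    exact ⟨by rw [h2]; exact h1, h2.symm⟩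
  · rintro ⟨h1, h2⟩
    exact ⟨by rw [h2]; exact h1, h2.symm⟩

/-- one certificate: `#E_t ≤ #E / (ρ w ρ0) + 2 τ #F` if the second pair is not inside `Z`, `≤ #E / ρ0 + 2 τ #F` always -/
private theorem one_cert {Q : Finset V} {P : V → Finset V} {T : Finset V}
    {F : Finset (V → Option C)} (ρ : V → ℝ) (ρ0 τ : ℝ) (hρ0 : 1 ≤ ρ0) (hρ : ∀ w, ρ0 ≤ ρ w)
    (hE : ∀ l : Finset (V × V), ∀ y x, x ≠ y → (∀ p ∈ l, p.1 ≠ y ∧ p.2 ≠ y) →
      (y ∈ T ∨ ∃ q ∈ Q, y ∈ P q ∧ ¬ Disjoint (P q) T) →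
      (#(F.filter fun φ => (∀ p ∈ l, Eqv φ p.1 p.2) ∧ Eqv φ x y) : ℝ) ≤
        #(F.filter fun φ => ∀ p ∈ l, Eqv φ p.1 p.2) / ρ y + τ * #F)
    (hτ : 0 ≤ τ) (l : Finset (V × V)) (Z : Finset V) (hl : ∀ p ∈ l, p.1 ∈ Z ∧ p.2 ∈ Z)
    (t : Ct V) (ht : t ∈ cs Q P T) (hw : t.1 ∉ Z) :
    ((#(F.filter fun φ => ∀ p ∈ lt' l t, Eqv φ p.1 p.2) : ℝ) ≤
      #(F.filter fun φ => ∀ p ∈ l, Eqv φ p.1 p.2) / ρ0 + 2 * τ * #F) ∧
    ((t.2.2.2.1 ∉ Z ∨ t.2.2.2.2 ∉ Z) →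
      (#(F.filter fun φ => ∀ p ∈ lt' l t, Eqv φ p.1 p.2) : ℝ) ≤
      #(F.filter fun φ => ∀ p ∈ l, Eqv φ p.1 p.2) / ρ0 * (1 / ρ t.1) + 2 * τ * #F) := by
  obtain ⟨⟨hwT, ⟨hq, hwq⟩, ha, hb, hc⟩, d1, d2, d3, d4, d5, d6⟩ := mem_cs.mp ht
  have hF0 : (0 : ℝ) ≤ #F := Nat.cast_nonneg _
  have hρw : 0 < ρ t.1 := lt_of_lt_of_le (by linarith) (hρ t.1)
  have hρ00 : 0 < ρ0 := by linarith
  set E := #(F.filter fun φ => ∀ p ∈ l, Eqv φ p.1 p.2) with hEd
  set l1 := insert (t.1, t.2.2.1) l with hl1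
  set E1 := #(F.filter fun φ => ∀ p ∈ l1, Eqv φ p.1 p.2) with hE1d
  have hE0 : (0 : ℝ) ≤ E := Nat.cast_nonneg _
  have hE10 : (0 : ℝ) ≤ E1 := Nat.cast_nonneg _
  have hτF : 0 ≤ τ * #F := mul_nonneg hτ hF0
  have step1 : (E1 : ℝ) ≤ E / ρ t.1 + τ * #F := by
    have h := hE l t.1 t.2.2.1 d1 (fun p hp => ⟨fun e => hw (e ▸ (hl p hp).1),
      fun e => hw (e ▸ (hl p hp).2)⟩) (Or.inl hwT)
    refine le_trans ?_ h
    have : (F.filter fun φ => ∀ p ∈ l1, Eqv φ p.1 p.2) ⊆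
        F.filter fun φ => (∀ p ∈ l, Eqv φ p.1 p.2) ∧ Eqv φ t.2.2.1 t.1 := by
      intro φ hφ
      rw [mem_filter] at hφ ⊢
      exact ⟨hφ.1, fun p hp => hφ.2 p (mem_insert_of_mem hp),
        Eqv_comm.mp (hφ.2 _ (mem_insert_self _ _))⟩
    exact_mod_cast card_le_card this
  have hdj : ¬ Disjoint (P t.2.1) T := by
    rw [not_disjoint_iff]
    exact ⟨t.1, hwq, hwT⟩
  have mono1 : (#(F.filter fun φ => ∀ p ∈ lt' l t, Eqv φ p.1 p.2) : ℝ) ≤ E1 := by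
    have : (F.filter fun φ => ∀ p ∈ lt' l t, Eqv φ p.1 p.2) ⊆
        F.filter fun φ => ∀ p ∈ l1, Eqv φ p.1 p.2 := by
      intro φ hφ
      rw [mem_filter] at hφ ⊢
      exact ⟨hφ.1, fun p hp => hφ.2 p (mem_insert_of_mem hp)⟩
    exact_mod_cast card_le_card this
  have hdiv : (E : ℝ) / ρ t.1 ≤ E / ρ0 := div_le_div_of_nonneg_left hE0 hρ00 (hρ t.1)
  constructor
  · linarith
  · intro hZ
    -- the second step
    have step2 : ∃ y, (#(F.filter fun φ => ∀ p ∈ lt' l t, Eqv φ p.1 p.2) : ℝ) ≤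
        E1 / ρ y + τ * #F := by
      rcases hZ with hZ | hZ
      · refine ⟨t.2.2.2.1, ?_⟩
        have h := hE l1 t.2.2.2.1 t.2.2.2.2 d6 (fun p hp => by
          rcases mem_insert.mp hp with h | h
          · rw [h]; exact ⟨d2.symm, d4.symm⟩
          · exact ⟨fun e => hZ (e ▸ (hl p h).1), fun e => hZ (e ▸ (hl p h).2)⟩)
          (Or.inr ⟨_, hq, hb, hdj⟩)
        refine le_trans ?_ h
        have : (F.filter fun φ => ∀ p ∈ lt' l t, Eqv φ p.1 p.2) ⊆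
            F.filter fun φ => (∀ p ∈ l1, Eqv φ p.1 p.2) ∧ Eqv φ t.2.2.2.2 t.2.2.2.1 := by
          intro φ hφ
          rw [mem_filter] at hφ ⊢
          exact ⟨hφ.1, fun p hp => hφ.2 p (mem_insert_of_mem hp),
            Eqv_comm.mp (hφ.2 _ (mem_insert_self _ _))⟩
        exact_mod_cast card_le_card this
      · refine ⟨t.2.2.2.2, ?_⟩
        have h := hE l1 t.2.2.2.2 t.2.2.2.1 d6.symm (fun p hp => by
          rcases mem_insert.mp hp with h | h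
          · rw [h]; exact ⟨d3.symm, d5.symm⟩
          · exact ⟨fun e => hZ (e ▸ (hl p h).1), fun e => hZ (e ▸ (hl p h).2)⟩)
          (Or.inr ⟨_, hq, hc, hdj⟩)
        refine le_trans ?_ h
        have : (F.filter fun φ => ∀ p ∈ lt' l t, Eqv φ p.1 p.2) ⊆
            F.filter fun φ => (∀ p ∈ l1, Eqv φ p.1 p.2) ∧ Eqv φ t.2.2.2.1 t.2.2.2.2 := by
          intro φ hφ
          rw [mem_filter] at hφ ⊢
          exact ⟨hφ.1, fun p hp => hφ.2 p (mem_insert_of_mem hp),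
            hφ.2 _ (mem_insert_self _ _)⟩
        exact_mod_cast card_le_card this
    obtain ⟨y, hy⟩ := step2
    have h1 : (E1 : ℝ) / ρ y ≤ E1 / ρ0 := div_le_div_of_nonneg_left hE10 hρ00 (hρ y)
    have h2 : (E1 : ℝ) / ρ0 ≤ (E / ρ t.1 + τ * #F) / ρ0 :=
      div_le_div_of_nonneg_right step1 hρ00.le
    have h3 : ((E : ℝ) / ρ t.1 + τ * #F) / ρ0 ≤ E / ρ0 * (1 / ρ t.1) + τ * #F := by
      rw [add_div]
      have e1 : (E : ℝ) / ρ t.1 / ρ0 = E / ρ0 * (1 / ρ t.1) := by field_simp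
      have e2 : τ * #F / ρ0 ≤ τ * #F := div_le_self hτF hρ0
      linarith
    linarith

/-- PIECE Cert (abstract certificate lemma; `T` = the target set, `k0 = 399`, `M = 1596`, `ρ0 = r / 2`). -/
theorem cert {Q : Finset V} {P : V → Finset V} {T : Finset V} {F : Finset (V → Option C)}
    (k0 M D : ℕ) (ρ : V → ℝ) (ρ0 τ Λ Γ : ℝ) (hρ0 : 1 ≤ ρ0) (hρ : ∀ w, ρ0 ≤ ρ w)
    (hs : ∀ w, (cnt Q P w : ℝ) ≤ 4 / 3 * ρ w) (hk : ∀ q ∈ Q, #(P q) ≤ k0)
    (hD : ∀ w ∈ T, cnt Q P w ≤ D)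
    (hV : ∀ φ ∈ F, ∀ b c, b ≠ c → Eqv φ b c → cnt2 Q P b c ≤ M)
    (hE : ∀ l : Finset (V × V), ∀ y x, x ≠ y → (∀ p ∈ l, p.1 ≠ y ∧ p.2 ≠ y) →
      (y ∈ T ∨ ∃ q ∈ Q, y ∈ P q ∧ ¬ Disjoint (P q) T) →
      (#(F.filter fun φ => (∀ p ∈ l, Eqv φ p.1 p.2) ∧ Eqv φ x y) : ℝ) ≤
        #(F.filter fun φ => ∀ p ∈ l, Eqv φ p.1 p.2) / ρ y + τ * #F)
    (n J : ℕ) (hJ : 4 * n ≤ J) (hτ : 0 ≤ τ)
    (hΛ : (4 / 3 * (k0 : ℝ) ^ 3 * #T + (4 * n) ^ 2 * M * k0 ^ 2) / ρ0 ≤ Λ)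
    (hΓ : (#T : ℝ) * D * k0 ^ 3 ≤ Γ) (hΛΓ : Λ ≤ Γ) :
    ((J : ℝ) - 4 * n) ^ n * #(F.filter fun φ => J ≤ #(Tc Q P T φ)) ≤
      (Λ ^ n + 2 * n * Γ ^ n * τ) * #F := by
  have hρ00 : 0 < ρ0 := by linarith
  have hF0 : (0 : ℝ) ≤ #F := Nat.cast_nonneg _
  have hΛ0 : 0 ≤ Λ := le_trans (by positivity) hΛ
  have hΓ0 : 0 ≤ Γ := hΛ0.trans hΛΓ
  have hτF : 0 ≤ τ * #F := mul_nonneg hτ hF0
  -- number of certificates
  have hcs : (#(cs Q P T) : ℝ) ≤ Γ := by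
    have h := sum_cs (T := T) k0 hk (fun _ => 1) (fun _ => zero_le_one)
    rw [sum_const, nsmul_eq_mul, mul_one] at h
    refine h.trans (le_trans ?_ hΓ)
    calc ∑ w ∈ T, (cnt Q P w : ℝ) * (k0 : ℝ) ^ 3 * 1 ≤ ∑ _w ∈ T, (D : ℝ) * (k0 : ℝ) ^ 3 := by
          refine sum_le_sum fun w hw => ?_
          rw [mul_one]
          refine mul_le_mul_of_nonneg_right ?_ (by positivity)
          exact_mod_cast hD w hw
      _ = _ := by rw [sum_const, nsmul_eq_mul]; ring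
  -- key estimate
  have key : ∀ l : Finset (V × V), ∀ Z : Finset V, (∀ p ∈ l, p.1 ∈ Z ∧ p.2 ∈ Z) →
      #Z ≤ 4 * n →
      ∑ t ∈ (cs Q P T).filter (fun t => t.1 ∉ Z),
        (#(F.filter fun φ => ∀ p ∈ lt' l t, Eqv φ p.1 p.2) : ℝ) ≤
      Λ * #(F.filter fun φ => ∀ p ∈ l, Eqv φ p.1 p.2) + 2 * Γ * (τ * #F) := by
    intro l Z hl hZ
    set E := #(F.filter fun φ => ∀ p ∈ l, Eqv φ p.1 p.2) with hEd
    have hE0 : (0 : ℝ) ≤ E := Nat.cast_nonneg _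
    have hEr : (0 : ℝ) ≤ E / ρ0 := div_nonneg hE0 hρ00.le
    set B := (cs Q P T).filter fun t => (t.2.2.2.1 ∈ Z ∧ t.2.2.2.2 ∈ Z) ∧
      cnt2 Q P t.2.2.2.1 t.2.2.2.2 ≤ M with hB
    have hterm : ∀ t ∈ (cs Q P T).filter (fun t => t.1 ∉ Z),
        (#(F.filter fun φ => ∀ p ∈ lt' l t, Eqv φ p.1 p.2) : ℝ) ≤
          E / ρ0 * (1 / ρ t.1) + (if t ∈ B then (E : ℝ) / ρ0 else 0) + 2 * τ * #F := by
      intro t ht
      obtain ⟨ht1, ht2⟩ := mem_filter.mp ht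
      obtain ⟨o1, o2⟩ := one_cert ρ ρ0 τ hρ0 hρ hE hτ l Z hl t ht1 ht2
      have hρw : 0 < ρ t.1 := lt_of_lt_of_le (by linarith) (hρ t.1)
      have hpos1 : 0 ≤ E / ρ0 * (1 / ρ t.1) := mul_nonneg hEr (by positivity)
      have hif : 0 ≤ (if t ∈ B then (E : ℝ) / ρ0 else 0) := by
        split_ifs
        · exact hEr
        · exact le_refl _
      by_cases hZt : t.2.2.2.1 ∉ Z ∨ t.2.2.2.2 ∉ Z
      · have := o2 hZt
        linarith
      · push Not at hZt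
        by_cases hemp : (F.filter fun φ => ∀ p ∈ lt' l t, Eqv φ p.1 p.2).Nonempty
        · obtain ⟨φ, hφ⟩ := hemp
          obtain ⟨hφ1, hφ2⟩ := mem_filter.mp hφ
          have hbc := hφ2 _ (mem_insert_self _ _)
          have hd := (mem_cs.mp ht1).2.2.2.2.2.2
          have hM := hV φ hφ1 _ _ (Ne.symm hd) hbc
          have htB : t ∈ B := mem_filter.mpr ⟨ht1, hZt, hM⟩
          rw [if_pos htB]
          linarith
        · rw [not_nonempty_iff_eq_empty] at hemp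
          rw [hemp, card_empty, Nat.cast_zero]
          have : 0 ≤ 2 * τ * #F := by linarith
          linarith
    have hsumA : ∑ t ∈ (cs Q P T).filter (fun t => t.1 ∉ Z), (E : ℝ) / ρ0 * (1 / ρ t.1) ≤
        E / ρ0 * (4 / 3 * (k0 : ℝ) ^ 3 * #T) := by
      rw [← mul_sum]
      refine mul_le_mul_of_nonneg_left ?_ hEr
      calc ∑ t ∈ (cs Q P T).filter (fun t => t.1 ∉ Z), 1 / ρ t.1
          ≤ ∑ t ∈ cs Q P T, 1 / ρ t.1 :=
            sum_le_sum_of_subset_of_nonneg (filter_subset _ _) fun t _ _ => by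
              have : 0 < ρ t.1 := lt_of_lt_of_le (by linarith) (hρ t.1)
              positivity
        _ ≤ ∑ w ∈ T, (cnt Q P w : ℝ) * (k0 : ℝ) ^ 3 * (1 / ρ w) :=
            sum_cs k0 hk (fun w => 1 / ρ w) fun w => by
              have : 0 < ρ w := lt_of_lt_of_le (by linarith) (hρ w)
              positivity
        _ ≤ ∑ _w ∈ T, 4 / 3 * (k0 : ℝ) ^ 3 := by
            refine sum_le_sum fun w _ => ?_
            have h0 : 0 < ρ w := lt_of_lt_of_le (by linarith) (hρ w)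
            have h1 : (cnt Q P w : ℝ) * (1 / ρ w) ≤ 4 / 3 := by
              rw [mul_one_div, div_le_iff₀ h0]
              exact hs w
            calc (cnt Q P w : ℝ) * (k0 : ℝ) ^ 3 * (1 / ρ w)
                = ((cnt Q P w : ℝ) * (1 / ρ w)) * (k0 : ℝ) ^ 3 := by ring
              _ ≤ 4 / 3 * (k0 : ℝ) ^ 3 := mul_le_mul_of_nonneg_right h1 (by positivity)
        _ = _ := by rw [sum_const, nsmul_eq_mul]; ring
    have hsumB : ∑ t ∈ (cs Q P T).filter (fun t => t.1 ∉ Z),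
        (if t ∈ B then (E : ℝ) / ρ0 else 0) ≤ E / ρ0 * ((4 * n) ^ 2 * M * k0 ^ 2) := by
      rw [← sum_filter, sum_const, nsmul_eq_mul, mul_comm]
      refine mul_le_mul_of_nonneg_left ?_ hEr
      have h1 : #(((cs Q P T).filter (fun t => t.1 ∉ Z)).filter fun t => t ∈ B) ≤ #B :=
        card_le_card fun t ht => (mem_filter.mp ht).2
      have h2 := h1.trans (card_B k0 M hk Z)
      have h3 : #Z ^ 2 * M * k0 ^ 2 ≤ (4 * n) ^ 2 * M * k0 ^ 2 :=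
        Nat.mul_le_mul_right _ (Nat.mul_le_mul_right _ (Nat.pow_le_pow_left hZ 2))
      exact_mod_cast h2.trans h3
    have hsumC : ∑ _t ∈ (cs Q P T).filter (fun t => t.1 ∉ Z), 2 * τ * (#F : ℝ) ≤
        2 * Γ * (τ * #F) := by
      rw [sum_const, nsmul_eq_mul]
      have h1 : (#((cs Q P T).filter fun t => t.1 ∉ Z) : ℝ) ≤ Γ := by
        refine le_trans ?_ hcs
        exact_mod_cast card_filter_le _ _
      calc (#((cs Q P T).filter fun t => t.1 ∉ Z) : ℝ) * (2 * τ * #F)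
          ≤ Γ * (2 * τ * #F) := mul_le_mul_of_nonneg_right h1 (by linarith)
        _ = _ := by ring
    calc _ ≤ ∑ t ∈ (cs Q P T).filter (fun t => t.1 ∉ Z),
          (E / ρ0 * (1 / ρ t.1) + (if t ∈ B then (E : ℝ) / ρ0 else 0) + 2 * τ * #F) :=
          sum_le_sum hterm
      _ ≤ E / ρ0 * (4 / 3 * (k0 : ℝ) ^ 3 * #T) + E / ρ0 * ((4 * n) ^ 2 * M * k0 ^ 2) +
          2 * Γ * (τ * #F) := by
          rw [sum_add_distrib, sum_add_distrib]
          linarith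
      _ = (4 / 3 * (k0 : ℝ) ^ 3 * #T + (4 * n) ^ 2 * M * k0 ^ 2) / ρ0 * E +
          2 * Γ * (τ * #F) := by ring
      _ ≤ _ := by
          have := mul_le_mul_of_nonneg_right hΛ hE0
          linarith
  -- upper bound for the sums of `Sq`
  have upper : ∀ k : ℕ, ∀ l : Finset (V × V), ∀ Z : Finset V, (∀ p ∈ l, p.1 ∈ Z ∧ p.2 ∈ Z) →
      #Z + 4 * k ≤ 4 * n →
      ∑ φ ∈ F.filter (fun φ => ∀ p ∈ l, Eqv φ p.1 p.2), (Sq Q P T φ k Z : ℝ) ≤
      Λ ^ k * #(F.filter fun φ => ∀ p ∈ l, Eqv φ p.1 p.2) + 2 * k * Γ ^ k * (τ * #F) := by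
    intro k
    induction k with
    | zero =>
      intro l Z _ _
      simp [Sq]
    | succ k ih =>
      intro l Z hl hZ
      have e1 : ∑ φ ∈ F.filter (fun φ => ∀ p ∈ l, Eqv φ p.1 p.2), (Sq Q P T φ (k + 1) Z : ℝ) =
          ∑ t ∈ (cs Q P T).filter (fun t => t.1 ∉ Z),
            ∑ φ ∈ F.filter (fun φ => ∀ p ∈ lt' l t, Eqv φ p.1 p.2),
              (Sq Q P T φ k (zt Z t) : ℝ) := by
        simp only [Sq, Nat.cast_sum]
        refine sum_comm' ?_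
        intro φ t
        simp only [mem_filter, lt', mem_insert, forall_eq_or_imp]
        tauto
      rw [e1]
      have e2 : ∀ t ∈ (cs Q P T).filter (fun t => t.1 ∉ Z),
          ∑ φ ∈ F.filter (fun φ => ∀ p ∈ lt' l t, Eqv φ p.1 p.2),
              (Sq Q P T φ k (zt Z t) : ℝ) ≤
          Λ ^ k * #(F.filter fun φ => ∀ p ∈ lt' l t, Eqv φ p.1 p.2) +
            2 * k * Γ ^ k * (τ * #F) := by
        intro t _
        refine ih (lt' l t) (zt Z t) ?_ ?_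
        · intro p hp
          unfold zt
          rcases mem_insert.mp hp with h | h
          · rw [h]; simp
          · rcases mem_insert.mp h with h | h
            · rw [h]; simp
            · have := hl p h
              simp only [mem_insert]
              tauto
        · have := zt_card Z t
          omega
      have e3 := key l Z hl (by omega)
      have e4 : (#((cs Q P T).filter fun t => t.1 ∉ Z) : ℝ) ≤ Γ := by
        refine le_trans ?_ hcs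
        exact_mod_cast card_filter_le _ _
      have hΛk : 0 ≤ Λ ^ k := pow_nonneg hΛ0 k
      have hΓk : 0 ≤ Γ ^ k := pow_nonneg hΓ0 k
      have hΛΓk : Λ ^ k ≤ Γ ^ k := pow_le_pow_left₀ hΛ0 hΛΓ k
      have e5 : 0 ≤ 2 * k * Γ ^ k * (τ * #F) := by positivity
      calc _ ≤ ∑ t ∈ (cs Q P T).filter (fun t => t.1 ∉ Z),
            (Λ ^ k * #(F.filter fun φ => ∀ p ∈ lt' l t, Eqv φ p.1 p.2) +
              2 * k * Γ ^ k * (τ * #F)) := sum_le_sum e2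
        _ = Λ ^ k * ∑ t ∈ (cs Q P T).filter (fun t => t.1 ∉ Z),
              (#(F.filter fun φ => ∀ p ∈ lt' l t, Eqv φ p.1 p.2) : ℝ) +
            #((cs Q P T).filter fun t => t.1 ∉ Z) * (2 * k * Γ ^ k * (τ * #F)) := by
            rw [sum_add_distrib, ← mul_sum, sum_const, nsmul_eq_mul]
        _ ≤ Λ ^ k * (Λ * #(F.filter fun φ => ∀ p ∈ l, Eqv φ p.1 p.2) + 2 * Γ * (τ * #F)) +
            Γ * (2 * k * Γ ^ k * (τ * #F)) :=
            add_le_add (mul_le_mul_of_nonneg_left e3 hΛk) (mul_le_mul_of_nonneg_right e4 e5)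
        _ = Λ ^ (k + 1) * #(F.filter fun φ => ∀ p ∈ l, Eqv φ p.1 p.2) +
            Λ ^ k * (2 * Γ * (τ * #F)) + 2 * k * Γ ^ (k + 1) * (τ * #F) := by ring
        _ ≤ Λ ^ (k + 1) * #(F.filter fun φ => ∀ p ∈ l, Eqv φ p.1 p.2) +
            Γ ^ k * (2 * Γ * (τ * #F)) + 2 * k * Γ ^ (k + 1) * (τ * #F) := by
            have : 0 ≤ 2 * Γ * (τ * #F) := by positivity
            have := mul_le_mul_of_nonneg_right hΛΓk this
            linarith
        _ = _ := by push_cast; ring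
  -- conclusion
  have hup := upper n ∅ ∅ (by simp) (by simp)
  have hFe : (F.filter fun φ => ∀ p ∈ (∅ : Finset (V × V)), Eqv φ p.1 p.2) = F := by
    refine filter_true_of_mem fun φ _ p hp => absurd hp (notMem_empty p)
  rw [hFe] at hup
  have hlow : ((J : ℝ) - 4 * n) ^ n * #(F.filter fun φ => J ≤ #(Tc Q P T φ)) ≤
      ∑ φ ∈ F, (Sq Q P T φ n ∅ : ℝ) := by
    calc _ = ∑ _φ ∈ F.filter (fun φ => J ≤ #(Tc Q P T φ)), ((J : ℝ) - 4 * n) ^ n := by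
          rw [sum_const, nsmul_eq_mul]; ring
      _ ≤ ∑ φ ∈ F.filter (fun φ => J ≤ #(Tc Q P T φ)), (Sq Q P T φ n ∅ : ℝ) := by
          refine sum_le_sum fun φ hφ => ?_
          have h := Sq_lower Q P T φ J (mem_filter.mp hφ).2 n ∅ (by simpa using hJ)
          have h' : (((J - #(∅ : Finset V) - 4 * n : ℕ) : ℝ)) ^ n ≤ (Sq Q P T φ n ∅ : ℝ) := by
            exact_mod_cast h
          rw [card_empty, Nat.sub_zero, Nat.cast_sub hJ] at h'
          push_cast at h'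
          exact h'
      _ ≤ _ := sum_le_sum_of_subset_of_nonneg (filter_subset _ _) fun φ _ _ => Nat.cast_nonneg _
  calc _ ≤ _ := hlow
    _ ≤ _ := hup
    _ = _ := by ring

end Pool.Agent.Helper25.CP
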