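import Pool.Agent.Helper25.CP.Base

/-!
Definitions of PROJECT CP (MP_cab741_co). `N` is the neighbour function of the given graph. A vertex is big if its degree is at least 400.
-/

namespace Pool.Agent.Helper25.CP

open Finset Pool.Agent.Helper4.PC

variable {V C : Type} [Fintype V] [DecidableEq V] [DecidableEq C]

/-- `a` and `b` are coloured, with the same colour -/
abbrev Eqv (φ : V → Option C) (a b : V) : Prop := φ a ≠ none ∧ φ b = φ a

/-- the colour of some vertex of `N v` is used exactly once on `N v` -/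
def UQ (N : V → Finset V) (φ : V → Option C) (v : V) : Prop :=
  ∃ a ∈ N v, φ a ≠ none ∧ ∀ b ∈ N v, φ b = φ a → b = a

/-- the big neighbours -/
def NB (N : V → Finset V) (v : V) : Finset V := (N v).filter fun u => 400 ≤ #(N u)

/-- the small vertices all of whose neighbours are big -/
def SS (N : V → Finset V) : Finset V :=
  univ.filter fun v => #(N v) < 400 ∧ ∀ u ∈ N v, 400 ≤ #(N u)

/-- those of degree at least 4 -/
def QS (N : V → Finset V) : Finset V := (SS N).filter fun v => 4 ≤ #(N v)

/-- number of `q ∈ Q` with `x ∈ P q` -/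
def cnt (Q : Finset V) (P : V → Finset V) (x : V) : ℕ := #(Q.filter fun q => x ∈ P q)

/-- number of `q ∈ Q` with `x, y ∈ P q` -/
def cnt2 (Q : Finset V) (P : V → Finset V) (x y : V) : ℕ := #(Q.filter fun q => x ∈ P q ∧ y ∈ P q)

/-- the virtual graph on the big vertices: edges between big vertices, the pairs `pr v` of the vertices `v ∈ SS N` of degree 2 or 3, and
the heavy pairs -/
def VG (N : V → Finset V) (pr : V → V × V) (x : V) : Finset V :=
  univ.filter fun y => y ≠ x ∧ 400 ≤ #(N x) ∧ 400 ≤ #(N y) ∧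
    (y ∈ N x ∨ (∃ v ∈ SS N, 2 ≤ #(N v) ∧ #(N v) ≤ 3 ∧ (pr v = (x, y) ∨ pr v = (y, x))) ∨
      1596 ≤ cnt2 (QS N) N x y)

/-- `pr v` is a pair of two different neighbours of `v` for all `v` of degree at least 2 -/
def Pr (N : V → Finset V) (pr : V → V × V) : Prop :=
  ∀ v, 2 ≤ #(N v) → (pr v).1 ∈ N v ∧ (pr v).2 ∈ N v ∧ (pr v).1 ≠ (pr v).2

/-- the touched vertices of `T`: in some `P q` (`q ∈ Q`) the vertex `w` has a partner `a` of the same colour, and there is another disjoint
pair `b, c` of the same colour -/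
def Tc (Q : Finset V) (P : V → Finset V) (T : Finset V) (φ : V → Option C) : Finset V :=
  T.filter fun w => ∃ q ∈ Q, w ∈ P q ∧ ∃ a ∈ P q, ∃ b ∈ P q, ∃ c ∈ P q,
    a ≠ w ∧ b ≠ w ∧ c ≠ w ∧ b ≠ a ∧ c ≠ a ∧ c ≠ b ∧ Eqv φ w a ∧ Eqv φ b c

/-- `v ∈ SS N` is safe: a colour is used exactly once on `N v`, or all coloured vertices of `N v` have the same colour and there is a blank one -/
def Safe (N : V → Finset V) (φ : V → Option C) (v : V) : Prop :=
  UQ N φ v ∨ ((∀ a ∈ N v, ∀ b ∈ N v, φ a ≠ none → φ b ≠ none → φ a = φ b) ∧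
    ∃ a ∈ N v, φ a = none)

/-- the vertices on which goodness of `u` depends -/
def dep (N : V → Finset V) (u : V) : Finset V :=
  NB N u ∪ ((QS N).filter fun q => ¬ Disjoint (N q) (NB N u)).biUnion N

/-- the vertices which may be recoloured in the local lemma for `u` (`H` = the virtual graph) -/
def bal (N H : V → Finset V) (u : V) : Finset V :=
  dep N u ∪ (dep N u).biUnion H ∪ ((NB N u).biUnion H).biUnion H

end Pool.Agent.Helper25.CP
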