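import Pool.Agent.Helper25.CP.Def
import Pool.Agent.Helper4.PC.St.S1B

namespace Pool.Agent.Helper25.CP

open Finset Pool.Agent.Helper4.PC

variable {V C : Type} [Fintype V] [DecidableEq V] [DecidableEq C]

/-- PIECE EQ (equality step). Split the left filter into the part with `r < 2 #(Av H L φ y)` and the part of the `φ ∈ F` with
`2 #(Av H L φ y) ≤ r`. The second part has at most `(r+1)/2^r #F` elements by `Pool.Agent.Helper4.PC.av_tail`. First part: recolour `y` with any
`a ∈ Av H L φ y`: `f = update φ y (some a)` is in `F` (`Om_update_some`, `Clo.clo`) and satisfies the equalities of `l` (none involves `y`); the pair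
`(φ, a)` can be read off from `ψ = f`: `a` from `ψ y`, and `φ = update ψ y (ψ x)` because `x ≠ y`, `φ y = φ x = ψ x`. So
`#(first part) * ρ ≤ #(F.filter l)` (sum over the first part of `#(Av H L φ y) ≥ ρ`; `card_le_card_of_injOn` on a sigma set, or
`Pool.Agent.Helper4.PC.switch` with one label for natural numbers and ceilings). -/
theorem eq_step {H : V → Finset V} {L : V → Finset C} {B : Set V} {F : Finset (V → Option C)}
    (hG : Gr H) (hF : Clo H L B F) (y x : V) (hxy : x ≠ y) (hy : y ∈ B)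
    (hB : ∀ w ∈ H y, w ∈ B) (hL : #(H y) + 1 ≤ #(L y)) (r : ℕ) (hr : 8 * r ^ 2 ≤ #(L y))
    (ρ : ℝ) (hρ0 : 0 < ρ)
    (hρ : ∀ φ ∈ F, r < 2 * #(Av H L φ y) → ρ ≤ #(Av H L φ y))
    (l : Finset (V × V)) (hl : ∀ p ∈ l, p.1 ≠ y ∧ p.2 ≠ y) :
    (#(F.filter fun φ => (∀ p ∈ l, Eqv φ p.1 p.2) ∧ Eqv φ x y) : ℝ) ≤
      #(F.filter fun φ => ∀ p ∈ l, Eqv φ p.1 p.2) / ρ + (((r : ℝ) + 1) / 2 ^ r) * #F := by
  classical
  set S := F.filter fun φ => ((∀ p ∈ l, Eqv φ p.1 p.2) ∧ Eqv φ x y) ∧ r < 2 * #(Av H L φ y)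
    with hS
  set T := F.filter fun φ => ∀ p ∈ l, Eqv φ p.1 p.2 with hT
  have h1 : #(F.filter fun φ => (∀ p ∈ l, Eqv φ p.1 p.2) ∧ Eqv φ x y) ≤
      #S + #(F.filter fun φ => 2 * #(Av H L φ y) ≤ r) := by
    refine le_trans (card_le_card ?_) (card_union_le _ _)
    intro φ hφ
    rw [mem_filter] at hφ
    rw [mem_union, hS, mem_filter, mem_filter]
    by_cases h : r < 2 * #(Av H L φ y)
    · exact Or.inl ⟨hφ.1, hφ.2, h⟩
    · exact Or.inr ⟨hφ.1, not_lt.1 h⟩
  have h2 := av_tail hF y hB hL r hr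
  have h3 : #(S.sigma fun φ => Av H L φ y) ≤ #T := by
    refine card_le_card_of_injOn
      (fun p : (_ : V → Option C) × C => Function.update p.1 y (some p.2)) ?_ ?_
    · rintro ⟨φ, a⟩ hp
      have hp' := mem_sigma.mp (mem_coe.mp hp)
      have hφ := mem_filter.1 hp'.1
      rw [mem_coe, hT, mem_filter]
      constructor
      · apply hF.clo φ hφ.1 _ (Om_update_some hG (hF.sub hφ.1) hp'.2)
        intro z hz
        rw [Function.update_of_ne]
        rintro rfl
        exact hz hy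
      · intro p hp2
        have h4 := hφ.2.1.1 p hp2
        obtain ⟨h5, h6⟩ := hl p hp2
        simp only [Eqv]
        rw [Function.update_of_ne h5, Function.update_of_ne h6]
        exact h4
    · rintro ⟨φ, a⟩ hp ⟨ψ, b⟩ hq h
      have hp' := mem_filter.1 (mem_sigma.mp (mem_coe.mp hp)).1
      have hq' := mem_filter.1 (mem_sigma.mp (mem_coe.mp hq)).1
      simp only at h hp' hq'
      have h5 : some a = some b := by
        have := congrFun h y
        simpa using this
      have h6 : ∀ z, z ≠ y → φ z = ψ z := by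
        intro z hz
        have := congrFun h z
        rwa [Function.update_of_ne hz, Function.update_of_ne hz] at this
      have h7 : φ = ψ := by
        funext z
        by_cases hz : z = y
        · subst hz
          rw [hp'.2.1.2.2, hq'.2.1.2.2]
          exact h6 x hxy
        · exact h6 z hz
      have h8 := Option.some.inj h5
      subst h7; subst h8; rfl
  have h4 : (#S : ℝ) * ρ ≤ #T := by
    rw [card_sigma] at h3
    have h5 : (#S : ℝ) * ρ ≤ ∑ φ ∈ S, (#(Av H L φ y) : ℝ) := by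
      calc (#S : ℝ) * ρ = ∑ _φ ∈ S, ρ := by rw [sum_const, nsmul_eq_mul]
        _ ≤ _ := sum_le_sum fun φ hφ => hρ φ (mem_filter.1 hφ).1 (mem_filter.1 hφ).2.2
    refine h5.trans ?_
    exact_mod_cast h3
  have h5 : (#S : ℝ) ≤ #T / ρ := by
    rw [le_div_iff₀ hρ0]; exact h4
  have h6 : (#(F.filter fun φ => 2 * #(Av H L φ y) ≤ r) : ℝ) ≤ (((r : ℝ) + 1) / 2 ^ r) * #F := by
    rw [div_mul_eq_mul_div, le_div_iff₀ (by positivity), mul_comm]
    exact_mod_cast h2
  calc (#(F.filter fun φ => (∀ p ∈ l, Eqv φ p.1 p.2) ∧ Eqv φ x y) : ℝ)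
      ≤ #S + #(F.filter fun φ => 2 * #(Av H L φ y) ≤ r) := by exact_mod_cast h1
    _ ≤ _ := add_le_add h5 h6

end Pool.Agent.Helper25.CP
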