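import Pool.Agent.Helper25.CP.Def
import Pool.Agent.Helper4.PC.St.FI

namespace Pool.Agent.Helper25.CP

open Finset Pool.Agent.Helper4.PC

variable {V C : Type} [Fintype V] [DecidableEq V] [DecidableEq C]

/-- colouring a blank vertex keeps `good` -/
private theorem good_update (M : V → Finset V) (φ : V → Option C) (x : V) (a : C) (hx : φ x = none)
    (v : V) (hg : #(Bl M φ v) < #(Uq M φ v)) :
    #(Bl M (Function.update φ x (some a)) v) < #(Uq M (Function.update φ x (some a)) v) := by
  classical
  set ψ : V → Option C := Function.update φ x (some a) with hψ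
  have ψx : ψ x = some a := by rw [hψ, Function.update_self]
  have ψy : ∀ y, y ≠ x → ψ y = φ y := fun y hy => by rw [hψ, Function.update_of_ne hy]
  by_cases hxv : x ∈ M v
  · have hxB : x ∈ Bl M φ v := mem_filter.mpr ⟨hxv, hx⟩
    have hB : #(Bl M ψ v) + 1 ≤ #(Bl M φ v) := by
      have h3 : Bl M ψ v ⊆ (Bl M φ v).erase x := by
        intro y hy
        obtain ⟨hy1, hy2⟩ := mem_filter.mp hy
        have hyx : y ≠ x := by
          intro e
          rw [e, ψx] at hy2
          exact Option.some_ne_none _ hy2
        rw [mem_erase]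
        exact ⟨hyx, mem_filter.mpr ⟨hy1, (ψy y hyx) ▸ hy2⟩⟩
      have h4 := card_le_card h3
      have h5 := card_erase_add_one hxB
      omega
    have hU : #(Uq M φ v \ Uq M ψ v) ≤ 1 := by
      rw [card_le_one]
      have key : ∀ u ∈ Uq M φ v \ Uq M ψ v, u ∈ M v ∧ φ u = some a ∧
          ∀ w ∈ M v, φ w = φ u → w = u := by
        intro u hu
        obtain ⟨hu1, hu2⟩ := mem_sdiff.mp hu
        obtain ⟨hu3, hu4, hu5⟩ := mem_filter.mp hu1
        refine ⟨hu3, ?_, hu5⟩
        have hux : u ≠ x := by
          intro e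
          rw [e] at hu4
          exact hu4 hx
        by_contra hne
        apply hu2
        refine mem_filter.mpr ⟨hu3, ?_, fun w hw e => ?_⟩
        · rw [ψy u hux]; exact hu4
        · by_cases hwx : w = x
          · rw [hwx, ψx, ψy u hux] at e
            exact absurd e.symm hne
          · rw [ψy w hwx, ψy u hux] at e
            exact hu5 w hw e
      intro u hu u' hu'
      obtain ⟨h3, h4, h5⟩ := key u hu
      obtain ⟨h6, h7, h8⟩ := key u' hu'
      exact h8 u h3 (h4.trans h7.symm)
    have h6 := card_le_card_sdiff_add_card (s := Uq M φ v) (t := Uq M ψ v)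
    omega
  · have hne : ∀ y ∈ M v, y ≠ x := fun y hy e => hxv (e ▸ hy)
    have hB : Bl M ψ v = Bl M φ v := by
      refine filter_congr fun y hy => ?_
      rw [ψy y (hne y hy)]
    have hU : Uq M ψ v = Uq M φ v := by
      refine filter_congr fun y hy => ?_
      rw [ψy y (hne y hy)]
      refine and_congr Iff.rfl ⟨fun h w hw e => h w hw ?_, fun h w hw e => h w hw ?_⟩
      · rw [ψy w (hne w hw)]; exact e
      · rw [ψy w (hne w hw)] at e; exact e
    rw [hB, hU]; exact hg

/-- the colour of `v` which must be avoided at its blank neighbour -/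
private theorem exists_col (N : V → Finset V) (φ : V → Option C) (v : V) :
    ∃ c : Option C, (UQ N φ v → ∃ u ∈ N v, φ u = c ∧ c ≠ none ∧ ∀ b ∈ N v, φ b = φ u → b = u) ∧
      (¬ UQ N φ v → (∀ a ∈ N v, φ a = none) ∨ ∃ a ∈ N v, φ a ≠ none ∧ φ a = c) := by
  classical
  by_cases h : UQ N φ v
  · obtain ⟨u, hu, h1, h2⟩ := h
    exact ⟨φ u, fun _ => ⟨u, hu, rfl, h1, h2⟩, fun h3 => absurd ⟨u, hu, h1, h2⟩ h3⟩
  · by_cases h1 : ∃ a ∈ N v, φ a ≠ none
    · obtain ⟨a, ha, h2⟩ := h1
      exact ⟨φ a, fun h3 => absurd h3 h, fun _ => Or.inr ⟨a, ha, h2, rfl⟩⟩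
    · refine ⟨none, fun h3 => absurd h3 h, fun _ => Or.inl fun a ha => ?_⟩
      by_contra h2
      exact h1 ⟨a, ha, h2⟩

/-- `Safe` after colouring a neighbour with an allowed colour -/
private theorem safe_update (N : V → Finset V) (φ : V → Option C) (x : V) (a : C) (hx : φ x = none)
    (v : V) (hs : Safe N φ v) (c : Option C) (hc : x ∈ N v → c ≠ some a)
    (hc1 : UQ N φ v → ∃ u ∈ N v, φ u = c ∧ c ≠ none ∧ ∀ b ∈ N v, φ b = φ u → b = u)
    (hc2 : ¬ UQ N φ v → (∀ a ∈ N v, φ a = none) ∨ ∃ a ∈ N v, φ a ≠ none ∧ φ a = c) :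
    Safe N (Function.update φ x (some a)) v := by
  classical
  set ψ : V → Option C := Function.update φ x (some a) with hψ
  have ψx : ψ x = some a := by rw [hψ, Function.update_self]
  have ψy : ∀ y, y ≠ x → ψ y = φ y := fun y hy => by rw [hψ, Function.update_of_ne hy]
  by_cases hxv : x ∈ N v
  · have hca := hc hxv
    left
    by_cases hq : UQ N φ v
    · obtain ⟨u, hu, h1, h2, h3⟩ := hc1 hq
      have hux : u ≠ x := by
        intro e
        rw [e, hx] at h1
        exact h2 h1.symm
      refine ⟨u, hu, ?_, fun b hb e => ?_⟩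
      · rw [ψy u hux, h1]; exact h2
      · by_cases hbx : b = x
        · rw [hbx, ψx, ψy u hux, h1] at e
          exact absurd e.symm hca
        · rw [ψy b hbx, ψy u hux] at e
          exact h3 b hb e
    · refine ⟨x, hxv, ?_, fun b hb e => ?_⟩
      · rw [ψx]; exact Option.some_ne_none _
      · by_contra hbx
        rw [ψx, ψy b hbx] at e
        rcases hc2 hq with h1 | ⟨a', ha', h1, h2⟩
        · rw [h1 b hb] at e
          exact Option.some_ne_none _ e.symm
        · rcases hs with h3 | ⟨h3, -⟩
          · exact hq h3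
          · have h4 := h3 b hb a' ha' (by rw [e]; exact Option.some_ne_none _) h1
            rw [e, h2] at h4
            exact hca h4.symm
  · have hne : ∀ y ∈ N v, ψ y = φ y := fun y hy => ψy y fun e => hxv (e ▸ hy)
    rcases hs with ⟨u, hu, h1, h2⟩ | ⟨h1, u, hu, h2⟩
    · left
      refine ⟨u, hu, ?_, fun b hb e => ?_⟩
      · rw [hne u hu]; exact h1
      · rw [hne u hu, hne b hb] at e
        exact h2 b hb e
    · right
      refine ⟨fun p hp q hq e1 e2 => ?_, u, hu, ?_⟩
      · rw [hne p hp] at e1
        rw [hne q hq] at e2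
        rw [hne p hp, hne q hq]
        exact h1 p hp q hq e1 e2
      · rw [hne u hu]; exact h2

/-- PIECE FB (filling the big vertices). Induction on the number of big vertices `x` with `ψ x = none` (like `Pool.Agent.Helper4.PC.fill`, read
its proof first, the part for `W` is the same with `NB N` in place of `N`). For a blank big `x` choose for every `v ∈ N x` in `SS N` a colour
`col v : Option C`: the colour used exactly once on `N v` if `UQ N ψ v` (choose one), otherwise the common colour of the coloured vertices of `N v`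
(`none` if there is none). Forbidden: the colours of `ψ` on `NB N x` and the `col v`, `v ∈ N x`, `v ∈ SS N` (vertices of `SS N` are small, so these are
at most `#(N x) < #(L x)` colours). Colour `x` with an allowed `a ∈ L x`: `ψ' = update ψ x (some a)`. It is proper (small vertices are blank).
`Safe` is kept for `v ∈ SS N`: if `x ∉ N v` nothing changes; if `x ∈ N v` (then `v ∈ N x`) and `UQ N ψ v` with colour `col v ≠ a`, the same vertex
still has a unique colour; otherwise all coloured vertices of `N v` have the colour `col v ≠ a`, so `x` is the only vertex of colour `a`.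
At the end no big vertex is blank; then `Safe N ψ v` gives `UQ N ψ v` (all neighbours of `v ∈ SS N` are big), and for `u ∈ W` the set
`Bl (NB N) ψ u` is empty or not, anyway `Uq (NB N) ψ u` is not empty, and small vertices are blank, so `UQ N ψ u`. -/
theorem fillB {N : V → Finset V} {L : V → Finset C} (hG : Gr N)
    (hL : ∀ x, #(N x) + 1 ≤ #(L x)) (W : Finset V) (ψ : V → Option C) (hψ : ψ ∈ Om N L)
    (hs : ∀ x, #(N x) < 400 → ψ x = none)
    (hsafe : ∀ v ∈ SS N, 1 ≤ #(N v) → Safe N ψ v)
    (hgood : ∀ u ∈ W, #(Bl (NB N) ψ u) < #(Uq (NB N) ψ u)) :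
    ∃ χ ∈ Om N L, (∀ x, χ x = none ↔ #(N x) < 400) ∧
      (∀ v ∈ SS N, 1 ≤ #(N v) → UQ N χ v) ∧ ∀ u ∈ W, UQ N χ u := by
  classical
  obtain ⟨n, hn⟩ : ∃ n, #(univ.filter fun x => ψ x = none ∧ 400 ≤ #(N x)) = n := ⟨_, rfl⟩
  induction n using Nat.strong_induction_on generalizing ψ with
  | _ n ih =>
  by_cases hb : ∃ x, ψ x = none ∧ 400 ≤ #(N x)
  · obtain ⟨x, hx, hx4⟩ := hb
    choose col hcol1 hcol2 using fun v => exists_col N ψ v
    have hcard : #((N x).image fun v => if v ∈ SS N then col v else ψ v) <
        #((L x).image (some : C → Option C)) := by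
      rw [card_image_of_injective _ (Option.some_injective C)]
      have h1 := hL x
      have h2 := card_image_le (s := N x) (f := fun v => if v ∈ SS N then col v else ψ v)
      omega
    obtain ⟨e, he, he'⟩ := exists_mem_notMem_of_card_lt_card hcard
    obtain ⟨a, ha, rfl⟩ := mem_image.mp he
    have hf : ∀ v ∈ N x, (if v ∈ SS N then col v else ψ v) ≠ some a := fun v hv h =>
      he' (mem_image.mpr ⟨v, hv, h⟩)
    have haAv : a ∈ Av N L ψ x := by
      refine mem_Av.mpr ⟨ha, fun w hw => ?_⟩
      by_cases hw' : w ∈ SS N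
      · rw [hs w (mem_filter.mp hw').2.1]
        exact (Option.some_ne_none _).symm
      · have h1 := hf w hw
        rwa [if_neg hw'] at h1
    have hOm := Om_update_some hG hψ haAv
    refine ih _ ?_ (Function.update ψ x (some a)) hOm ?_ ?_ ?_ rfl
    · rw [← hn]
      refine card_lt_card ⟨fun y hy => ?_, fun hsub => ?_⟩
      · rw [mem_filter] at hy ⊢
        refine ⟨mem_univ _, ?_, hy.2.2⟩
        by_cases hyx : y = x
        · subst hyx; exact hx
        · have h1 := hy.2.1
          rwa [Function.update_of_ne hyx] at h1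
      · have h3 := hsub (mem_filter.mpr ⟨mem_univ x, hx, hx4⟩)
        have h4 := (mem_filter.mp h3).2.1
        rw [Function.update_self] at h4
        exact Option.some_ne_none _ h4
    · intro y hy
      have hyx : y ≠ x := by
        intro e
        subst e
        omega
      rw [Function.update_of_ne hyx]
      exact hs y hy
    · intro v hv hv1
      refine safe_update N ψ x a hx v (hsafe v hv hv1) (col v) (fun hxv => ?_) (hcol1 v) (hcol2 v)
      have h1 := hf v (hG.symm _ _ hxv)
      rwa [if_pos hv] at h1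
    · intro v hv
      exact good_update (NB N) ψ x a hx v (hgood v hv)
  · have hbig : ∀ x, ψ x = none ↔ #(N x) < 400 := fun x =>
      ⟨fun h => by
        by_contra h1
        exact hb ⟨x, h, by omega⟩, hs x⟩
    refine ⟨ψ, hψ, hbig, fun v hv hv1 => ?_, fun u hu => ?_⟩
    · rcases hsafe v hv hv1 with h1 | ⟨-, a, ha, h1⟩
      · exact h1
      · have h2 := (mem_filter.mp hv).2.2 a ha
        have h3 := (hbig a).mp h1
        omega
    · have h1 := hgood u hu
      obtain ⟨w, hw⟩ := card_pos.mp (show 0 < #(Uq (NB N) ψ u) by omega)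
      obtain ⟨hw1, hw2, hw3⟩ := mem_filter.mp hw
      refine ⟨w, (mem_filter.mp hw1).1, hw2, fun b hb' e => hw3 b ?_ e⟩
      refine mem_filter.mpr ⟨hb', ?_⟩
      by_contra h2
      have h3 := (hbig b).mpr (by omega)
      rw [h3] at e
      exact hw2 e.symm

end Pool.Agent.Helper25.CP
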