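import Pool.Agent.Helper25.CP.Base
import Pool.Agent.Helper4.PC.St.A1
import Pool.Agent.Helper4.PC.St.A2
namespace Pool.Agent.Helper25.CP

open Finset Pool.Agent.Helper4.PC

variable {V C : Type} [Fintype V] [DecidableEq V] [DecidableEq C]

/-- the effect of one move -/
private theorem move_fact {N M : V → Finset V} {L : V → Finset C} (hG : Gr N)
    {φ : V → Option C} (hφ : φ ∈ Om N L) {v u w : V} {a a' : C} (hu : u ∈ Nu M φ v)
    (hw : w ∈ N u) (haL : a ∈ L u) (hwa : φ w = some a)
    (hw1 : ∀ w' ∈ N u, φ w' = φ w → w' = w)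
    (hwX : φ w ∉ insert (φ v) ((M v).image φ)) (ha' : a' ∈ Av N L φ w) (hne : some a' ≠ φ w) :
    Function.update (Function.update φ u (φ w)) w (some a') ∈ Om N L ∧
    (#(Uq M (Function.update (Function.update φ u (φ w)) w (some a')) v) = #(Uq M φ v) + 1 ∨
     #(Uq M (Function.update (Function.update φ u (φ w)) w (some a')) v) = #(Uq M φ v) + 2) ∧
    u ∈ Uq M (Function.update (Function.update φ u (φ w)) w (some a')) v ∧
    φ u ∈ (Av N L (Function.update (Function.update φ u (φ w)) w (some a')) u).image some ∧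
    #(Av N L (Function.update (Function.update φ u (φ w)) w (some a')) u) ≤
      #(Av N L φ u) + 1 := by
  have hφ' := mem_Om.mp hφ
  obtain ⟨huv, hun, huU⟩ := mem_filter.mp hu
  have hwu : w ≠ u := fun e => hG.irr u (e ▸ hw)
  have hwv : w ∉ M v := fun e => hwX (mem_insert_of_mem (mem_image_of_mem φ e))
  have hav := mem_Av.mp ha'
  set ψ : V → Option C := Function.update (Function.update φ u (φ w)) w (some a') with hψ
  have ψw : ψ w = some a' := by rw [hψ, Function.update_self]
  have ψu : ψ u = φ w := by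
    rw [hψ, Function.update_of_ne hwu.symm, Function.update_self]
  have ψx : ∀ x, x ≠ u → x ≠ w → ψ x = φ x := by
    intro x h1 h2
    rw [hψ, Function.update_of_ne h2, Function.update_of_ne h1]
  have ψv : ∀ x ∈ M v, x ≠ u → ψ x = φ x := by
    intro x hx h1
    exact ψx x h1 (fun e => hwv (e ▸ hx))
  have hOm : ψ ∈ Om N L := by
    have h1 := Om_update_some hG hφ ha'
    have h2 : a ∈ Av N L (Function.update φ w (some a')) u := by
      rw [mem_Av]
      refine ⟨haL, fun y hy e => ?_⟩
      by_cases hyw : y = w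
      · subst hyw
        rw [Function.update_self] at e
        exact hne (e.trans hwa.symm)
      · rw [Function.update_of_ne hyw] at e
        exact hyw (hw1 y hy (e.trans hwa.symm))
    have h3 := Om_update_some hG h1 h2
    have h4 : ψ = Function.update (Function.update φ w (some a')) u (some a) := by
      rw [hψ, hwa]
      exact Function.update_comm hwu.symm _ _ _
    rw [h4]; exact h3
  have hU : u ∈ Uq M ψ v := by
    refine mem_filter.mpr ⟨huv, ?_, fun y hy e => ?_⟩
    · rw [ψu, hwa]; simp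
    · by_contra hyu
      rw [ψu, ψv y hy hyu] at e
      exact hwX (mem_insert_of_mem (e ▸ mem_image_of_mem φ hy))
  have hsub : insert u (Uq M φ v) ⊆ Uq M ψ v := by
    intro x hx
    rcases mem_insert.mp hx with rfl | hx
    · exact hU
    · obtain ⟨hx1, hx2, hx3⟩ := mem_filter.mp hx
      have hxu : x ≠ u := fun e => huU (e ▸ hx)
      refine mem_filter.mpr ⟨hx1, ?_, fun y hy e => ?_⟩
      · rw [ψv x hx1 hxu]; exact hx2
      · by_cases hyu : y = u
        · subst hyu
          rw [ψu, ψv x hx1 hxu] at e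
          exact absurd (mem_insert_of_mem (e ▸ mem_image_of_mem φ hx1)) hwX
        · rw [ψv y hy hyu, ψv x hx1 hxu] at e
          exact hx3 y hy e
  have hone : #(Uq M ψ v \ insert u (Uq M φ v)) ≤ 1 := by
    rw [card_le_one]
    have key : ∀ x ∈ Uq M ψ v \ insert u (Uq M φ v), x ∈ M v ∧ x ≠ u ∧ φ x = φ u ∧
        ∀ y ∈ M v, y ≠ u → φ y = φ x → y = x := by
      intro x hx
      obtain ⟨hx1, hx2⟩ := mem_sdiff.mp hx
      rw [mem_insert, not_or] at hx2
      obtain ⟨hx3, hx4, hx5⟩ := mem_filter.mp hx1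
      have hxx : ∀ y ∈ M v, y ≠ u → φ y = φ x → y = x := by
        intro y hy hyu e
        refine hx5 y hy ?_
        rw [ψv y hy hyu, ψv x hx3 hx2.1]; exact e
      refine ⟨hx3, hx2.1, ?_, hxx⟩
      by_contra hne2
      apply hx2.2
      refine mem_filter.mpr ⟨hx3, ?_, fun y hy e => ?_⟩
      · rw [← ψv x hx3 hx2.1]; exact hx4
      · by_cases hyu : y = u
        · subst hyu
          exact absurd e.symm hne2
        · exact hxx y hy hyu e
    intro x hx y hy
    obtain ⟨hx1, hx2, hx3, hx4⟩ := key x hx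
    obtain ⟨hy1, hy2, hy3, hy4⟩ := key y hy
    exact hy4 x hx1 hx2 (hx3.trans hy3.symm)
  have hcard : #(Uq M ψ v) = #(Uq M φ v) + 1 + #(Uq M ψ v \ insert u (Uq M φ v)) := by
    have h1 := card_sdiff_add_card_eq_card hsub
    rw [card_insert_of_notMem huU] at h1
    omega
  refine ⟨hOm, ?_, hU, ?_, ?_⟩
  · omega
  · obtain ⟨c, hc⟩ := Option.ne_none_iff_exists'.mp hun
    rw [hc]
    refine mem_image_of_mem some ?_
    rw [mem_Av]
    refine ⟨hφ'.1 u c hc, fun y hy e => ?_⟩
    have hyu : y ≠ u := fun e => hG.irr u (e ▸ hy)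
    by_cases hyw : y = w
    · subst hyw
      rw [ψw] at e
      exact hav.2 u (hG.symm _ _ hy) (hc.trans e.symm)
    · rw [ψx y hyu hyw] at e
      exact hun (hφ'.2 u y hy (hc.trans e.symm))
  · refine (card_le_card (?_ : _ ⊆ insert a (Av N L φ u))).trans (card_insert_le _ _)
    intro d hd
    rw [mem_insert]
    by_cases hda : d = a
    · exact Or.inl hda
    · right
      rw [mem_Av] at hd ⊢
      refine ⟨hd.1, fun y hy e => ?_⟩
      have hyu : y ≠ u := fun e => hG.irr u (e ▸ hy)
      by_cases hyw : y = w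
      · subst hyw
        exact hda (Option.some.inj (e.symm.trans hwa))
      · exact hd.2 y hy ((ψx y hyu hyw).trans e)

/-- PIECE S3 (rigid step). `switch` with `S`, `T` the two filters. Moves of `φ`: triples `(u, w, a')` with
`u ∈ Nu M φ v`, `#(Av N L φ u) ≤ t`; `w ∈ N u` whose colour is some `a ∈ L u`, occurs exactly once on `N u`, and
`φ w ∉ X`, `X = insert (φ v) ((M v).image φ)`; `a' ∈ Av N L φ w` with `some a' ≠ φ w`.
By `img_card` `2 #X ≤ #(M v) + z + 3`, so `once_card` gives `≥ h` choices of `w` (use `hh`), and there are `≥ m` choices of `a'`: `≥ R*h*m` moves.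
`f φ (u,w,a') = update (update φ u (φ w)) w (some a')`, label `(u, w, φ u)`, labels of `ψ`:
`u ∈ Uq M ψ v` with `#(Av N L ψ u) ≤ t + 1`, `w ∈ N u`, third entry in `(Av N L ψ u).image some`; at most `(z+2) * (t+1) * D`
labels (write it as a sigma / biUnion).
Checks: `w ≠ u`, `w ≠ v`, `w ∉ M v` (as `φ w ∉ X`). `ψ ∈ Om`: first recolour `w` by `a'` (`Om_update_some`), then `a` is available at
`u`, because `w` was the only neighbour of `u` with colour `a` and `a' ≠ a` (the two updates commute, `u ≠ w`).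
On `M v` only the colour of `u` changes, from a colour `c` used at least twice on `M v` to a colour `a` not used on `M v`: so `u ∈ Uq M ψ v`,
and `#Uq` becomes `z + 1` or `z + 2` (`z + 2` iff the class of `u` had exactly two elements).
`c ∈ Av N L ψ u`: no neighbour of `u` has colour `c` in `φ` (proper), and `a' ≠ c` as `u ∈ N w` has colour `c` and `a' ∈ Av N L φ w`.
`Av N L ψ u ⊆ insert a (Av N L φ u)`. Injective: `φ = update (update ψ w (ψ u)) u (label)`, `a'` is read off from `ψ w`. -/
theorem rigid_step {N M : V → Finset V} {L : V → Finset C} {B : Set V} {F : Finset (V → Option C)}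
    (hG : Gr N) (hF : Clo N L B F) (v : V) (hB1 : ∀ u ∈ M v, u ∈ B)
    (hB2 : ∀ u ∈ M v, ∀ w ∈ N u, w ∈ B) (z t m R h D : ℕ)
    (hL : ∀ u ∈ M v, #(N u) + 1 ≤ #(L u)) (hD : ∀ u ∈ M v, #(N u) ≤ D)
    (hh : ∀ u ∈ M v, #(N u) + t < #(L u) ∨ 2 * h + 4 * t + #(M v) + z + 1 ≤ 2 * #(L u)) :
    #(F.filter fun φ => #(Uq M φ v) = z ∧ (∀ u ∈ M v, ∀ w ∈ N u, m + 1 ≤ #(Av N L φ w)) ∧
        R ≤ #((Nu M φ v).filter fun u => #(Av N L φ u) ≤ t)) * (R * h * m) ≤
      #(F.filter fun φ => #(Uq M φ v) = z + 1 ∨ #(Uq M φ v) = z + 2) *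
        ((z + 2) * (t + 1) * D) := by
  classical
  refine switch
    (F.filter fun φ => #(Uq M φ v) = z ∧ (∀ u ∈ M v, ∀ w ∈ N u, m + 1 ≤ #(Av N L φ w)) ∧
        R ≤ #((Nu M φ v).filter fun u => #(Av N L φ u) ≤ t))
    (F.filter fun φ => #(Uq M φ v) = z + 1 ∨ #(Uq M φ v) = z + 2)
    (fun φ => ((Nu M φ v).filter fun u => #(Av N L φ u) ≤ t).sigma fun u =>
      ((N u).filter fun w => (∃ a ∈ L u, φ w = some a) ∧
      (∀ w' ∈ N u, φ w' = φ w → w' = w) ∧ φ w ∉ insert (φ v) ((M v).image φ)).sigma fun w =>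
        (Av N L φ w).filter fun a' => some a' ≠ φ w)
    (fun ψ => ((Uq M ψ v).filter fun u => #(Av N L ψ u) ≤ t + 1).sigma fun u =>
      (N u).sigma fun _ => (Av N L ψ u).image some)
    (fun φ b => Function.update (Function.update φ b.1 (φ b.2.1)) b.2.1 (some b.2.2))
    (fun φ b => (⟨b.1, b.2.1, φ b.1⟩ : (_ : V) × (_ : V) × Option C))
    (R * h * m) ((z + 2) * (t + 1) * D) ?_ ?_ ?_ ?_ ?_
  · rintro φ hφ ⟨u, w, a'⟩ hb
    obtain ⟨hφF, hz, hm, hR⟩ := mem_filter.mp hφ
    obtain ⟨hu, hb2⟩ := mem_sigma.mp hb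
    obtain ⟨hw, ha⟩ := mem_sigma.mp hb2
    obtain ⟨huN, hut⟩ := mem_filter.mp hu
    obtain ⟨hwN, ⟨a, haL, hwa⟩, hw1, hwX⟩ := mem_filter.mp hw
    obtain ⟨ha', hne⟩ := mem_filter.mp ha
    have hfact := move_fact hG (hF.sub hφF) huN hwN haL hwa hw1 hwX ha' hne
    have huv : u ∈ M v := (mem_filter.mp huN).1
    refine mem_filter.mpr ⟨hF.clo φ hφF _ hfact.1 ?_, ?_⟩
    · intro x hx
      have h1 : x ≠ u := fun e => hx (e ▸ hB1 u huv)
      have h2 : x ≠ w := fun e => hx (e ▸ hB2 u huv w hwN)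
      simp only
      rw [Function.update_of_ne h2, Function.update_of_ne h1]
    · have := hfact.2.1
      rw [hz] at this
      exact this
  · rintro φ hφ ⟨u, w, a'⟩ hb
    obtain ⟨hφF, hz, hm, hR⟩ := mem_filter.mp hφ
    obtain ⟨hu, hb2⟩ := mem_sigma.mp hb
    obtain ⟨hw, ha⟩ := mem_sigma.mp hb2
    obtain ⟨huN, hut⟩ := mem_filter.mp hu
    obtain ⟨hwN, ⟨a, haL, hwa⟩, hw1, hwX⟩ := mem_filter.mp hw
    obtain ⟨ha', hne⟩ := mem_filter.mp ha
    have hfact := move_fact hG (hF.sub hφF) huN hwN haL hwa hw1 hwX ha' hne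
    refine mem_sigma.mpr ⟨mem_filter.mpr ⟨hfact.2.2.1, ?_⟩, mem_sigma.mpr ⟨hwN, hfact.2.2.2.1⟩⟩
    exact hfact.2.2.2.2.trans (Nat.add_le_add_right hut 1)
  · rintro φ hφ ⟨u, w, a'⟩ hb φ2 hφ2 ⟨u2, w2, a2⟩ hb2 hf hg
    simp only [Sigma.mk.injEq, heq_eq_eq] at hg
    obtain ⟨rfl, rfl, hg3⟩ := hg
    simp only at hf
    obtain ⟨hu, hb3⟩ := mem_sigma.mp hb
    obtain ⟨hw, ha⟩ := mem_sigma.mp hb3
    have hwu : w ≠ u := fun e => hG.irr u (e ▸ (mem_filter.mp hw).1)
    have e1 : a' = a2 := by
      have := congrFun hf w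
      rw [Function.update_self, Function.update_self] at this
      exact Option.some.inj this
    subst e1
    refine ⟨?_, rfl⟩
    funext x
    by_cases hxu : x = u
    · subst hxu; exact hg3
    · by_cases hxw : x = w
      · subst hxw
        have := congrFun hf u
        rw [Function.update_of_ne hwu.symm, Function.update_of_ne hwu.symm,
          Function.update_self, Function.update_self] at this
        exact this
      · have := congrFun hf x
        rw [Function.update_of_ne hxw, Function.update_of_ne hxw,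
          Function.update_of_ne hxu, Function.update_of_ne hxu] at this
        exact this
  · intro φ hφ
    obtain ⟨hφF, hz, hm, hR⟩ := mem_filter.mp hφ
    rw [card_sigma]
    have hbound : ∀ u ∈ (Nu M φ v).filter (fun u => #(Av N L φ u) ≤ t), h * m ≤
        #(((N u).filter fun w => (∃ a ∈ L u, φ w = some a) ∧
      (∀ w' ∈ N u, φ w' = φ w → w' = w) ∧ φ w ∉ insert (φ v) ((M v).image φ)).sigma fun w =>
        (Av N L φ w).filter fun a' => some a' ≠ φ w) := by
      intro u hu
      obtain ⟨huN, hut⟩ := mem_filter.mp hu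
      have huv : u ∈ M v := (mem_filter.mp huN).1
      have h1 := once_card N L φ u (insert (φ v) ((M v).image φ)) (hL u huv)
      have h2 := img_card M φ v
      have h3 := card_insert_le (φ v) ((M v).image φ)
      have h40 := blank_card N L φ u
      have h4 : 2 * h + 4 * t + #(M v) + z + 1 ≤ 2 * #(L u) := by
        rcases hh u huv with h41 | h41
        · omega
        · exact h41
      rw [hz] at h2
      have h5 : h ≤ #((N u).filter fun w => (∃ a ∈ L u, φ w = some a) ∧
          (∀ w' ∈ N u, φ w' = φ w → w' = w) ∧ φ w ∉ insert (φ v) ((M v).image φ)) := by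
        omega
      rw [card_sigma]
      have h6 : ∀ w ∈ (N u).filter (fun w => (∃ a ∈ L u, φ w = some a) ∧
          (∀ w' ∈ N u, φ w' = φ w → w' = w) ∧ φ w ∉ insert (φ v) ((M v).image φ)),
          m ≤ #((Av N L φ w).filter fun a' => some a' ≠ φ w) := by
        intro w hw
        obtain ⟨hwN, ⟨a, haL, hwa⟩, hw1, hwX⟩ := mem_filter.mp hw
        have h7 := hm u huv w hwN
        have h8 : (Av N L φ w).erase a ⊆ (Av N L φ w).filter fun a' => some a' ≠ φ w := by
          intro d hd
          rw [mem_erase] at hd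
          refine mem_filter.mpr ⟨hd.2, ?_⟩
          rw [hwa]
          exact fun e => hd.1 (Option.some.inj e)
        have h9 := card_le_card h8
        have h10 := pred_card_le_card_erase (s := Av N L φ w) (a := a)
        omega
      calc h * m ≤ #((N u).filter fun w => (∃ a ∈ L u, φ w = some a) ∧
          (∀ w' ∈ N u, φ w' = φ w → w' = w) ∧ φ w ∉ insert (φ v) ((M v).image φ)) * m :=
            Nat.mul_le_mul_right _ h5
        _ ≤ _ := by
            rw [← smul_eq_mul]
            exact card_nsmul_le_sum _ _ _ h6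
    calc R * h * m = R * (h * m) := Nat.mul_assoc _ _ _
      _ ≤ #((Nu M φ v).filter fun u => #(Av N L φ u) ≤ t) * (h * m) :=
          Nat.mul_le_mul_right _ hR
      _ ≤ _ := by
          rw [← smul_eq_mul]
          exact card_nsmul_le_sum _ _ _ hbound
  · intro ψ hψ
    obtain ⟨hψF, hz⟩ := mem_filter.mp hψ
    rw [card_sigma]
    have hbound : ∀ u ∈ (Uq M ψ v).filter (fun u => #(Av N L ψ u) ≤ t + 1),
        #((N u).sigma fun _ => (Av N L ψ u).image some) ≤ (t + 1) * D := by
      intro u hu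
      obtain ⟨huU, hut⟩ := mem_filter.mp hu
      have huv : u ∈ M v := (mem_filter.mp huU).1
      rw [card_sigma, sum_const, smul_eq_mul, Nat.mul_comm]
      exact Nat.mul_le_mul (card_image_le.trans hut) (hD u huv)
    have h1 : #((Uq M ψ v).filter fun u => #(Av N L ψ u) ≤ t + 1) ≤ z + 2 := by
      refine (card_filter_le _ _).trans ?_
      omega
    calc _ ≤ #((Uq M ψ v).filter fun u => #(Av N L ψ u) ≤ t + 1) • ((t + 1) * D) :=
          sum_le_card_nsmul _ _ _ hbound
      _ = #((Uq M ψ v).filter fun u => #(Av N L ψ u) ≤ t + 1) * ((t + 1) * D) := smul_eq_mul _ _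
      _ ≤ (z + 2) * ((t + 1) * D) := Nat.mul_le_mul_right _ h1
      _ = (z + 2) * (t + 1) * D := (Nat.mul_assoc _ _ _).symm

end Pool.Agent.Helper25.CP
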