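import Pool.Agent.Helper25.CP.Base

namespace Pool.Agent.Helper25.CP

open Finset Pool.Agent.Helper4.PC

variable {V C : Type} [Fintype V] [DecidableEq V] [DecidableEq C]

private theorem s4_card_avail {N M : V → Finset V} {L : V → Finset C} {φ : V → Option C}
    {v u : V} {k h : ℕ} (hk : #((M v).image φ) ≤ k) (hu : k + h ≤ #(Av N L φ u)) :
    h ≤ #((Av N L φ u).filter fun a => some a ∉ (M v).image φ) := by
  have h1 : #((Av N L φ u).filter fun a => some a ∈ (M v).image φ) ≤ k := by
    refine le_trans ?_ hk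
    refine card_le_card_of_injOn (fun a => (some a : Option C)) ?_ ?_
    · intro a ha
      exact mem_coe.mpr (mem_filter.mp (mem_coe.mp ha)).2
    · intro a _ b _ hab
      exact Option.some.inj hab
  have h2 := card_filter_add_card_filter_not (s := Av N L φ u)
    (fun a => some a ∈ (M v).image φ)
  omega

private theorem s4_card_Uq {M : V → Finset V} {φ : V → Option C} {v u : V} {a : C}
    (hu : u ∈ Nu M φ v) (ha : some a ∉ (M v).image φ) :
    u ∈ Uq M (Function.update φ u (some a)) v ∧
    (#(Uq M (Function.update φ u (some a)) v) = #(Uq M φ v) + 1 ∨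
      #(Uq M (Function.update φ u (some a)) v) = #(Uq M φ v) + 2) := by
  have hu1 := mem_filter.mp hu
  have huN : u ∈ M v := hu1.1
  have hu0 : φ u ≠ none := hu1.2.1
  have huU : u ∉ Uq M φ v := hu1.2.2
  have hane : ∀ w ∈ M v, φ w ≠ some a := fun w hw e => ha (mem_image.mpr ⟨w, hw, e⟩)
  set ψ := Function.update φ u (some a) with hψ
  have hψu : ψ u = some a := by rw [hψ, Function.update_self]
  have hψw : ∀ w, w ≠ u → ψ w = φ w := fun w hw => by rw [hψ, Function.update_of_ne hw]
  have huq : u ∈ Uq M ψ v := by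
    refine mem_filter.mpr ⟨huN, ?_, ?_⟩
    · rw [hψu]; simp
    · intro w hw e
      by_contra hne
      rw [hψw w hne, hψu] at e
      exact hane w hw e
  refine ⟨huq, ?_⟩
  -- the extra set
  set X : Finset V := (M v).filter fun w => w ≠ u ∧ φ w = φ u ∧
    ∀ w' ∈ M v, w' ≠ u → φ w' = φ u → w' = w with hX
  have hXc : #X ≤ 1 := by
    rw [card_le_one]
    intro w1 h1 w2 h2
    have h1' := mem_filter.mp h1
    have h2' := mem_filter.mp h2
    exact (h1'.2.2.2 w2 h2'.1 h2'.2.1 h2'.2.2.1).symm
  have hd1 : Disjoint (Uq M φ v) X := by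
    rw [Finset.disjoint_left]
    intro w h1 h2
    have h1' := mem_filter.mp h1
    have h2' := mem_filter.mp h2
    have := h1'.2.2 u huN h2'.2.2.1.symm
    exact h2'.2.1 this.symm
  have huX : u ∉ X := fun h => (mem_filter.mp h).2.1 rfl
  have hEq : Uq M ψ v = insert u (Uq M φ v ∪ X) := by
    ext w
    rw [mem_insert, mem_union]
    constructor
    · intro hw
      by_cases hwu : w = u
      · exact Or.inl hwu
      · right
        have hw' := mem_filter.mp hw
        have hwN := hw'.1
        have hw0 := hw'.2.1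
        have hw2 := hw'.2.2
        rw [hψw w hwu] at hw0 hw2
        by_cases hc : φ w = φ u
        · right
          refine mem_filter.mpr ⟨hwN, hwu, hc, ?_⟩
          intro w' hw'N hw'u hw'c
          apply hw2 w' hw'N
          rw [hψw w' hw'u, hw'c, hc]
        · left
          refine mem_filter.mpr ⟨hwN, hw0, ?_⟩
          intro w' hw'N hw'c
          by_cases hw'u : w' = u
          · rw [hw'u] at hw'c
            exact absurd hw'c.symm hc
          · apply hw2 w' hw'N
            rw [hψw w' hw'u, hw'c]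
    · rintro (hw | hw | hw)
      · rw [hw]; exact huq
      · have hw' := mem_filter.mp hw
        have hwu : w ≠ u := fun e => huU (e ▸ hw)
        refine mem_filter.mpr ⟨hw'.1, ?_, ?_⟩
        · rw [hψw w hwu]; exact hw'.2.1
        · intro w' hw'N hw'c
          rw [hψw w hwu] at hw'c
          by_cases hw'u : w' = u
          · rw [hw'u, hψu] at hw'c
            exact absurd hw'c.symm (hane w hw'.1)
          · rw [hψw w' hw'u] at hw'c
            exact hw'.2.2 w' hw'N hw'c
      · have hw' := mem_filter.mp hw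
        have hwu : w ≠ u := hw'.2.1
        refine mem_filter.mpr ⟨hw'.1, ?_, ?_⟩
        · rw [hψw w hwu, hw'.2.2.1]; exact hu0
        · intro w' hw'N hw'c
          rw [hψw w hwu] at hw'c
          by_cases hw'u : w' = u
          · rw [hw'u, hψu] at hw'c
            exact absurd hw'c.symm (hane w hw'.1)
          · rw [hψw w' hw'u] at hw'c
            exact hw'.2.2.2 w' hw'N hw'u (hw'c.trans hw'.2.2.1)
  have hnot : u ∉ Uq M φ v ∪ X := by
    rw [mem_union]
    exact fun h => h.elim huU huX
  rw [hEq, card_insert_of_notMem hnot, card_union_of_disjoint hd1]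
  omega

/-- PIECE S4 (new colour step). `switch`. Moves of `φ`: `(u, a)` with `u ∈ Nu M φ v`, `k + h ≤ #(Av N L φ u)`, `a ∈ Av N L φ u`,
`some a ∉ (M v).image φ` (at least `h` choices of `a`, as the image has at most `k` elements).
`f φ (u,a) = update φ u (some a)`, label `(u, φ u)`, labels of `ψ`: `(Uq M ψ v) ×ˢ ((M v).image ψ)`, at most `(z+2) * #(M v)`.
`φ u ∈ (M v).image ψ` because the colour of `u` is repeated on `M v`. `#Uq` becomes `z + 1` or `z + 2` (`z+2` iff the class of `u` in `φ`
had exactly two elements). Injective: `φ = update ψ u (label)`. -/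
theorem new_step {N M : V → Finset V} {L : V → Finset C} {B : Set V} {F : Finset (V → Option C)}
    (hG : Gr N) (hF : Clo N L B F) (v : V) (hB1 : ∀ u ∈ M v, u ∈ B) (z k h R : ℕ) :
    #(F.filter fun φ => #(Uq M φ v) = z ∧ #((M v).image φ) ≤ k ∧
        R ≤ #((Nu M φ v).filter fun u => k + h ≤ #(Av N L φ u))) * (R * h) ≤
      #(F.filter fun φ => #(Uq M φ v) = z + 1 ∨ #(Uq M φ v) = z + 2) *
        ((z + 2) * #(M v)) := by
  refine switch (β := (_ : V) × C) (δ := V × Option C) _ _
    (fun φ => ((Nu M φ v).filter fun u => k + h ≤ #(Av N L φ u)).sigma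
      fun u => (Av N L φ u).filter fun a => some a ∉ (M v).image φ)
    (fun ψ => (Uq M ψ v) ×ˢ ((M v).image ψ))
    (fun φ p => Function.update φ p.1 (some p.2))
    (fun φ p => (p.1, φ p.1)) (R * h) ((z + 2) * #(M v)) ?_ ?_ ?_ ?_ ?_
  · rintro φ hφ ⟨u, a⟩ hp
    have hφ' := mem_filter.mp hφ
    have hp' := mem_sigma.mp hp
    have hu := mem_filter.mp hp'.1
    have ha := mem_filter.mp hp'.2
    have huN : u ∈ M v := (mem_filter.mp hu.1).1
    refine mem_filter.mpr ⟨?_, ?_⟩
    · refine hF.clo φ hφ'.1 _ (Om_update_some hG (hF.sub hφ'.1) ha.1) ?_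
      intro x hx
      have hxu : x ≠ u := fun e => hx (e ▸ hB1 u huN)
      exact Function.update_of_ne hxu _ _
    · have h1 := (s4_card_Uq hu.1 ha.2).2
      rw [hφ'.2.1] at h1
      exact h1
  · rintro φ hφ ⟨u, a⟩ hp
    have hp' := mem_sigma.mp hp
    have hu := mem_filter.mp hp'.1
    have ha := mem_filter.mp hp'.2
    have hu1 := mem_filter.mp hu.1
    refine mem_product.mpr ⟨(s4_card_Uq hu.1 ha.2).1, ?_⟩
    have huU : u ∉ Uq M φ v := hu1.2.2
    have : ∃ w ∈ M v, φ w = φ u ∧ w ≠ u := by
      by_contra hcon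
      push Not at hcon
      exact huU (mem_filter.mpr ⟨hu1.1, hu1.2.1, fun w hw e => hcon w hw e⟩)
    obtain ⟨w, hw, hwc, hwu⟩ := this
    refine mem_image.mpr ⟨w, hw, ?_⟩
    show Function.update φ u (some a) w = φ u
    rw [Function.update_of_ne hwu, hwc]
  · rintro φ hφ ⟨u, a⟩ hp φ' hφ' ⟨u', a'⟩ hp' hf hg
    have hf' : Function.update φ u (some a) = Function.update φ' u' (some a') := hf
    have hg' : (u, φ u) = (u', φ' u') := hg
    rw [Prod.mk.injEq] at hg'
    obtain ⟨h1, h2⟩ := hg'
    subst h1
    have haa : a = a' := by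
      have := congrFun hf' u
      rw [Function.update_self, Function.update_self] at this
      exact Option.some.inj this
    subst haa
    refine ⟨?_, rfl⟩
    funext w
    by_cases hw : w = u
    · rw [hw]; exact h2
    · have := congrFun hf' w
      rw [Function.update_of_ne hw, Function.update_of_ne hw] at this
      exact this
  · intro φ hφ
    have hφ' := mem_filter.mp hφ
    rw [card_sigma]
    calc R * h ≤ #((Nu M φ v).filter fun u => k + h ≤ #(Av N L φ u)) * h :=
          Nat.mul_le_mul_right _ hφ'.2.2.2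
      _ = ∑ _u ∈ (Nu M φ v).filter fun u => k + h ≤ #(Av N L φ u), h := by simp
      _ ≤ _ := sum_le_sum fun u hu => s4_card_avail hφ'.2.2.1 (mem_filter.mp hu).2
  · intro ψ hψ
    have hψ' := mem_filter.mp hψ
    rw [card_product]
    exact Nat.mul_le_mul (by omega) card_image_le

end Pool.Agent.Helper25.CP
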