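import Pool.Agent.Helper25.CP.Base
import Pool.Agent.Helper4.PC.St.S1B
import Pool.Agent.Helper25.CP.S2B

namespace Pool.Agent.Helper25.CP

open Finset Pool.Agent.Helper4.PC

variable {V C : Type} [Fintype V] [DecidableEq V] [DecidableEq C]

/-- PIECE LA (not nice is rare). For every `x ∈ M v` and every `x ∈ N u`, `u ∈ M v`: `8 r^2 ≤ #(L x)` by `32 r^2 ≤ #(M v) ≤ 4 #(L x)`, so
`av_tail` bounds the part of `F` with `2 #(Av x) ≤ r` by `(r+1) / 2^r * #F`; there are at most `#(M v) + #(M v) * D ≤ 2 #(M v) D` such `x`: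
`#{¬ NiceA} ≤ 2 #(M v) D (r+1)/2^r #F`. `bl_tail` with `m = (r+1)/2` (note `r < 2a ↔ (r+1)/2 ≤ a` may fail for even `r`; only
`r < 2a → (r+1)/2 ≤ a` is needed; bound its exceptional set `¬ ∀ u ∈ M v, (r+1)/2 ≤ #Av` by `{¬ NiceA}`) gives
`#{NiceA, 2 b1 ≤ #Bl} ≤ (#(M v)+1) (#F / 2^b1 + #{¬ NiceA})`. Add. -/
theorem not_nice {N M : V → Finset V} {L : V → Finset C} {B : Set V} {F : Finset (V → Option C)}
    (hG : Gr N) (hF : Clo N L B F) (v : V) (D r b1 : ℕ)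
    (hL : ∀ x, #(N x) + 1 ≤ #(L x)) (hd : 1 ≤ #(M v)) (hD0 : #(M v) ≤ D)
    (hD : ∀ u ∈ M v, #(N u) ≤ D)
    (h1 : ∀ u ∈ M v, 8 * r ^ 2 ≤ #(L u)) (h2 : ∀ u ∈ M v, ∀ w ∈ N u, 8 * r ^ 2 ≤ #(L w))
    (hB1 : ∀ u ∈ M v, u ∈ B) (hB2 : ∀ u ∈ M v, ∀ w ∈ N u, w ∈ B)
    (hB3 : ∀ u ∈ M v, ∀ w ∈ N u, ∀ y ∈ N w, y ∈ B)
    (hb : 2 * #(M v) ≤ b1 * ((r + 1) / 2)) :
    (#(F.filter fun φ => ¬ Nice N M L r (2 * b1) v φ) : ℝ) ≤
      ((#(M v) + 2) * (2 * #(M v) * D) * (((r : ℝ) + 1) / 2 ^ r) + (#(M v) + 1) / 2 ^ b1) * #F := by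
  classical
  have hd' : (1 : ℝ) ≤ #(M v) := by exact_mod_cast hd
  have hF0 : (0 : ℝ) ≤ #F := Nat.cast_nonneg _
  have h2r : (0 : ℝ) < 2 ^ r := by positivity
  have h2b : (0 : ℝ) < 2 ^ b1 := by positivity
  set E := F.filter fun φ => ¬ NiceA N M L r v φ with hE
  set X := M v ∪ (M v).biUnion N with hX
  -- tails of the availability
  have tail : ∀ x ∈ X, (#(F.filter fun φ => 2 * #(Av N L φ x) ≤ r) : ℝ) ≤
      (((r : ℝ) + 1) / 2 ^ r) * #F := by
    intro x hx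
    have h : 2 ^ r * #(F.filter fun φ => 2 * #(Av N L φ x) ≤ r) ≤ (r + 1) * #F := by
      rcases mem_union.mp hx with hx | hx
      · exact av_tail hF x (fun w hw => hB2 x hx w hw) (hL x) r (h1 x hx)
      · obtain ⟨u, hu, hxu⟩ := mem_biUnion.mp hx
        exact av_tail hF x (fun w hw => hB3 u hu x hxu w hw) (hL x) r (h2 u hu x hxu)
    have h' : (2 : ℝ) ^ r * #(F.filter fun φ => 2 * #(Av N L φ x) ≤ r) ≤ ((r : ℝ) + 1) * #F := by
      exact_mod_cast h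
    rw [div_mul_eq_mul_div, le_div_iff₀ h2r]
    linarith
  have hXc : (#X : ℝ) ≤ 2 * #(M v) * D := by
    have h : #X ≤ #(M v) + #(M v) * D := by
      refine (card_union_le _ _).trans (Nat.add_le_add_left ?_ _)
      refine card_biUnion_le.trans ?_
      refine (sum_le_card_nsmul _ _ D fun u hu => hD u hu).trans ?_
      simp
    have h' : (#X : ℝ) ≤ #(M v) + #(M v) * D := by exact_mod_cast h
    have hDd : (1 : ℝ) ≤ D := by
      have : 1 ≤ D := hd.trans hD0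
      exact_mod_cast this
    nlinarith
  have hEc : (#E : ℝ) ≤ (2 * #(M v) * D) * (((r : ℝ) + 1) / 2 ^ r) * #F := by
    have hsub : E ⊆ X.biUnion fun x => F.filter fun φ => 2 * #(Av N L φ x) ≤ r := by
      intro φ hφ
      rw [hE, mem_filter] at hφ
      rw [mem_biUnion]
      by_contra hcon
      push Not at hcon
      apply hφ.2
      have key : ∀ x ∈ X, r < 2 * #(Av N L φ x) := by
        intro x hx
        by_contra hx'
        exact hcon x hx (mem_filter.mpr ⟨hφ.1, not_lt.mp hx'⟩)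
      refine ⟨fun u hu => key u (mem_union_left _ hu), fun u hu w hw => ?_⟩
      exact key w (mem_union_right _ (mem_biUnion.mpr ⟨u, hu, hw⟩))
    have h3 : (#E : ℝ) ≤ ∑ x ∈ X, (#(F.filter fun φ => 2 * #(Av N L φ x) ≤ r) : ℝ) := by
      have := (card_le_card hsub).trans card_biUnion_le
      exact_mod_cast this
    have h4 : ∑ x ∈ X, (#(F.filter fun φ => 2 * #(Av N L φ x) ≤ r) : ℝ) ≤
        #X * ((((r : ℝ) + 1) / 2 ^ r) * #F) := by
      refine (sum_le_card_nsmul _ _ _ tail).trans ?_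
      rw [nsmul_eq_mul]
    have h5 : 0 ≤ (((r : ℝ) + 1) / 2 ^ r) * #F := by positivity
    have h6 := mul_le_mul_of_nonneg_right hXc h5
    calc (#E : ℝ) ≤ #X * ((((r : ℝ) + 1) / 2 ^ r) * #F) := h3.trans h4
      _ ≤ (2 * #(M v) * D) * ((((r : ℝ) + 1) / 2 ^ r) * #F) := h6
      _ = (2 * #(M v) * D) * (((r : ℝ) + 1) / 2 ^ r) * #F := by ring
  -- blanks
  set T := F.filter fun φ => (∀ u ∈ M v, (r + 1) / 2 ≤ #(Av N L φ u)) ∧ 2 * b1 ≤ #(Bl M φ v)
    with hT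
  set E' := F.filter fun φ => ¬ ∀ u ∈ M v, (r + 1) / 2 ≤ #(Av N L φ u) with hE'
  have hEE : E' ⊆ E := by
    intro φ hφ
    rw [hE', mem_filter] at hφ
    rw [hE, mem_filter]
    refine ⟨hφ.1, fun hn => hφ.2 fun u hu => ?_⟩
    have := hn.1 u hu
    omega
  have hbl : (2 : ℝ) ^ b1 * #T ≤ ((#(M v) : ℝ) + 1) * (#F + 2 ^ b1 * #E') := by
    have := bl_tail hG hF v hB1 ((r + 1) / 2) b1 hb
    exact_mod_cast this
  have hTc : (#T : ℝ) ≤ ((#(M v) : ℝ) + 1) * (#F / 2 ^ b1 + #E) := by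
    have h3 : (#E' : ℝ) ≤ #E := by exact_mod_cast card_le_card hEE
    have h4 : (2 : ℝ) ^ b1 * #T ≤ 2 ^ b1 * (((#(M v) : ℝ) + 1) * (#F / 2 ^ b1 + #E)) := by
      refine hbl.trans ?_
      have h5 : (2 : ℝ) ^ b1 * (((#(M v) : ℝ) + 1) * (#F / 2 ^ b1 + #E)) =
          ((#(M v) : ℝ) + 1) * (#F + 2 ^ b1 * #E) := by
        field_simp
      rw [h5]
      refine mul_le_mul_of_nonneg_left ?_ (by positivity)
      have := mul_le_mul_of_nonneg_left h3 h2b.le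
      linarith
    exact le_of_mul_le_mul_left h4 h2b
  have hsub : (F.filter fun φ => ¬ Nice N M L r (2 * b1) v φ) ⊆ E ∪ T := by
    intro φ hφ
    rw [mem_filter] at hφ
    rw [mem_union, hE, hT, mem_filter, mem_filter]
    by_cases hn : NiceA N M L r v φ
    · right
      refine ⟨hφ.1, fun u hu => ?_, ?_⟩
      · have := hn.1 u hu
        omega
      · by_contra hc
        exact hφ.2 ⟨hn, not_le.mp hc⟩
    · left
      exact ⟨hφ.1, hn⟩
  have hfin : (#(F.filter fun φ => ¬ Nice N M L r (2 * b1) v φ) : ℝ) ≤ #E + #T := by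
    have := (card_le_card hsub).trans (card_union_le _ _)
    exact_mod_cast this
  calc (#(F.filter fun φ => ¬ Nice N M L r (2 * b1) v φ) : ℝ) ≤ #E + #T := hfin
    _ ≤ #E + ((#(M v) : ℝ) + 1) * (#F / 2 ^ b1 + #E) := by linarith
    _ = (#(M v) + 2) * #E + (#(M v) + 1) / 2 ^ b1 * #F := by ring
    _ ≤ (#(M v) + 2) * ((2 * #(M v) * D) * (((r : ℝ) + 1) / 2 ^ r) * #F) +
        (#(M v) + 1) / 2 ^ b1 * #F := by
      have := mul_le_mul_of_nonneg_left hEc (by positivity : (0 : ℝ) ≤ #(M v) + 2)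
      linarith
    _ = _ := by ring

end Pool.Agent.Helper25.CP
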