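import Pool.Agent.Helper25.CP.Base
import Pool.Agent.Helper4.CP.LLM
import Pool.Agent.Helper4.CP.M2M

namespace Pool.Agent.Helper25.CP

open Finset Pool.Agent.Helper4.PC

/-- local lemma, large degrees -/
theorem local_large (A κ CJ : ℕ) (hA : 1 ≤ A) (hκ : 1 ≤ κ) : ∃ d0 : ℕ,
    ∀ (V C : Type) [Fintype V] [DecidableEq V]
    [DecidableEq C] (N M : V → Finset V) (L : V → Finset C) (B : Set V)
    (F : Finset (V → Option C)) (v : V) (D : ℕ), Gr N → Clo N L B F →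
    (∀ x, #(N x) + 1 ≤ #(L x)) → d0 ≤ #(M v) → #(M v) ≤ D → D ≤ #(M v) ^ 8 →
    (∀ u ∈ M v, #(N u) ≤ D) →
    (∀ u ∈ M v, 2 * D + κ * #(M v) ≤ 2 * κ * #(L u) ∨ D + A * #(N u) ≤ A * #(L u)) →
    (∀ u ∈ M v, D ≤ A * #(L u)) → (∀ u ∈ M v, ∀ w ∈ N u, D ≤ A * #(L w)) →
    (∀ u ∈ M v, u ∈ B) → (∀ u ∈ M v, ∀ w ∈ N u, w ∈ B) →
    (∀ u ∈ M v, ∀ w ∈ N u, ∀ y ∈ N w, y ∈ B) →
    #(F.filter fun φ => #(Uq M φ v) ≤ #(Bl M φ v) + CJ * Nat.sqrt #(M v)) * D ^ 6 ≤ #F :=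
  Pool.Agent.Helper4.CP.local_large A κ CJ hA hκ

/-- local lemma, small degrees -/
theorem local_small (A : ℕ) (hA : 1 ≤ A) : ∃ D0 : ℕ,
    ∀ (V C : Type) [Fintype V] [DecidableEq V]
    [DecidableEq C] (N M : V → Finset V) (L : V → Finset C) (B : Set V)
    (F : Finset (V → Option C)) (v : V) (D : ℕ), Gr N → Clo N L B F → D0 ≤ D →
    (∀ x, #(N x) + 1 ≤ #(L x)) → 400 ≤ #(M v) → #(M v) ^ 8 ≤ D →
    (∀ u ∈ M v, D ≤ A * #(L u)) → (∀ u ∈ M v, u ∈ B) → (∀ u ∈ M v, ∀ w ∈ N u, w ∈ B) →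
    #(F.filter fun φ => #(Uq M φ v) ≤ #(Bl M φ v) + 194) * D ^ 6 ≤ #F :=
  Pool.Agent.Helper4.CP.local_small A hA

end Pool.Agent.Helper25.CP
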