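import Pool.Agent.Helper25.CP.Base

namespace Pool.Agent.Helper25.CP

open Finset Pool.Agent.Helper4.PC

private theorem num1_a {c1 c2 d : ℝ} (h1 : 0 ≤ c1) (h2 : 0 ≤ c2) (hd : 0 ≤ d) :
    (c1 * d + c2) * 2 ≤ 2 * (c1 + c2) * (d + 1) := by
  nlinarith [mul_nonneg h2 hd, mul_nonneg h1 hd]

private theorem num1_b {k d D : ℝ} (hk : 0 ≤ k) (hdD : d ≤ D) (hD : 1 ≤ D) :
    d * D * k ≤ k * D ^ 2 := by
  have h4 : d * D ≤ D ^ 2 := by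
    rw [pow_two]
    exact mul_le_mul_of_nonneg_right hdD (by linarith)
  calc d * D * k ≤ D ^ 2 * k := mul_le_mul_of_nonneg_right h4 hk
    _ = k * D ^ 2 := mul_comm _ _

private theorem num1_c {d D : ℝ} (hdD : d ≤ D) (hD : 1 ≤ D) : d + 1 ≤ 2 * D ^ 2 := by
  have h1 : D ≤ D ^ 2 := by
    rw [pow_two]
    exact le_mul_of_one_le_left (by linarith) hD
  linarith

private theorem num1_d {r : ℕ} (hr : 1 ≤ r) : (r + 1) * (r + 1) ≤ 4 * r ^ 2 := by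
  nlinarith

/-- the estimate for large `r`, with general constants -/
private theorem num1_aux (c1 c2 k a s : ℝ) (h1 : 0 ≤ c1) (h2 : 0 ≤ c2) (hk : 0 ≤ k) (ha : 0 ≤ a)
    (hs : s = c1 + c2) :
    ∃ R0 : ℕ, ∀ r : ℕ, R0 ≤ r → ∀ D d : ℕ, 1 ≤ D → (D : ℝ) ≤ a * (r : ℝ) ^ 2 → d ^ 8 ≤ D →
    ∀ lam : ℝ, lam = (c1 * d + c2) / ((r : ℝ) / 2) →
    2 ≤ r ∧ (lam ^ 24 + 2 * 24 * ((d : ℝ) * D * k + lam) ^ 24 * (((r : ℝ) + 1) / 2 ^ r)) *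
      (D : ℝ) ^ 6 ≤ 1 := by
  have hs0 : 0 ≤ s := by rw [hs]; positivity
  set K2 : ℝ := (4 * s) ^ 24 * a ^ 9 with hK2
  set K3 : ℝ := k + 4 * s with hK3
  set K4 : ℝ := 48 * K3 ^ 24 * a ^ 54 * 2 with hK4
  have hK2' : 0 ≤ K2 := by positivity
  have hK3' : 0 ≤ K3 := by positivity
  have hK4' : 0 ≤ K4 := by positivity
  have hlim : Filter.Tendsto (fun n : ℕ => K4 * ((n : ℝ) ^ 109 / (2 : ℝ) ^ n)) Filter.atTop
      (nhds (K4 * 0)) :=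
    (tendsto_pow_const_div_const_pow_of_one_lt 109 (by norm_num : (1 : ℝ) < 2)).const_mul K4
  rw [mul_zero] at hlim
  have hev := hlim.eventually (ge_mem_nhds (show (0 : ℝ) < 1 / 2 by norm_num))
  rw [Filter.eventually_atTop] at hev
  obtain ⟨R1, hR1⟩ := hev
  obtain ⟨R2, hR2⟩ := exists_nat_ge (2 * K2)
  refine ⟨max (max R1 R2) 2, ?_⟩
  intro r hr D d hD hDr hd lam hlam
  have hr1 : R1 ≤ r := le_trans (le_trans (le_max_left _ _) (le_max_left _ _)) hr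
  have hr2 : R2 ≤ r := le_trans (le_trans (le_max_right _ _) (le_max_left _ _)) hr
  have hr3 : 2 ≤ r := le_trans (le_max_right _ _) hr
  refine ⟨hr3, ?_⟩
  have hexp := hR1 r hr1
  have hR2' : 2 * K2 ≤ r := hR2.trans (by exact_mod_cast hr2)
  have hrr : (2 : ℝ) ≤ r := by exact_mod_cast hr3
  have hrpos : (0 : ℝ) < r := by linarith
  have hDD : (1 : ℝ) ≤ D := by exact_mod_cast hD
  -- powers of `d + 1`
  have hd8 : (d + 1) ^ 8 ≤ 2 ^ 8 * D := by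
    rcases Nat.eq_zero_or_pos d with h0 | h0
    · subst h0
      calc (0 + 1) ^ 8 = 1 := by norm_num
        _ ≤ 2 ^ 8 * D := by omega
    · calc (d + 1) ^ 8 ≤ (2 * d) ^ 8 := Nat.pow_le_pow_left (by omega) 8
        _ = 2 ^ 8 * d ^ 8 := by ring
        _ ≤ 2 ^ 8 * D := Nat.mul_le_mul_left _ hd
  have hd24 : ((d : ℝ) + 1) ^ 24 ≤ 2 ^ 24 * (D : ℝ) ^ 3 := by
    have h3 : ((d + 1) ^ 8) ^ 3 ≤ (2 ^ 8 * D) ^ 3 := Nat.pow_le_pow_left hd8 3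
    have h4 : (((d : ℝ) + 1) ^ 8) ^ 3 ≤ (2 ^ 8 * (D : ℝ)) ^ 3 := by exact_mod_cast h3
    calc ((d : ℝ) + 1) ^ 24 = (((d : ℝ) + 1) ^ 8) ^ 3 := by ring
      _ ≤ (2 ^ 8 * (D : ℝ)) ^ 3 := h4
      _ = 2 ^ 24 * (D : ℝ) ^ 3 := by ring
  have hdD : (d : ℝ) ≤ D := by
    have h3 : d ≤ D := (Nat.le_self_pow (by norm_num) d).trans hd
    exact_mod_cast h3
  have hd0 : (0 : ℝ) ≤ d := Nat.cast_nonneg d
  -- the size of `lam`
  have hlam0 : 0 ≤ lam := by rw [hlam]; positivity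
  have hlam1 : lam ≤ 2 * s * ((d : ℝ) + 1) / r := by
    rw [hlam, div_div_eq_mul_div, hs]
    exact div_le_div_of_nonneg_right (num1_a h1 h2 hd0) hrpos.le
  have hlam24 : lam ^ 24 ≤ (4 * s) ^ 24 * (D : ℝ) ^ 3 / (r : ℝ) ^ 24 := by
    calc lam ^ 24 ≤ (2 * s * ((d : ℝ) + 1) / r) ^ 24 := pow_le_pow_left₀ hlam0 hlam1 24
      _ = (2 * s) ^ 24 * ((d : ℝ) + 1) ^ 24 / (r : ℝ) ^ 24 := by
          rw [div_pow, mul_pow]
      _ ≤ (2 * s) ^ 24 * (2 ^ 24 * (D : ℝ) ^ 3) / (r : ℝ) ^ 24 := by gcongr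
      _ = (4 * s) ^ 24 * (D : ℝ) ^ 3 / (r : ℝ) ^ 24 := by
          congr 1
          rw [← mul_assoc, ← mul_pow]
          congr 2
          ring
  have hfirst : lam ^ 24 * (D : ℝ) ^ 6 ≤ 1 / 2 := by
    have h3 : (D : ℝ) ^ 9 ≤ (a * (r : ℝ) ^ 2) ^ 9 := pow_le_pow_left₀ (by linarith) hDr 9
    calc lam ^ 24 * (D : ℝ) ^ 6 ≤ (4 * s) ^ 24 * (D : ℝ) ^ 3 / (r : ℝ) ^ 24 * (D : ℝ) ^ 6 := by
          gcongr
      _ = (4 * s) ^ 24 * (D : ℝ) ^ 9 / (r : ℝ) ^ 24 := by ring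
      _ ≤ (4 * s) ^ 24 * (a * (r : ℝ) ^ 2) ^ 9 / (r : ℝ) ^ 24 := by gcongr
      _ = K2 / (r : ℝ) ^ 6 := by
          rw [hK2]
          have h4 : (r : ℝ) ^ 24 = (r : ℝ) ^ 18 * (r : ℝ) ^ 6 := by ring
          have h5 : (4 * s) ^ 24 * (a * (r : ℝ) ^ 2) ^ 9 =
              (r : ℝ) ^ 18 * ((4 * s) ^ 24 * a ^ 9) := by
            rw [mul_pow a, ← pow_mul]
            ring
          rw [h4, h5, mul_div_mul_left _ _ (by positivity)]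
      _ ≤ 1 / 2 := by
          rw [div_le_iff₀ (by positivity)]
          have h4 : (r : ℝ) ≤ (r : ℝ) ^ 6 := by
            calc (r : ℝ) = (r : ℝ) ^ 1 := (pow_one _).symm
              _ ≤ (r : ℝ) ^ 6 := pow_le_pow_right₀ (by linarith) (by norm_num)
          linarith
  have hsum0 : 0 ≤ (d : ℝ) * D * k + lam := by positivity
  have hsum : (d : ℝ) * D * k + lam ≤ K3 * (D : ℝ) ^ 2 := by
    have h3 : (d : ℝ) * D * k ≤ k * (D : ℝ) ^ 2 := num1_b hk hdD hDD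
    have h4 : lam ≤ 4 * s * (D : ℝ) ^ 2 := by
      have h5 : 2 * s * ((d : ℝ) + 1) / r ≤ 2 * s * ((d : ℝ) + 1) := by
        apply div_le_self (by positivity) (by linarith)
      have h6 : 2 * s * ((d : ℝ) + 1) ≤ 4 * s * (D : ℝ) ^ 2 := by
        have h7 : (d : ℝ) + 1 ≤ 2 * (D : ℝ) ^ 2 := num1_c hdD hDD
        have h8 : 0 ≤ 2 * s := by positivity
        calc 2 * s * ((d : ℝ) + 1) ≤ 2 * s * (2 * (D : ℝ) ^ 2) := by gcongr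
          _ = _ := by ring
      exact hlam1.trans (h5.trans h6)
    rw [hK3, add_mul]
    exact add_le_add h3 h4
  have hsecond : 2 * 24 * ((d : ℝ) * D * k + lam) ^ 24 * (((r : ℝ) + 1) / 2 ^ r) * (D : ℝ) ^ 6 ≤
      1 / 2 := by
    have h3 : (D : ℝ) ^ 54 ≤ (a * (r : ℝ) ^ 2) ^ 54 := pow_le_pow_left₀ (by linarith) hDr 54
    calc 2 * 24 * ((d : ℝ) * D * k + lam) ^ 24 * (((r : ℝ) + 1) / 2 ^ r) * (D : ℝ) ^ 6
        ≤ 2 * 24 * (K3 * (D : ℝ) ^ 2) ^ 24 * ((2 * (r : ℝ)) / 2 ^ r) * (D : ℝ) ^ 6 := by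
          gcongr
          linarith
      _ = 48 * K3 ^ 24 * (D : ℝ) ^ 54 * ((2 * (r : ℝ)) / 2 ^ r) := by ring
      _ ≤ 48 * K3 ^ 24 * (a * (r : ℝ) ^ 2) ^ 54 * ((2 * (r : ℝ)) / 2 ^ r) := by gcongr
      _ = K4 * ((r : ℝ) ^ 109 / (2 : ℝ) ^ r) := by
          rw [hK4, mul_pow a, ← pow_mul]
          ring
      _ ≤ 1 / 2 := hexp
  calc (lam ^ 24 + 2 * 24 * ((d : ℝ) * D * k + lam) ^ 24 * (((r : ℝ) + 1) / 2 ^ r)) * (D : ℝ) ^ 6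
      = lam ^ 24 * (D : ℝ) ^ 6 +
        2 * 24 * ((d : ℝ) * D * k + lam) ^ 24 * (((r : ℝ) + 1) / 2 ^ r) * (D : ℝ) ^ 6 := by ring
    _ ≤ 1 / 2 + 1 / 2 := add_le_add hfirst hsecond
    _ = 1 := by norm_num

/-- PIECE N1 (numbers, first regime). `r = Nat.sqrt (D / (8 A))`, so `r + 1 > sqrt (D / (8 A)) - 1` and `r ≥ c sqrt D`. With `d ≤ D^(1/8)` (from `d^8 ≤ D`):
`lam ≤ C1 (d + 1) / r ≤ C2 D^(1/8 - 1/2)`, `lam^24 ≤ C3 D^(-9)`, so `lam^24 * D^6 ≤ C3 / D^3 ≤ 1/2`. The second term is at most polynomial in `D` times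
`(r + 1) / 2^r` (`d D 399^3 + lam ≤ C D^2`), which tends to zero. Hint: to avoid roots bound everything by `s = r + 1`: `D ≤ 8 A s^2 * 2`, `d^8 ≤ D`, and
`lam^24 = (C (d+1))^24 / r^24` with `d^24 = (d^8)^3 ≤ D^3`. -/
theorem num1 (A : ℕ) (hA : 1 ≤ A) : ∃ D0 : ℕ, ∀ D d : ℕ, D0 ≤ D → d ^ 8 ≤ D →
    ∀ r : ℕ, r = Nat.sqrt (D / (8 * A)) → ∀ lam : ℝ,
    lam = (4 / 3 * (399 : ℝ) ^ 3 * d + (4 * 24) ^ 2 * 1596 * 399 ^ 2) / ((r : ℝ) / 2) →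
    2 ≤ r ∧ (lam ^ 24 + 2 * 24 * ((d : ℝ) * D * 399 ^ 3 + lam) ^ 24 * (((r : ℝ) + 1) / 2 ^ r)) *
      (D : ℝ) ^ 6 ≤ 1 := by
  obtain ⟨R0, hR0⟩ := num1_aux (4 / 3 * (399 : ℝ) ^ 3) ((4 * 24) ^ 2 * 1596 * 399 ^ 2) (399 ^ 3)
    (32 * A) _ (by positivity) (by positivity) (by positivity) (by positivity) rfl
  refine ⟨8 * A * (R0 + 1) ^ 2, ?_⟩
  intro D d hD hd r hr lam hlam
  have hA8 : 0 < 8 * A := by omega
  have h1 : (R0 + 1) * (R0 + 1) ≤ D / (8 * A) := by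
    rw [Nat.le_div_iff_mul_le hA8]
    calc (R0 + 1) * (R0 + 1) * (8 * A) = 8 * A * (R0 + 1) ^ 2 := by ring
      _ ≤ D := hD
  have h2 : R0 + 1 ≤ r := by
    rw [hr]
    exact Nat.le_sqrt.mpr h1
  have h3 : D < 32 * A * r ^ 2 := by
    have h4 : D / (8 * A) < (r + 1) * (r + 1) := by
      rw [hr]
      exact Nat.lt_succ_sqrt _
    have h5 : D < (r + 1) * (r + 1) * (8 * A) := (Nat.div_lt_iff_lt_mul hA8).mp h4
    have h6 : (r + 1) * (r + 1) ≤ 4 * r ^ 2 := num1_d (by omega)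
    calc D < (r + 1) * (r + 1) * (8 * A) := h5
      _ ≤ 4 * r ^ 2 * (8 * A) := Nat.mul_le_mul_right _ h6
      _ = 32 * A * r ^ 2 := by ring
  have hD1 : 1 ≤ D := by
    have : 0 < 8 * A * (R0 + 1) ^ 2 := by positivity
    omega
  exact hR0 r (by omega) D d hD1 (by exact_mod_cast h3.le) hd lam hlam

end Pool.Agent.Helper25.CP
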