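import Pool.Agent.Helper25.CP.Base

namespace Pool.Agent.Helper25.CP

open Finset Pool.Agent.Helper4.PC

private theorem n2_pow : ∃ N : ℕ, ∀ L : ℕ, N ≤ L → L ^ 17 ≤ 2 ^ L := by
  have h := tendsto_pow_const_div_const_pow_of_one_lt 17 (r := (2 : ℝ)) (by norm_num)
  have h2 := h.eventually (gt_mem_nhds (zero_lt_one))
  obtain ⟨N, hN⟩ := Filter.eventually_atTop.mp h2
  refine ⟨N, fun L hL => ?_⟩
  have h3 := hN L hL
  rw [div_lt_one (by positivity)] at h3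
  exact_mod_cast h3.le

private theorem n2_J (C2 n s : ℕ) (h1 : 1 ≤ C2) (h2 : 1 ≤ s) (h3 : n ≤ s) :
    4 * n + 1 ≤ (4 * C2 + 4) * s := by
  have h4 : 1 * 1 ≤ C2 * s := Nat.mul_le_mul h1 h2
  have h5 : (4 * C2 + 4) * s = 4 * (C2 * s) + 4 * s := by ring
  omega

private theorem n2_sq {D : ℝ} (h : 4 ≤ D) : 2 ≤ D ^ 2 := by nlinarith

private theorem n2_sD {s D : ℝ} (h : s ≤ D) (h4 : 4 ≤ D) : s ≤ D * D := by nlinarith

private theorem n2_L (L r : ℕ) (h : 16 * L ^ 2 + 9 * L ≤ r) :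
    L * (3 * (4 * L) + 9) ≤ r := by nlinarith

private theorem n2_T1 (lam X D : ℝ) (n : ℕ) (h0 : 0 ≤ lam) (h1 : 4 * lam ≤ X) (hD : 4 ≤ D)
    (h4n : D ^ 8 ≤ 4 ^ n) : lam ^ n * D ^ 6 ≤ X ^ n / 2 := by
  have hX : 0 ≤ X := by linarith
  have h1 : lam ^ n ≤ X ^ n / 4 ^ n := by
    rw [← div_pow]
    gcongr
    linarith
  have h2 : 2 * D ^ 6 ≤ 4 ^ n := by
    refine le_trans ?_ h4n
    have : 2 ≤ D ^ 2 := n2_sq hD
    calc 2 * D ^ 6 ≤ D ^ 2 * D ^ 6 := by gcongr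
      _ = D ^ 8 := by ring
  calc lam ^ n * D ^ 6 ≤ X ^ n / 4 ^ n * D ^ 6 := by gcongr
    _ = X ^ n * (2 * D ^ 6) / (2 * 4 ^ n) := by field_simp
    _ ≤ X ^ n * 4 ^ n / (2 * 4 ^ n) := by gcongr
    _ = X ^ n / 2 := by field_simp

private theorem n2_Y (c C2 d s D lam : ℝ) (hd0 : 0 ≤ d) (hc : 0 ≤ c) (hC : 0 ≤ C2) (h1 : d ≤ D)
    (h2 : s ≤ D) (h3 : c + C2 ≤ D) (hD4 : 4 ≤ D) (hlam : lam ≤ C2 * s) :
    d * D * c + lam ≤ D ^ 3 := by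
  have e1 := n2_sD h2 hD4
  calc d * D * c + lam ≤ D * D * c + C2 * s := by gcongr
    _ ≤ D * D * c + C2 * (D * D) := by gcongr
    _ = (D * D) * (c + C2) := by ring
    _ ≤ (D * D) * D := by gcongr
    _ = D ^ 3 := by ring

private theorem n2_T2 (Y : ℝ) (r : ℕ) (D : ℝ) (n L : ℕ) (hY0 : 0 ≤ Y) (hY : Y ≤ D ^ 3)
    (hr : (r : ℝ) + 1 ≤ D) (hn : (n : ℝ) ≤ D) (hD : 4 ≤ D) (hL : D ≤ 2 ^ L)
    (hr2 : L * (3 * n + 9) ≤ r) :
    2 * n * Y ^ n * (((r : ℝ) + 1) / 2 ^ r) * D ^ 6 ≤ 1 / 2 := by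
  have h1 : 4 * n * Y ^ n * ((r : ℝ) + 1) * D ^ 6 ≤ 2 ^ r := by
    calc 4 * n * Y ^ n * ((r : ℝ) + 1) * D ^ 6 ≤ D * D * (D ^ 3) ^ n * D * D ^ 6 := by gcongr
      _ = D ^ (3 * n + 9) := by
        rw [← pow_mul]
        ring
      _ ≤ (2 ^ L) ^ (3 * n + 9) := by gcongr
      _ = 2 ^ (L * (3 * n + 9)) := by rw [pow_mul]
      _ ≤ 2 ^ r := pow_le_pow_right₀ (by norm_num) hr2
  calc 2 * n * Y ^ n * (((r : ℝ) + 1) / 2 ^ r) * D ^ 6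
      = (4 * n * Y ^ n * ((r : ℝ) + 1) * D ^ 6) / (2 * 2 ^ r) := by
        field_simp
        ring
    _ ≤ 2 ^ r / (2 * 2 ^ r) := by gcongr
    _ = 1 / 2 := by field_simp

private theorem n2_X (C2 s n lam : ℝ) (h1 : lam ≤ C2 * s) (h2 : n ≤ s) :
    4 * lam ≤ (4 * C2 + 4) * s - 4 * n := by
  nlinarith

private theorem n2_ev (A : ℕ) : ∃ L0 : ℕ, ∀ L : ℕ, L0 ≤ L → 1 ≤ L ∧
    8 * A * (16 * L ^ 2 + 9 * L) ^ 2 ≤ 2 ^ (L - 1) ∧ (4 * L) ^ 16 ≤ 2 ^ (L - 1) := by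
  obtain ⟨N, hN⟩ := n2_pow
  refine ⟨N + 2 * 4 ^ 16 + 10000 * A, fun L hL => ?_⟩
  have h1 : 1 ≤ L := by
    have : (1 : ℕ) ≤ 2 * 4 ^ 16 := by norm_num
    omega
  have h2 : L ^ 17 ≤ 2 ^ L := hN L (by omega)
  have h3 : 2 ^ L = 2 * 2 ^ (L - 1) := by
    rw [← pow_succ']
    congr 1
    omega
  have h4 : 2 * 4 ^ 16 ≤ L := by omega
  have h5 : 10000 * A ≤ L := by omega
  refine ⟨h1, ?_, ?_⟩
  · have e1 : 16 * L ^ 2 + 9 * L ≤ 25 * L ^ 2 := by nlinarith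
    have e2 : 2 * (8 * A * (16 * L ^ 2 + 9 * L) ^ 2) ≤ L ^ 17 := by
      calc 2 * (8 * A * (16 * L ^ 2 + 9 * L) ^ 2) ≤ 2 * (8 * A * (25 * L ^ 2) ^ 2) := by gcongr
        _ = (10000 * A) * L ^ 4 := by ring
        _ ≤ L * L ^ 4 := by gcongr
        _ = L ^ 5 := by ring
        _ ≤ L ^ 17 := Nat.pow_le_pow_right h1 (by norm_num)
    omega
  · have e2 : 2 * (4 * L) ^ 16 ≤ L ^ 17 := by
      calc 2 * (4 * L) ^ 16 = (2 * 4 ^ 16) * L ^ 16 := by ring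
        _ ≤ L * L ^ 16 := by gcongr
        _ = L ^ 17 := by ring
    omega

/-- PIECE N2 (numbers, second regime). `r = Nat.sqrt (D / (8 A))`, `n = 4 (Nat.log 2 D + 1)`, so `4^(-n) ≤ 2^(-8 (log2 D + 1)) ≤ D^(-8)`. As `d ≤ D` and
`D ≤ d^8`: `lam ≤ C1 d / sqrt D + C1 n^2 / sqrt D ≤ C2 sqrt d` (`sqrt d ≤ 2 Nat.sqrt d`), with `C2` depending on `A` only. Take `CJ = 4 C2 + 1` or
larger, such that `CJ * Nat.sqrt d - 4 n ≥ 4 lam + 4` and `≥ 1` (`Nat.sqrt d ≥ D^(1/16) / 2` is larger than `4 n` for large `D`). Then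
`lam^n * D^6 ≤ (J - 4n)^n 4^(-n) D^6 ≤ 1/2 (J - 4n)^n`. The other term: `2 n (C D^2)^n (r+1) / 2^r D^6 ≤ 1/2` for large `D` (`n` is of order
`log D`, so `(C D^2)^n ≤ 2^(c (log2 D)^2)`, while `r ≥ c sqrt D`). -/
theorem num2 (A : ℕ) (hA : 1 ≤ A) : ∃ CJ D0 : ℕ, ∀ D d : ℕ, D0 ≤ D → d ≤ D → D ≤ d ^ 8 →
    ∀ r n : ℕ, r = Nat.sqrt (D / (8 * A)) → n = 4 * (Nat.log 2 D + 1) → ∀ lam : ℝ,
    lam = (4 / 3 * (399 : ℝ) ^ 3 * d + (4 * n) ^ 2 * 1596 * 399 ^ 2) / ((r : ℝ) / 2) →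
    2 ≤ r ∧ 4 * n + 1 ≤ CJ * Nat.sqrt d ∧
    (lam ^ n + 2 * n * ((d : ℝ) * D * 399 ^ 3 + lam) ^ n * (((r : ℝ) + 1) / 2 ^ r)) *
      (D : ℝ) ^ 6 ≤ (((CJ * Nat.sqrt d : ℕ) : ℝ) - 4 * n) ^ n := by
  obtain ⟨L0, hL0⟩ := n2_ev A
  obtain ⟨C2, hC2⟩ : ∃ C2 : ℕ, C2 = 32 * 399 ^ 3 * A + 32 * 1596 * 399 ^ 2 := ⟨_, rfl⟩
  refine ⟨4 * C2 + 4, 2 ^ L0 + (399 ^ 3 + C2 + 4), ?_⟩
  intro D d hD0 hdD hDd r n hr hn lam hlam
  obtain ⟨L, hL⟩ : ∃ L : ℕ, L = Nat.log 2 D + 1 := ⟨_, rfl⟩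
  obtain ⟨s, hs⟩ : ∃ s : ℕ, s = Nat.sqrt d := ⟨_, rfl⟩
  rw [← hL] at hn
  rw [← hs]
  have hD0a : 2 ^ L0 ≤ D := le_trans (Nat.le_add_right _ _) hD0
  have hD0b : 399 ^ 3 + C2 + 4 ≤ D := le_trans (Nat.le_add_left _ _) hD0
  clear hD0
  have hDpos : D ≠ 0 := by omega
  have hpL : 2 ^ (L - 1) ≤ D := by
    rw [hL, Nat.add_sub_cancel]
    exact Nat.pow_log_le_self 2 hDpos
  have hpL2 : D < 2 ^ L := by
    rw [hL]
    exact Nat.lt_pow_succ_log_self (by norm_num) D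
  have hLL : L0 ≤ L := by
    have : L0 ≤ Nat.log 2 D := Nat.le_log_of_pow_le (by norm_num) hD0a
    omega
  obtain ⟨h1L, hA1, hA2⟩ := hL0 L hLL
  -- `r`
  have hr1 : D < (r + 1) * (r + 1) * (8 * A) := by
    have h := Nat.lt_succ_sqrt (D / (8 * A))
    rw [← hr] at h
    exact (Nat.div_lt_iff_lt_mul (by omega)).mp h
  have hR : 16 * L ^ 2 + 9 * L ≤ r := by
    by_contra hcon
    have h1 : r + 1 ≤ 16 * L ^ 2 + 9 * L := by omega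
    have h2 : (r + 1) * (r + 1) * (8 * A) ≤ 8 * A * (16 * L ^ 2 + 9 * L) ^ 2 := by
      calc (r + 1) * (r + 1) * (8 * A) ≤
          (16 * L ^ 2 + 9 * L) * (16 * L ^ 2 + 9 * L) * (8 * A) := by gcongr
        _ = _ := by ring
    omega
  have hr2 : 2 ≤ r := by nlinarith
  -- `s`
  have hs1 : d < (s + 1) * (s + 1) := by
    rw [hs]
    exact Nat.lt_succ_sqrt d
  have hs2 : 4 * L ≤ s := by
    by_contra hcon
    have h1 : s + 1 ≤ 4 * L := by omega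
    have h2 : d ^ 8 < ((s + 1) * (s + 1)) ^ 8 := Nat.pow_lt_pow_left hs1 (by norm_num)
    have h3 : ((s + 1) * (s + 1)) ^ 8 ≤ (4 * L) ^ 16 := by
      calc ((s + 1) * (s + 1)) ^ 8 = (s + 1) ^ 16 := by ring
        _ ≤ (4 * L) ^ 16 := by gcongr
    omega
  have hsd : s ≤ d := by
    rw [hs]
    exact Nat.sqrt_le_self d
  have hr3 : D ≤ 32 * A * (r * r) := by
    have h1 : (r + 1) * (r + 1) ≤ (2 * r) * (2 * r) := by gcongr <;> omega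
    calc D ≤ (r + 1) * (r + 1) * (8 * A) := hr1.le
      _ ≤ (2 * r) * (2 * r) * (8 * A) := by gcongr
      _ = _ := by ring
  have hs3 : d ≤ 4 * (s * s) := by
    have h1 : (s + 1) * (s + 1) ≤ (2 * s) * (2 * s) := by gcongr <;> omega
    calc d ≤ (s + 1) * (s + 1) := hs1.le
      _ ≤ (2 * s) * (2 * s) := h1
      _ = _ := by ring
  have hd1 : d ≤ 12 * A * (s * r) := by
    have h1 : d * d ≤ (12 * A * (s * r)) * (12 * A * (s * r)) := by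
      calc d * d ≤ d * D := by gcongr
        _ ≤ (4 * (s * s)) * (32 * A * (r * r)) := by gcongr
        _ = (128 * A) * ((s * r) * (s * r)) := by ring
        _ ≤ (144 * (A * A)) * ((s * r) * (s * r)) := by
          apply Nat.mul_le_mul_right
          nlinarith
        _ = _ := by ring
    exact Nat.mul_self_le_mul_self_iff.mp h1
  have hrD : r + 1 ≤ D := by
    have h1 : r ≤ D / (8 * A) := by
      rw [hr]
      exact Nat.sqrt_le_self _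
    have h2 : D / (8 * A) ≤ D / 8 := Nat.div_le_div_left (by omega) (by norm_num)
    omega
  have hnD : n ≤ D := by omega
  have hns : n ≤ s := by omega
  have hnr : n * n ≤ r := by
    rw [hn]
    nlinarith
  -- real numbers
  have hrR : (0 : ℝ) < r := by
    have : 0 < r := by omega
    exact_mod_cast this
  have hs1R : (1 : ℝ) ≤ s := by
    have : 1 ≤ s := by omega
    exact_mod_cast this
  have hd1R : (d : ℝ) ≤ 12 * A * (s * r) := by exact_mod_cast hd1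
  have hnrR : (n : ℝ) * n ≤ r := by exact_mod_cast hnr
  have hC2R : (C2 : ℝ) = 32 * 399 ^ 3 * A + 32 * 1596 * 399 ^ 2 := by
    rw [hC2]
    push_cast
    ring
  have hlam0 : 0 ≤ lam := by
    rw [hlam]
    positivity
  have hlam1 : lam ≤ C2 * s := by
    rw [hlam, div_le_iff₀ (by positivity), hC2R]
    have h1 : (n : ℝ) * n ≤ s * r := by nlinarith
    have h2 : 4 / 3 * (399 : ℝ) ^ 3 * d ≤ 4 / 3 * (399 : ℝ) ^ 3 * (12 * A * (s * r)) := by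
      gcongr
    have h3 : (4 * (n : ℝ)) ^ 2 * 1596 * 399 ^ 2 ≤ 16 * (s * r) * 1596 * 399 ^ 2 := by
      have : (4 * (n : ℝ)) ^ 2 = 16 * (n * n) := by ring
      rw [this]
      gcongr
    calc 4 / 3 * (399 : ℝ) ^ 3 * d + (4 * n) ^ 2 * 1596 * 399 ^ 2
        ≤ 4 / 3 * (399 : ℝ) ^ 3 * (12 * A * (s * r)) + 16 * (s * r) * 1596 * 399 ^ 2 :=
          add_le_add h2 h3
      _ = _ := by ring
  have hC21 : 1 ≤ C2 := by
    rw [hC2]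
    have : 1 ≤ 32 * 1596 * 399 ^ 2 := by norm_num
    omega
  have hJ : 4 * n + 1 ≤ (4 * C2 + 4) * s := n2_J C2 n s hC21 (by omega) hns
  refine ⟨hr2, hJ, ?_⟩
  obtain ⟨X, hX⟩ : ∃ X : ℝ, X = (((4 * C2 + 4) * s : ℕ) : ℝ) - 4 * n := ⟨_, rfl⟩
  rw [← hX]
  have hX1 : 1 ≤ X := by
    have : ((4 * n + 1 : ℕ) : ℝ) ≤ (((4 * C2 + 4) * s : ℕ) : ℝ) := by exact_mod_cast hJ
    rw [hX]
    push_cast at this ⊢
    linarith
  have hX4 : 4 * lam ≤ X := by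
    have : (n : ℝ) ≤ s := by exact_mod_cast hns
    rw [hX]
    push_cast
    exact n2_X C2 s n lam hlam1 this
  have hX0 : 0 < X := by linarith
  have hXn : 1 ≤ X ^ n := one_le_pow₀ hX1
  have hD4 : (4 : ℝ) ≤ D := by
    have : 4 ≤ D := by omega
    exact_mod_cast this
  have h4n : (D : ℝ) ^ 8 ≤ 4 ^ n := by
    have h1 : (D : ℝ) ≤ 2 ^ L := by exact_mod_cast hpL2.le
    calc (D : ℝ) ^ 8 ≤ (2 ^ L) ^ 8 := by gcongr
      _ = 4 ^ n := by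
        rw [hn, show (4 : ℝ) = 2 ^ 2 by norm_num, ← pow_mul, ← pow_mul]
        congr 1
        ring
  have T1 : lam ^ n * (D : ℝ) ^ 6 ≤ X ^ n / 2 := n2_T1 lam X D n hlam0 hX4 hD4 h4n
  have hDLR : (D : ℝ) ≤ 2 ^ L := by exact_mod_cast hpL2.le
  have T2 : 2 * n * ((d : ℝ) * D * 399 ^ 3 + lam) ^ n * (((r : ℝ) + 1) / 2 ^ r) *
      (D : ℝ) ^ 6 ≤ X ^ n / 2 := by
    have h1 : (d : ℝ) ≤ D := by exact_mod_cast hdD
    have h2 : (s : ℝ) ≤ D := by exact_mod_cast hsd.trans hdD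
    have h3 : (399 : ℝ) ^ 3 + C2 ≤ D := by
      have : 399 ^ 3 + C2 ≤ D := by omega
      exact_mod_cast this
    have hY0 : 0 ≤ (d : ℝ) * D * 399 ^ 3 + lam := by positivity
    have hY := n2_Y (399 ^ 3) C2 d s D lam (Nat.cast_nonneg d) (by positivity) (Nat.cast_nonneg C2)
      h1 h2 h3 hD4 hlam1
    refine (n2_T2 _ r D n L hY0 hY (by exact_mod_cast hrD) (by exact_mod_cast hnD) hD4 hDLR ?_).trans
      (by linarith)
    rw [hn]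
    exact n2_L L r hR
  calc (lam ^ n + 2 * n * ((d : ℝ) * D * 399 ^ 3 + lam) ^ n * (((r : ℝ) + 1) / 2 ^ r)) *
      (D : ℝ) ^ 6 = lam ^ n * (D : ℝ) ^ 6 +
        2 * n * ((d : ℝ) * D * 399 ^ 3 + lam) ^ n * (((r : ℝ) + 1) / 2 ^ r) * (D : ℝ) ^ 6 := by
        ring
    _ ≤ X ^ n / 2 + X ^ n / 2 := add_le_add T1 T2
    _ = X ^ n := by ring

end Pool.Agent.Helper25.CP
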