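import Pool.Agent.Helper25.CP.Base
import Pool.Agent.Helper4.PC.St.RO

namespace Pool.Agent.Helper25.CP

open Finset Pool.Agent.Helper4.PC

variable {V C : Type} [Fintype V] [DecidableEq V] [DecidableEq C]

open Classical in
/-- the partial colourings for which all vertices of `S` are good -/
private noncomputable def rgOmS (H : V → Finset V) (L : V → Finset C)
    (good : V → (V → Option C) → Prop) (S : Finset V) : Finset (V → Option C) :=
  (Om H L).filter fun φ => ∀ x ∈ S, good x φ

open Classical in
private theorem rg_mem {H : V → Finset V} {L : V → Finset C} {good : V → (V → Option C) → Prop}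
    {S : Finset V} {φ : V → Option C} :
    φ ∈ rgOmS H L good S ↔ φ ∈ Om H L ∧ ∀ x ∈ S, good x φ := by
  unfold rgOmS
  rw [mem_filter]

open Classical in
/-- PIECE RG (Rosenfeld counting, general form). Copy the proof of `Pool.Agent.Helper4.PC.rosenfeld` (file Helper4/PC/St/RO.lean) with `good x φ` in place of
`#(Bl N φ x) < #(Uq N φ x)`, constant `p x = p`, `B4 v = W.filter (¬ Disjoint (dp x) (bl v))`, `ball v = ↑(bl v)`; `hdep` replaces
`Bl_congr`, `Uq_congr` (for `x ∉ B4 v` the set `dp x` is disjoint from `bl v`). -/
theorem rosen {H : V → Finset V} {L : V → Finset C} (W : Finset V)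
    (good : V → (V → Option C) → Prop) (dp bl : V → Finset V)
    (hdep : ∀ v ∈ W, ∀ φ ψ : V → Option C, (∀ y ∈ dp v, ψ y = φ y) → good v φ → good v ψ)
    (p : ℝ) (hp0 : 0 ≤ p) (hp1 : p ≤ 1 / 4)
    (hcount : ∀ v ∈ W, (#(W.filter fun x => ¬ Disjoint (dp x) (bl v)) : ℝ) * p ≤ 1 / 4)
    (hloc : ∀ v ∈ W, ∀ F : Finset (V → Option C), Clo H L (↑(bl v)) F →
      (#(F.filter fun φ => ¬ good v φ) : ℝ) ≤ p / 2 * #F) :
    ∃ φ ∈ Om H L, ∀ v ∈ W, good v φ := by
  -- the main claim
  have main : ∀ n : ℕ, ∀ S : Finset V, S ⊆ W → #S = n → ∀ v ∈ W, v ∉ S →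
      (1 - p) * (#(rgOmS H L good S) : ℝ) ≤ #(rgOmS H L good (insert v S)) := by
    intro n
    induction n using Nat.strong_induction_on with
    | _ n ih =>
      intro S hSW hSn v hv hvS
      set S' := S.filter (fun x => Disjoint (dp x) (bl v)) with hS'
      set T := S.filter (fun x => ¬ Disjoint (dp x) (bl v)) with hT
      have hclo : Clo H L (↑(bl v)) (rgOmS H L good S') := by
        refine ⟨filter_subset _ _, fun φ hφ ψ hψ h => ?_⟩
        rw [rg_mem] at hφ ⊢
        refine ⟨hψ, fun x hx => ?_⟩
        have hx' : Disjoint (dp x) (bl v) := (mem_filter.mp hx).2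
        have hxW : x ∈ W := hSW (mem_filter.mp hx).1
        refine hdep x hxW φ ψ (fun y hy => h y ?_) (hφ.2 x hx)
        rw [mem_coe]
        exact fun hy' => (disjoint_left.mp hx') hy hy'
      have hbad := hloc v hv _ hclo
      -- adding the elements of T
      have chain : ∀ A : Finset V, A ⊆ T →
          (1 - (#A : ℝ) * p) * (#(rgOmS H L good S') : ℝ) ≤ #(rgOmS H L good (S' ∪ A)) := by
        intro A
        induction A using Finset.induction_on with
        | empty =>
          intro _
          simp
        | insert a A ha ihA =>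
          intro hA
          have hA' : A ⊆ T := (subset_insert a A).trans hA
          have h1 := ihA hA'
          have haT : a ∈ T := hA (mem_insert_self a A)
          have haS : a ∈ S := (mem_filter.mp haT).1
          have haS' : a ∉ S' ∪ A := by
            rw [mem_union]
            rintro (h | h)
            · exact (mem_filter.mp haT).2 (mem_filter.mp h).2
            · exact ha h
          have hsub : insert a (S' ∪ A) ⊆ S := by
            refine insert_subset haS (union_subset (filter_subset _ _) (hA'.trans (filter_subset _ _)))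
          have hcard : #(S' ∪ A) < n := by
            have := card_le_card hsub
            rw [card_insert_of_notMem haS'] at this
            omega
          have h2 := ih _ hcard (S' ∪ A) (((subset_insert _ _).trans hsub).trans hSW) rfl a
            (hSW haS) haS'
          rw [union_insert, card_insert_of_notMem ha]
          have h3 : 0 ≤ 1 - p := by linarith
          have h4 : (1 - p) * ((1 - (#A : ℝ) * p) * (#(rgOmS H L good S') : ℝ)) ≤
              #(rgOmS H L good (insert a (S' ∪ A))) :=
            (mul_le_mul_of_nonneg_left h1 h3).trans h2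
          have h5 : 0 ≤ (#A : ℝ) * p := mul_nonneg (Nat.cast_nonneg _) hp0
          have h6 : (0 : ℝ) ≤ #(rgOmS H L good S') := Nat.cast_nonneg _
          have h7 : (1 - ((#A + 1 : ℕ) : ℝ) * p) * (#(rgOmS H L good S') : ℝ) ≤
              (1 - p) * ((1 - (#A : ℝ) * p) * (#(rgOmS H L good S') : ℝ)) := by
            have : 0 ≤ p * ((#A : ℝ) * p) * (#(rgOmS H L good S') : ℝ) :=
              mul_nonneg (mul_nonneg hp0 h5) h6
            push_cast
            nlinarith
          exact h7.trans h4
      have hST : S' ∪ T = S := by
        ext x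
        simp only [hS', hT, mem_union, mem_filter]
        tauto
      have h1 := chain T Subset.rfl
      rw [hST] at h1
      have hTs : (#T : ℝ) * p ≤ 1 / 4 := by
        refine le_trans ?_ (hcount v hv)
        refine mul_le_mul_of_nonneg_right ?_ hp0
        have : T ⊆ W.filter fun x => ¬ Disjoint (dp x) (bl v) := by
          intro x hx
          have hx' := mem_filter.mp hx
          exact mem_filter.mpr ⟨hSW hx'.1, hx'.2⟩
        exact_mod_cast card_le_card this
      have h6 : (0 : ℝ) ≤ #(rgOmS H L good S') := Nat.cast_nonneg _
      have h2 : 3 / 4 * (#(rgOmS H L good S') : ℝ) ≤ #(rgOmS H L good S) := by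
        refine le_trans ?_ h1
        exact mul_le_mul_of_nonneg_right (by linarith) h6
      -- split
      have h3 : (#(rgOmS H L good S) : ℝ) ≤ #(rgOmS H L good (insert v S)) +
          #((rgOmS H L good S').filter fun φ => ¬ good v φ) := by
        have hsub : rgOmS H L good S ⊆ rgOmS H L good (insert v S) ∪
            ((rgOmS H L good S').filter fun φ => ¬ good v φ) := by
          intro φ hφ
          rw [rg_mem] at hφ
          rw [mem_union]
          by_cases hc : good v φ
          · left
            rw [rg_mem]
            refine ⟨hφ.1, fun x hx => ?_⟩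
            rcases mem_insert.mp hx with h | h
            · rw [h]; exact hc
            · exact hφ.2 x h
          · right
            rw [mem_filter, rg_mem]
            exact ⟨⟨hφ.1, fun x hx => hφ.2 x (mem_filter.mp hx).1⟩, hc⟩
        have := (card_le_card hsub).trans (card_union_le _ _)
        exact_mod_cast this
      have h4 : p / 2 * (#(rgOmS H L good S') : ℝ) ≤ p * #(rgOmS H L good S) := by
        have h5 : (0 : ℝ) ≤ #(rgOmS H L good S) := Nat.cast_nonneg _
        have h7 := mul_le_mul_of_nonneg_left h2 hp0
        have h8 : 0 ≤ p * (#(rgOmS H L good S') : ℝ) := mul_nonneg hp0 h6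
        nlinarith
      linarith
  -- positivity
  have pos : ∀ S : Finset V, S ⊆ W → 0 < (#(rgOmS H L good S) : ℝ) := by
    intro S
    induction S using Finset.induction_on with
    | empty =>
      intro _
      have : (fun _ => none : V → Option C) ∈ rgOmS H L good ∅ := by
        rw [rg_mem]
        refine ⟨?_, by simp⟩
        rw [mem_Om]
        exact ⟨fun v c h => by simp at h, fun v u _ _ => rfl⟩
      have := card_pos.mpr ⟨_, this⟩
      exact_mod_cast this
    | insert a S ha ihS =>
      intro h
      have h1 := ihS ((subset_insert a S).trans h)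
      have h2 := main _ S ((subset_insert a S).trans h) rfl a (h (mem_insert_self a S)) ha
      have h3 : 0 < 1 - p := by linarith
      exact lt_of_lt_of_le (mul_pos h3 h1) h2
  have hW := pos W Subset.rfl
  have hW' : 0 < #(rgOmS H L good W) := by exact_mod_cast hW
  obtain ⟨φ, hφ⟩ := card_pos.mp hW'
  rw [rg_mem] at hφ
  exact ⟨φ, hφ.1, hφ.2⟩

end Pool.Agent.Helper25.CP
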