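import Pool.Agent.Helper25.CP.Def

namespace Pool.Agent.Helper25.CP

open Finset Pool.Agent.Helper4.PC

variable {V C : Type} [Fintype V] [DecidableEq V] [DecidableEq C]

/-- the invariant at `u` -/
private def sInv (N : V → Finset V) (ψ : V → Option C) (u : V) : Prop :=
  UQ N ψ u ∨ ((∀ w ∈ N u, #(N w) < 400 → ψ w = none) ∧ #(NB N u) < 400 ∧
    ∃ w ∈ N u, #(N w) < 400)

open Classical in
/-- the colours forbidden for `y` because of `u` -/
private noncomputable def sForb (N : V → Finset V) (ψ : V → Option C) (u : V) : Finset C :=
  if h : UQ N ψ u then (ψ h.choose).toFinset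
  else (NB N u).biUnion fun w => (ψ w).toFinset

private theorem card_toFinset_le (o : Option C) : #(o.toFinset) ≤ 1 := by
  cases o <;> simp

private theorem card_sForb_le {N : V → Finset V} {ψ : V → Option C} {u : V}
    (h : sInv N ψ u) : #(sForb N ψ u) ≤ 399 := by
  unfold sForb
  split_ifs with hu
  · exact (card_toFinset_le _).trans (by norm_num)
  · rcases h with h | h
    · exact absurd h hu
    · refine card_biUnion_le.trans ((sum_le_sum fun w _ => card_toFinset_le (ψ w)).trans ?_)
      rw [sum_const, smul_eq_mul, mul_one]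
      omega

private theorem s_start {N : V → Finset V} {χ : V → Option C}
    (h0 : ∀ x, χ x = none ↔ #(N x) < 400) (hS : ∀ v ∈ SS N, 1 ≤ #(N v) → UQ N χ v)
    (hW : ∀ u, 400 ≤ #(NB N u) → UQ N χ u) (u : V) (hu : (N u).Nonempty) : sInv N χ u := by
  by_cases h1 : 400 ≤ #(NB N u)
  · exact Or.inl (hW u h1)
  · by_cases h2 : ∃ w ∈ N u, #(N w) < 400
    · exact Or.inr ⟨fun w _ hw => (h0 w).2 hw, by omega, h2⟩
    · push Not at h2
      left
      apply hS u _ (card_pos.mpr hu)
      have h3 : NB N u = N u := by
        unfold NB
        rw [filter_eq_self]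
        exact h2
      rw [h3] at h1
      unfold SS
      rw [mem_filter]
      exact ⟨mem_univ _, by omega, h2⟩

private theorem s_step {N : V → Finset V} {L : V → Finset C} (hG : Gr N)
    (hL : ∀ x, #(N x) < 400 → 160000 ≤ #(L x)) (ψ : V → Option C) (hψ : ψ ∈ Om N L)
    (hI : ∀ u, (N u).Nonempty → sInv N ψ u) (y : V) (hy : ψ y = none) (hys : #(N y) < 400) :
    ∃ a : C, Function.update ψ y (some a) ∈ Om N L ∧
      ∀ u, (N u).Nonempty → sInv N (Function.update ψ y (some a)) u := by
  classical
  set F : Finset C := ((N y).biUnion fun w => (ψ w).toFinset) ∪ (N y).biUnion (sForb N ψ) with hF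
  have hc1 : #((N y).biUnion fun w => (ψ w).toFinset) ≤ 399 := by
    refine card_biUnion_le.trans ((sum_le_sum fun w _ => card_toFinset_le (ψ w)).trans ?_)
    rw [sum_const, smul_eq_mul, mul_one]
    omega
  have hc2 : #((N y).biUnion (sForb N ψ)) ≤ 399 * 399 := by
    refine card_biUnion_le.trans ((sum_le_sum fun w hw => card_sForb_le
      (hI w ⟨y, hG.symm _ _ hw⟩)).trans ?_)
    rw [sum_const, smul_eq_mul]
    exact Nat.mul_le_mul_right _ (by omega)
  have hcF : #F < #(L y) := by
    refine lt_of_le_of_lt (card_union_le _ _) (lt_of_lt_of_le ?_ (hL y hys))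
    omega
  obtain ⟨a, haL, haF⟩ := exists_mem_notMem_of_card_lt_card hcF
  have ha1 : ∀ w ∈ N y, ψ w ≠ some a := by
    intro w hw h
    apply haF
    rw [hF, mem_union]
    left
    rw [mem_biUnion]
    exact ⟨w, hw, by rw [h]; simp⟩
  have ha2 : ∀ u ∈ N y, a ∉ sForb N ψ u := by
    intro u hu h
    apply haF
    rw [hF, mem_union]
    right
    rw [mem_biUnion]
    exact ⟨u, hu, h⟩
  refine ⟨a, Om_update_some hG hψ (mem_Av.mpr ⟨haL, ha1⟩), ?_⟩
  intro u hu
  by_cases huy : u ∈ N y
  · have hyu : y ∈ N u := hG.symm _ _ huy
    by_cases hU : UQ N ψ u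
    · left
      have hf := ha2 u huy
      unfold sForb at hf
      rw [dif_pos hU] at hf
      obtain ⟨hb1, hb2, hb3⟩ := hU.choose_spec
      set b := hU.choose with hb
      have hby : b ≠ y := by
        intro e
        rw [e] at hb2
        exact hb2 hy
      refine ⟨b, hb1, ?_, ?_⟩
      · rw [Function.update_of_ne hby]
        exact hb2
      · intro w hw hwb
        rw [Function.update_of_ne hby] at hwb
        by_cases hwy : w = y
        · rw [hwy, Function.update_self] at hwb
          exfalso
          apply hf
          rw [← hwb]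
          simp
        · rw [Function.update_of_ne hwy] at hwb
          exact hb3 w hw hwb
    · left
      have hf := ha2 u huy
      unfold sForb at hf
      rw [dif_neg hU] at hf
      rcases hI u hu with h | ⟨h1, h2, -⟩
      · exact absurd h hU
      · refine ⟨y, hyu, ?_, ?_⟩
        · rw [Function.update_self]
          simp
        · intro w hw hwy
          rw [Function.update_self] at hwy
          by_contra hne
          rw [Function.update_of_ne hne] at hwy
          apply hf
          rw [mem_biUnion]
          refine ⟨w, ?_, ?_⟩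
          · unfold NB
            rw [mem_filter]
            refine ⟨hw, ?_⟩
            by_contra hlt
            have := h1 w hw (by omega)
            rw [this] at hwy
            simp at hwy
          · rw [hwy]
            simp
  · have hyu : y ∉ N u := fun h => huy (hG.symm _ _ h)
    have hne : ∀ w ∈ N u, Function.update ψ y (some a) w = ψ w := by
      intro w hw
      apply Function.update_of_ne
      rintro rfl
      exact hyu hw
    rcases hI u hu with ⟨b, hb1, hb2, hb3⟩ | ⟨h1, h2, h3⟩
    · left
      refine ⟨b, hb1, ?_, ?_⟩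
      · rw [hne b hb1]
        exact hb2
      · intro w hw hwb
        rw [hne w hw, hne b hb1] at hwb
        exact hb3 w hw hwb
    · right
      refine ⟨fun w hw hws => ?_, h2, h3⟩
      rw [hne w hw]
      exact h1 w hw hws

private theorem s_main {N : V → Finset V} {L : V → Finset C} (hG : Gr N)
    (hL : ∀ x, #(N x) < 400 → 160000 ≤ #(L x)) (n : ℕ) : ∀ ψ : V → Option C, ψ ∈ Om N L →
      (∀ x, ψ x = none → #(N x) < 400) → (∀ u, (N u).Nonempty → sInv N ψ u) →
      #(univ.filter fun x => ψ x = none) = n →
      ∃ c : V → C, (∀ v, c v ∈ L v) ∧ (∀ v, ∀ u ∈ N v, c u ≠ c v) ∧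
        ∀ v, (N v).Nonempty → ∃ u ∈ N v, ∀ w ∈ N v, c w = c u → w = u := by
  induction n with
  | zero =>
    intro ψ hψ hb hI hn
    have hall : ∀ x, ψ x ≠ none := by
      intro x hx
      have : x ∈ univ.filter fun x => ψ x = none := mem_filter.mpr ⟨mem_univ _, hx⟩
      rw [card_eq_zero.mp hn] at this
      exact notMem_empty _ this
    have hc : ∀ x, ∃ c, ψ x = some c := fun x => Option.ne_none_iff_exists'.mp (hall x)
    choose c hc using hc
    rw [mem_Om] at hψ
    refine ⟨c, fun v => hψ.1 v (c v) (hc v), fun v u hu h => ?_, fun v hv => ?_⟩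
    · apply hall v
      apply hψ.2 v u hu
      rw [hc, hc, h]
    · rcases hI v hv with ⟨b, hb1, -, hb3⟩ | ⟨h1, -, w, hw, hws⟩
      · refine ⟨b, hb1, fun w hw h => hb3 w hw ?_⟩
        rw [hc, hc, h]
      · exact absurd (h1 w hw hws) (hall w)
  | succ n ih =>
    intro ψ hψ hb hI hn
    have hne : (univ.filter fun x => ψ x = none).Nonempty := card_pos.mp (by omega)
    obtain ⟨y, hy⟩ := hne
    have hy' : ψ y = none := (mem_filter.mp hy).2
    obtain ⟨a, ha1, ha2⟩ := s_step hG hL ψ hψ hI y hy' (hb y hy')
    apply ih (Function.update ψ y (some a)) ha1 _ ha2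
    · have : (univ.filter fun x => Function.update ψ y (some a) x = none) =
          (univ.filter fun x => ψ x = none).erase y := by
        ext x
        rw [mem_filter, mem_erase, mem_filter]
        by_cases hx : x = y
        · subst hx
          simp
        · rw [Function.update_of_ne hx]
          simp [hx]
      rw [this, card_erase_of_mem hy, hn]
      rfl
    · intro x hx
      by_cases hxy : x = y
      · subst hxy
        simp at hx
      · rw [Function.update_of_ne hxy] at hx
        exact hb x hx

/-- PIECE SM (colouring the small vertices at the end). Invariant for incomplete proper colourings `ψ` (`ψ ∈ Om N L`, all big vertices coloured):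
for every `u` with a neighbour: `UQ N ψ u`, or (no small neighbour of `u` is coloured, `#(NB N u) < 400` and `u` has a small neighbour). At the start:
if `400 ≤ #(NB N u)` use `hW`; otherwise if `u` is big it has a small neighbour (`#(NB N u) < 400 ≤ #(N u)`); if `u` is small and all its
neighbours are big it is in `SS N`, use `hS`; else it has a small neighbour. Induction on the number of blank (small) vertices: for blank `y` forbid:
the colours on `N y` (at most 399), for every `u ∈ N y` with `UQ N ψ u` the colour of its unique vertex, and for the other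
`u ∈ N y` all colours on `NB N u` (at most 399 each): at most `399 + 399 * 399 < 160000 ≤ #(L y)` colours. Colour `y` with an allowed `a ∈ L y`.
For `u ∈ N y` with `UQ` the unique vertex stays unique; for the others `y` is the only vertex of `N u` with colour `a` (the coloured vertices of `N u` lie in
`NB N u`). For `u` not in `N y` nothing changes. At the end all vertices are coloured, so `UQ` holds for all `u` with a neighbour. -/
theorem small_phase {N : V → Finset V} {L : V → Finset C} (hG : Gr N)
    (hL : ∀ x, #(N x) < 400 → 160000 ≤ #(L x)) (χ : V → Option C) (hχ : χ ∈ Om N L)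
    (h0 : ∀ x, χ x = none ↔ #(N x) < 400) (hS : ∀ v ∈ SS N, 1 ≤ #(N v) → UQ N χ v)
    (hW : ∀ u, 400 ≤ #(NB N u) → UQ N χ u) :
    ∃ c : V → C, (∀ v, c v ∈ L v) ∧ (∀ v, ∀ u ∈ N v, c u ≠ c v) ∧
      ∀ v, (N v).Nonempty → ∃ u ∈ N v, ∀ w ∈ N v, c w = c u → w = u :=
  s_main hG hL _ χ hχ (fun x hx => (h0 x).1 hx) (fun u hu => s_start h0 hS hW u hu) rfl

end Pool.Agent.Helper25.CP
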