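import Pool.Agent.Helper25.CP.VG1

namespace Pool.Agent.Helper25.CP

open Finset Pool.Agent.Helper4.PC

variable {V C : Type} [Fintype V] [DecidableEq V] [DecidableEq C]

private theorem un_tc {Q : Finset V} {P : V → Finset V} {T : Finset V} {φ : V → Option C} {w : V} :
    w ∈ Tc Q P T φ ↔ w ∈ T ∧ w ∈ Tc Q P univ φ := by
  unfold Tc
  rw [mem_filter, mem_filter]
  exact ⟨fun h => ⟨h.1, mem_univ _, h.2⟩, fun h => ⟨h.1, h.2.2⟩⟩

omit [Fintype V] in
private theorem un_four {s : Finset V} (h : 4 ≤ #s) : ∃ w ∈ s, ∃ a ∈ s, ∃ b ∈ s, ∃ c ∈ s,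
    a ≠ w ∧ b ≠ w ∧ c ≠ w ∧ b ≠ a ∧ c ≠ a ∧ c ≠ b := by
  obtain ⟨w, hw⟩ : s.Nonempty := card_pos.mp (by omega)
  have h1 : 3 ≤ #(s.erase w) := by rw [card_erase_of_mem hw]; omega
  obtain ⟨a, ha⟩ : (s.erase w).Nonempty := card_pos.mp (by omega)
  have h2 : 2 ≤ #((s.erase w).erase a) := by rw [card_erase_of_mem ha]; omega
  obtain ⟨b, hb⟩ : ((s.erase w).erase a).Nonempty := card_pos.mp (by omega)
  have h3 : 1 ≤ #(((s.erase w).erase a).erase b) := by rw [card_erase_of_mem hb]; omega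
  obtain ⟨c, hc⟩ : (((s.erase w).erase a).erase b).Nonempty := card_pos.mp (by omega)
  simp only [mem_erase] at ha hb hc
  exact ⟨w, hw, a, ha.2, b, hb.2.2, c, hc.2.2.2, ha.1, hb.2.1, hc.2.2.1, hb.1, hc.2.1, hc.1⟩

/-- PIECE UN (uncolouring the touched vertices). Put `ψ x = φ x` if `x` is big (`400 ≤ #(N x)`) and `x ∉ Tc (QS N) N univ φ`, otherwise
`ψ x = none`. (1) `ψ ∈ Om N L`: if `u ∈ N v` and both are big then `u ∈ VG N pr v` (`vg_adj`). (2) `Safe N ψ v` for `v ∈ SS N` with a
neighbour: suppose not `UQ N ψ v`, so every coloured `a ∈ N v` has a partner `a' ≠ a` in `N v` with `ψ a' = ψ a`.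
If `a`, `b` in `N v` are coloured with `ψ a ≠ ψ b`, then with their partners `a'`, `b'` the four vertices are different,
so `4 ≤ #(N v)`, `v ∈ QS N` and `a` is touched (`q = v`), against `ψ a ≠ none`. So all coloured vertices of `N v` have the same colour. If no
vertex of `N v` is blank: degree 1: it is unique, contradiction; degree 2 or 3: the two vertices of `pr v` have the same colour, against `vg_pair`
and `φ ∈ Om (VG N pr) L`; degree at least 4: `N v` has four different vertices, `w, a, b, c`, all of one colour, so `w` is touched, contradiction.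
(3) For `u ∈ W`: `Bl (NB N) ψ u ⊆ Bl (NB N) φ u ∪ Tc (QS N) N (NB N u) φ` and `Uq (NB N) φ u ⊆ Uq (NB N) ψ u ∪ Tc (QS N) N (NB N u) φ`
(a vertex of `NB N u` not in `Tc .. (NB N u) φ` is not in `Tc .. univ φ`). -/
theorem uncolour {N : V → Finset V} (hG : Gr N) {pr : V → V × V} (hpr : Pr N pr)
    {L : V → Finset C} {φ : V → Option C} (hφ : φ ∈ Om (VG N pr) L) (W : Finset V)
    (hgood : ∀ u ∈ W,
      #(Bl (NB N) φ u) + 2 * #(Tc (QS N) N (NB N u) φ) < #(Uq (NB N) φ u)) :
    ∃ ψ ∈ Om N L, (∀ x, #(N x) < 400 → ψ x = none) ∧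
      (∀ v ∈ SS N, 1 ≤ #(N v) → Safe N ψ v) ∧
      ∀ u ∈ W, #(Bl (NB N) ψ u) < #(Uq (NB N) ψ u) := by
  classical
  set T0 : Finset V := Tc (QS N) N univ φ with hT0
  set ψ : V → Option C := fun x => if 400 ≤ #(N x) ∧ x ∉ T0 then φ x else none with hψ
  have e1 : ∀ x, ψ x ≠ none → 400 ≤ #(N x) ∧ x ∉ T0 ∧ ψ x = φ x := by
    intro x hx
    by_cases h : 400 ≤ #(N x) ∧ x ∉ T0
    · exact ⟨h.1, h.2, if_pos h⟩
    · exact absurd (if_neg h) hx
  have e2 : ∀ x, 400 ≤ #(N x) → x ∉ T0 → ψ x = φ x := fun x h1 h2 => if_pos ⟨h1, h2⟩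
  have hφ' := mem_Om.mp hφ
  refine ⟨ψ, ?_, ?_, ?_, ?_⟩
  · rw [mem_Om]
    refine ⟨fun v c hc => ?_, fun v u hu h => ?_⟩
    · have h1 := e1 v (by rw [hc]; simp)
      exact hφ'.1 v c (h1.2.2 ▸ hc)
    · by_contra hne
      have h1 := e1 v hne
      have h2 := e1 u (h ▸ hne)
      have h3 : u ∈ VG N pr v := vg_adj hG pr h1.1 h2.1 hu
      have h4 : φ v = φ u := by rw [← h1.2.2, ← h2.2.2, h]
      exact hne (h1.2.2.trans (hφ'.2 v u h3 h4))
  · intro x hx
    exact if_neg (fun h => by omega)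
  · intro v hv hv1
    by_contra hS
    unfold Safe at hS
    push Not at hS
    obtain ⟨hU, hB⟩ := hS
    have hU' : ∀ a ∈ N v, ψ a ≠ none → ∃ b ∈ N v, ψ b = ψ a ∧ b ≠ a := by
      intro a ha hne
      by_contra hcon
      push Not at hcon
      exact hU ⟨a, ha, hne, hcon⟩
    have hA : ∀ a ∈ N v, ∀ b ∈ N v, ψ a ≠ none → ψ b ≠ none → ψ a = ψ b := by
      intro a ha b hb hna hnb
      by_contra hab
      obtain ⟨a', ha', h1, h2⟩ := hU' a ha hna
      obtain ⟨b', hb', h3, h4⟩ := hU' b hb hnb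
      have d1 : b ≠ a := fun h => hab (by rw [h])
      have d2 : b' ≠ a := fun h => hab (by rw [← h3, h])
      have d3 : b ≠ a' := fun h => hab (by rw [← h1, h])
      have d4 : b' ≠ a' := fun h => hab (by rw [← h1, ← h3, h])
      have hq : v ∈ QS N := by
        unfold QS
        rw [mem_filter]
        refine ⟨hv, ?_⟩
        have hsub : ({a, a', b, b'} : Finset V) ⊆ N v := by
          intro x hx
          simp only [mem_insert, mem_singleton] at hx
          rcases hx with rfl | rfl | rfl | rfl <;> assumption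
        have hcard : #({a, a', b, b'} : Finset V) = 4 := by
          rw [card_insert_of_notMem, card_insert_of_notMem, card_insert_of_notMem, card_singleton]
          · simp only [mem_singleton]; exact fun h => h4 h.symm
          · simp only [mem_insert, mem_singleton, not_or]
            exact ⟨fun h => d3 h.symm, fun h => d4 h.symm⟩
          · simp only [mem_insert, mem_singleton, not_or]
            exact ⟨fun h => h2 h.symm, fun h => d1 h.symm, fun h => d2 h.symm⟩
        rw [← hcard]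
        exact card_le_card hsub
      have f1 := e1 a hna
      have f2 := e1 a' (h1 ▸ hna)
      have f3 := e1 b hnb
      have f4 := e1 b' (h3 ▸ hnb)
      apply f1.2.1
      rw [hT0]
      unfold Tc
      rw [mem_filter]
      refine ⟨mem_univ _, v, hq, ha, a', ha', b, hb, b', hb', h2, d1, d2, d3, d4, h4, ?_, ?_⟩
      · exact ⟨f1.2.2 ▸ hna, by rw [← f2.2.2, ← f1.2.2, h1]⟩
      · exact ⟨f3.2.2 ▸ hnb, by rw [← f4.2.2, ← f3.2.2, h3]⟩
    have hB' : ∀ a ∈ N v, ψ a ≠ none := hB hA
    have hφeq : ∀ a ∈ N v, ψ a = φ a := fun a ha => (e1 a (hB' a ha)).2.2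
    rcases Nat.lt_or_ge (#(N v)) 2 with h1 | h1
    · obtain ⟨a, ha⟩ := card_eq_one.mp (show #(N v) = 1 by omega)
      have haN : a ∈ N v := by rw [ha]; simp
      obtain ⟨b, hb, h2, h3⟩ := hU' a haN (hB' a haN)
      rw [ha, mem_singleton] at hb
      exact h3 hb
    · rcases Nat.lt_or_ge (#(N v)) 4 with h2 | h2
      · have h3 := vg_pair hpr hv h1 (by omega)
        obtain ⟨h4, h5, h6⟩ := hpr v h1
        have h7 : φ (pr v).1 = φ (pr v).2 := by
          rw [← hφeq _ h4, ← hφeq _ h5]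
          exact hA _ h4 _ h5 (hB' _ h4) (hB' _ h5)
        apply hB' _ h4
        rw [hφeq _ h4]
        exact hφ'.2 _ _ h3 h7
      · obtain ⟨w, hw, a, ha, b, hb, c, hc, d1, d2, d3, d4, d5, d6⟩ := un_four h2
        have hq : v ∈ QS N := by
          unfold QS
          rw [mem_filter]
          exact ⟨hv, h2⟩
        apply (e1 w (hB' w hw)).2.1
        rw [hT0]
        unfold Tc
        rw [mem_filter]
        have key : ∀ x ∈ N v, ∀ y ∈ N v, Eqv φ x y := by
          intro x hx y hy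
          refine ⟨?_, ?_⟩
          · rw [← hφeq x hx]; exact hB' x hx
          · rw [← hφeq x hx, ← hφeq y hy]
            exact hA _ hy _ hx (hB' _ hy) (hB' _ hx)
        exact ⟨mem_univ _, v, hq, hw, a, ha, b, hb, c, hc, d1, d2, d3, d4, d5, d6,
          key w hw a ha, key b hb c hc⟩
  · intro u hu
    have hg := hgood u hu
    have hNB : ∀ x ∈ NB N u, 400 ≤ #(N x) := by
      intro x hx
      unfold NB at hx
      exact (mem_filter.mp hx).2
    have hx0 : ∀ x ∈ NB N u, x ∉ Tc (QS N) N (NB N u) φ → ψ x = φ x := by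
      intro x hx hxT
      apply e2 x (hNB x hx)
      intro hxT0
      exact hxT (un_tc.mpr ⟨hx, hxT0⟩)
    have h1 : Bl (NB N) ψ u ⊆ Bl (NB N) φ u ∪ Tc (QS N) N (NB N u) φ := by
      intro x hx
      unfold Bl at hx
      rw [mem_filter] at hx
      rw [mem_union]
      by_cases hxT : x ∈ Tc (QS N) N (NB N u) φ
      · exact Or.inr hxT
      · left
        unfold Bl
        rw [mem_filter]
        exact ⟨hx.1, by rw [← hx0 x hx.1 hxT]; exact hx.2⟩
    have h2 : Uq (NB N) φ u ⊆ Uq (NB N) ψ u ∪ Tc (QS N) N (NB N u) φ := by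
      intro x hx
      unfold Uq at hx
      rw [mem_filter] at hx
      rw [mem_union]
      by_cases hxT : x ∈ Tc (QS N) N (NB N u) φ
      · exact Or.inr hxT
      · left
        unfold Uq
        rw [mem_filter]
        have hx1 := hx0 x hx.1 hxT
        refine ⟨hx.1, by rw [hx1]; exact hx.2.1, fun w hw h => ?_⟩
        have hwn : ψ w ≠ none := by rw [h, hx1]; exact hx.2.1
        apply hx.2.2 w hw
        rw [← (e1 w hwn).2.2, h, hx1]
    have h3 := (card_le_card h1).trans (card_union_le _ _)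
    have h4 := (card_le_card h2).trans (card_union_le _ _)
    omega

end Pool.Agent.Helper25.CP
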