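import Pool.Agent.Helper25.CP.VG2
import Pool.Agent.Helper25.CP.UN
import Pool.Agent.Helper25.CP.FB
import Pool.Agent.Helper25.CP.SM
import Pool.Agent.Helper25.CP.EQ
import Pool.Agent.Helper25.CP.BA
import Pool.Agent.Helper25.CP.RG
import Pool.Agent.Helper25.CP.Num
import Pool.Agent.Helper25.CP.Num2
import Pool.Agent.Helper25.CP.Cert
import Pool.Agent.Helper25.CP.Loc

namespace Pool.Agent.Helper25.CP

open Finset Pool.Agent.Helper4.PC

section App

variable {V C : Type} [Fintype V] [DecidableEq V] [DecidableEq C]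

theorem mem_dep_of {N : V → Finset V} {u y : V}
    (h : y ∈ NB N u ∨ ∃ q ∈ QS N, y ∈ N q ∧ ¬ Disjoint (N q) (NB N u)) : y ∈ dep N u := by
  unfold dep
  rw [mem_union]
  rcases h with h | ⟨q, hq, hy, hd⟩
  · exact Or.inl h
  · exact Or.inr (mem_biUnion.mpr ⟨q, mem_filter.mpr ⟨hq, hd⟩, hy⟩)

theorem mem_bal_dep {N H : V → Finset V} {u y : V} (h : y ∈ dep N u) : y ∈ bal N H u := by
  unfold bal
  rw [mem_union, mem_union]
  exact Or.inl (Or.inl h)

theorem mem_bal_dep' {N H : V → Finset V} {u y w : V} (h : y ∈ dep N u) (hw : w ∈ H y) :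
    w ∈ bal N H u := by
  unfold bal
  rw [mem_union, mem_union]
  exact Or.inl (Or.inr (mem_biUnion.mpr ⟨y, h, hw⟩))

theorem mem_bal_3 {N H : V → Finset V} {v u w y : V} (hu : u ∈ NB N v) (hw : w ∈ H u)
    (hy : y ∈ H w) : y ∈ bal N H v := by
  unfold bal
  rw [mem_union]
  exact Or.inr (mem_biUnion.mpr ⟨w, mem_biUnion.mpr ⟨u, hu, hw⟩, hy⟩)

theorem QS_card {N : V → Finset V} {q : V} (h : q ∈ QS N) : #(N q) ≤ 399 := by
  have h1 := (mem_filter.mp h).1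
  have h2 := (mem_filter.mp h1).2.1
  omega

theorem sqrt_list {D A r l : ℕ} (hA : 1 ≤ A) (hr : r = Nat.sqrt (D / (8 * A)))
    (h : D ≤ A * l) : 8 * r ^ 2 ≤ l := by
  have h1 : r * r ≤ D / (8 * A) := by rw [hr]; exact Nat.sqrt_le _
  have h2 : r * r * (8 * A) ≤ D := (Nat.le_div_iff_mul_le (by omega)).mp h1
  have h3 : A * (8 * r ^ 2) ≤ A * l := by
    calc A * (8 * r ^ 2) = r * r * (8 * A) := by ring
      _ ≤ D := h2
      _ ≤ A * l := h
  exact Nat.le_of_mul_le_mul_left h3 (by omega)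

/-- the certificate lemma for the virtual graph -/
theorem cert_app {N : V → Finset V} (hG : Gr N) {pr : V → V × V} (hpr : Pr N pr)
    {L : V → Finset C} {F : Finset (V → Option C)} (A D : ℕ) (hA : 1 ≤ A)
    (hL : ∀ x, #(N x) + 1 ≤ #(L x)) (hN : ∀ x, #(N x) ≤ D) (hLA : ∀ x, D ≤ A * #(L x))
    (u : V) (hF : Clo (VG N pr) L (↑(bal N (VG N pr) u)) F) (r : ℕ)
    (hr : r = Nat.sqrt (D / (8 * A))) (h2r : 2 ≤ r) (n J : ℕ) (hJ : 4 * n ≤ J) (lam : ℝ)
    (hlam : lam = (4 / 3 * (399 : ℝ) ^ 3 * #(NB N u) + (4 * n) ^ 2 * 1596 * 399 ^ 2) /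
      ((r : ℝ) / 2)) :
    ((J : ℝ) - 4 * n) ^ n * #(F.filter fun φ => J ≤ #(Tc (QS N) N (NB N u) φ)) ≤
      (lam ^ n + 2 * n * ((#(NB N u) : ℝ) * D * 399 ^ 3 + lam) ^ n *
        (((r : ℝ) + 1) / 2 ^ r)) * #F := by
  have hr2 : (2 : ℝ) ≤ r := by exact_mod_cast h2r
  refine cert (k0 := 399) (M := 1596) (D := D)
    (fun y => max ((r : ℝ) / 2) (3 / 4 * cnt (QS N) N y)) ((r : ℝ) / 2) (((r : ℝ) + 1) / 2 ^ r)
    lam ((#(NB N u) : ℝ) * D * 399 ^ 3 + lam) (by linarith) (fun w => le_max_left _ _)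
    (fun w => ?_) (fun q hq => QS_card hq) (fun w _ => (cnt_le hG w).trans (hN w))
    (fun φ hφ b c hbc h => vg_nonheavy (hF.sub hφ) hbc h) ?_ n J hJ (by positivity)
    (by rw [hlam]; push_cast; exact le_refl _) (by push_cast; linarith [show 0 ≤ lam by rw [hlam]; positivity]) ?_
  · have h1 := le_max_right ((r : ℝ) / 2) (3 / 4 * (cnt (QS N) N w : ℝ))
    linarith
  · intro l y x hxy hl hy
    have hyd : y ∈ dep N u := mem_dep_of hy
    refine eq_step (vg_gr hG pr) hF y x hxy (mem_coe.mpr (mem_bal_dep hyd))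
      (fun w hw => mem_coe.mpr (mem_bal_dep' hyd hw))
      ((Nat.add_le_add_right (vg_le hG hpr y) 1).trans (hL y)) r (sqrt_list hA hr (hLA y)) _
      (lt_of_lt_of_le (by linarith) (le_max_left _ _)) ?_ l hl
    intro φ _ hav
    refine max_le ?_ ?_
    · have : (r : ℝ) < 2 * #(Av (VG N pr) L φ y) := by exact_mod_cast hav
      linarith
    · have h1 := vg_av hG hpr hL φ y
      have h2 : (4 : ℝ) + 3 * cnt (QS N) N y ≤ 4 * #(Av (VG N pr) L φ y) := by exact_mod_cast h1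
      linarith
  · have : (0 : ℝ) ≤ (#(NB N u) : ℝ) * D * 399 ^ 3 := by positivity
    linarith

/-- goodness -/
def Good (N : V → Finset V) (u : V) (φ : V → Option C) : Prop :=
  #(Bl (NB N) φ u) + 2 * #(Tc (QS N) N (NB N u) φ) < #(Uq (NB N) φ u)

end App

private theorem num_a (D : ℝ) (hD : 1 ≤ D) : 1 / (1281600 * D ^ 5) ≤ 1 / 4 := by
  have h1 : (1 : ℝ) ≤ D ^ 5 := one_le_pow₀ hD
  rw [div_le_div_iff₀ (by positivity) (by norm_num)]
  linarith

private theorem num_b (D x : ℝ) (hD : 1 ≤ D) (hx : x ≤ 320400 * D ^ 5) :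
    x * (1 / (1281600 * D ^ 5)) ≤ 1 / 4 := by
  have h1 : (0 : ℝ) < D ^ 5 := by positivity
  rw [mul_one_div, div_le_div_iff₀ (by positivity) (by norm_num)]
  linarith

private theorem num_c (D x y : ℝ) (hD : 5126400 ≤ D) (hx0 : 0 ≤ x) (h : x * D ^ 6 ≤ 2 * y) :
    x ≤ 1 / (1281600 * D ^ 5) / 2 * y := by
  have h0 : (0 : ℝ) < D := by linarith
  have h1 : (0 : ℝ) < D ^ 5 := by positivity
  have h6 : 5126400 * D ^ 5 ≤ D ^ 6 := by
    calc 5126400 * D ^ 5 ≤ D * D ^ 5 := mul_le_mul_of_nonneg_right hD h1.le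
      _ = D ^ 6 := by ring
  have h7 := mul_le_mul_of_nonneg_left h6 hx0
  have e : 1 / (1281600 * D ^ 5) / 2 * y = y / (2563200 * D ^ 5) := by
    rw [div_div, one_div, ← div_eq_inv_mul]
    congr 1
    ring
  rw [e, le_div_iff₀ (by positivity)]
  linarith

private theorem num_d (c x D6 y : ℝ) (a b : ℝ) (h : (a - 4 * b) ^ 24 * x ≤ c * y)
    (ha : a = 97) (hb : b = 24) (hD : 0 ≤ D6) (hy : 0 ≤ y) (hc : c * D6 ≤ 1) :
    x * D6 ≤ y := by
  have e : a - 4 * b = 1 := by rw [ha, hb]; norm_num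
  rw [e, one_pow, one_mul] at h
  calc x * D6 ≤ (c * y) * D6 := mul_le_mul_of_nonneg_right h hD
    _ = (c * D6) * y := by ring
    _ ≤ 1 * y := mul_le_mul_of_nonneg_right hc hy
    _ = y := one_mul _

open Classical in
/-- bad colourings are rare -/
theorem bad_le (A κ : ℕ) (hA : 1 ≤ A) (hκ : 1 ≤ κ) : ∃ D0 : ℕ,
    ∀ (V C : Type) [Fintype V] [DecidableEq V] [DecidableEq C] (N : V → Finset V)
    (pr : V → V × V) (L : V → Finset C) (F : Finset (V → Option C)) (u : V) (D : ℕ), Gr N → Pr N pr → D0 ≤ D →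
    (∀ x, #(N x) + 1 ≤ #(L x)) → (∀ x, #(N x) ≤ D) → (∀ x, D ≤ A * #(L x)) →
    (∀ x, 2 * D + κ * D ≤ 2 * κ * #(L x) ∨ D + A * #(N x) ≤ A * #(L x)) →
    400 ≤ #(NB N u) → Clo (VG N pr) L (↑(bal N (VG N pr) u)) F →
    #(F.filter fun φ => ¬ Good N u φ) * D ^ 6 ≤ 2 * #F := by
  obtain ⟨D1, hD1⟩ := num1 A hA
  obtain ⟨CJ, D2, hD2⟩ := num2 A hA
  obtain ⟨d3, hd3⟩ := local_large A κ (2 * CJ) hA hκ
  obtain ⟨D4, hD4⟩ := local_small A hA
  refine ⟨max (max D1 D2) (max (d3 ^ 8) D4), ?_⟩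
  intro V C _ _ _ N pr L F u D hG hpr hD hL hN hLA hLK hu hF
  have e1 : D1 ≤ D := (le_max_left _ _).trans ((le_max_left _ _).trans hD)
  have e2 : D2 ≤ D := (le_max_right _ _).trans ((le_max_left _ _).trans hD)
  have e3 : d3 ^ 8 ≤ D := (le_max_left _ _).trans ((le_max_right _ _).trans hD)
  have e4 : D4 ≤ D := (le_max_right _ _).trans ((le_max_right _ _).trans hD)
  have hH := vg_gr hG pr
  have hle := vg_le hG hpr
  have hLH : ∀ x, #(VG N pr x) + 1 ≤ #(L x) := fun x =>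
    (Nat.add_le_add_right (hle x) 1).trans (hL x)
  have hNBD : #(NB N u) ≤ D := (card_le_card (filter_subset _ _)).trans (hN u)
  have hdep : ∀ y ∈ NB N u, y ∈ dep N u := fun y hy => mem_dep_of (Or.inl hy)
  have hB1 : ∀ y ∈ NB N u, y ∈ (↑(bal N (VG N pr) u) : Set V) := fun y hy =>
    mem_coe.mpr (mem_bal_dep (hdep y hy))
  have hB2 : ∀ y ∈ NB N u, ∀ w ∈ VG N pr y, w ∈ (↑(bal N (VG N pr) u) : Set V) :=
    fun y hy w hw => mem_coe.mpr (mem_bal_dep' (hdep y hy) hw)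
  have hB3 : ∀ y ∈ NB N u, ∀ w ∈ VG N pr y, ∀ z ∈ VG N pr w,
      z ∈ (↑(bal N (VG N pr) u) : Set V) :=
    fun y hy w hw z hz => mem_coe.mpr (mem_bal_3 hy hw hz)
  set r := Nat.sqrt (D / (8 * A)) with hr
  -- combination of the two parts
  have comb : ∀ J : ℕ, #(F.filter fun φ => J ≤ #(Tc (QS N) N (NB N u) φ)) * D ^ 6 ≤ #F →
      #(F.filter fun φ => #(Uq (NB N) φ u) ≤ #(Bl (NB N) φ u) + 2 * J) * D ^ 6 ≤ #F →
      #(F.filter fun φ => ¬ Good N u φ) * D ^ 6 ≤ 2 * #F := by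
    intro J h1 h2
    have hsub : (F.filter fun φ => ¬ Good N u φ) ⊆
        (F.filter fun φ => J ≤ #(Tc (QS N) N (NB N u) φ)) ∪
          (F.filter fun φ => #(Uq (NB N) φ u) ≤ #(Bl (NB N) φ u) + 2 * J) := by
      intro φ hφ
      rw [mem_filter] at hφ
      rw [mem_union, mem_filter, mem_filter]
      by_cases hc : J ≤ #(Tc (QS N) N (NB N u) φ)
      · exact Or.inl ⟨hφ.1, hc⟩
      · right
        refine ⟨hφ.1, ?_⟩
        have := hφ.2
        unfold Good at this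
        omega
    have h3 := (card_le_card hsub).trans (card_union_le _ _)
    calc _ ≤ (#(F.filter fun φ => J ≤ #(Tc (QS N) N (NB N u) φ)) +
          #(F.filter fun φ => #(Uq (NB N) φ u) ≤ #(Bl (NB N) φ u) + 2 * J)) * D ^ 6 :=
          Nat.mul_le_mul_right _ h3
      _ ≤ _ := by rw [Nat.add_mul]; omega
  have hF0 : (0 : ℝ) ≤ #F := Nat.cast_nonneg _
  have hD60 : (0 : ℝ) ≤ (D : ℝ) ^ 6 := by positivity
  rcases le_total (#(NB N u) ^ 8) D with hc | hc
  · refine comb 97 ?_ ?_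
    · obtain ⟨h2r, hnum⟩ := hD1 D #(NB N u) e1 hc r hr _ rfl
      have h := cert_app hG hpr A D hA hL hN hLA u hF r hr h2r 24 97 (by norm_num) _ rfl
      have h' : (#(F.filter fun φ => 97 ≤ #(Tc (QS N) N (NB N u) φ)) : ℝ) * (D : ℝ) ^ 6 ≤ #F :=
        num_d _ _ _ _ _ _ h (by norm_num) (by norm_num) hD60 hF0 (by
          have e : ((24 : ℕ) : ℝ) = 24 := by norm_num
          rw [e]
          exact hnum)
      exact_mod_cast h'
    · exact hD4 V C (VG N pr) (NB N) L _ F u D hH hF e4 hLH hu hc (fun y _ => hLA y) hB1 hB2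
  · have hd3' : d3 ≤ #(NB N u) := by
      by_contra hcon
      have h1 : #(NB N u) + 1 ≤ d3 := by omega
      have h2 : (#(NB N u) + 1) ^ 8 ≤ d3 ^ 8 := Nat.pow_le_pow_left h1 8
      have h3 : #(NB N u) ^ 8 < (#(NB N u) + 1) ^ 8 := Nat.pow_lt_pow_left (by omega) (by norm_num)
      omega
    refine comb (CJ * Nat.sqrt #(NB N u)) ?_ ?_
    · obtain ⟨h2r, hJ, hnum⟩ := hD2 D #(NB N u) e2 hNBD hc r _ hr rfl _ rfl
      set n := 4 * (Nat.log 2 D + 1) with hn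
      set J := CJ * Nat.sqrt #(NB N u) with hJd
      have h := cert_app hG hpr A D hA hL hN hLA u hF r hr h2r n J (by omega) _ rfl
      have hpos : (0 : ℝ) < ((J : ℝ) - 4 * n) ^ n := by
        have : (4 * (n : ℝ) + 1) ≤ J := by exact_mod_cast hJ
        exact pow_pos (by linarith) _
      have h' : (#(F.filter fun φ => J ≤ #(Tc (QS N) N (NB N u) φ)) : ℝ) * (D : ℝ) ^ 6 ≤ #F := by
        refine le_of_mul_le_mul_left ?_ hpos
        calc _ = (((J : ℝ) - 4 * n) ^ n *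
                #(F.filter fun φ => J ≤ #(Tc (QS N) N (NB N u) φ))) * (D : ℝ) ^ 6 := by ring
          _ ≤ _ := mul_le_mul_of_nonneg_right h hD60
          _ = (_ * (D : ℝ) ^ 6) * #F := by ring
          _ ≤ ((J : ℝ) - 4 * n) ^ n * #F := mul_le_mul_of_nonneg_right hnum hF0
      exact_mod_cast h'
    · have h := hd3 V C (VG N pr) (NB N) L _ F u D hH hF hLH hd3' hNBD hc
        (fun y _ => (hle y).trans (hN y)) (fun y _ => ?_) (fun y _ => hLA y)
        (fun y _ w _ => hLA w) hB1 hB2 hB3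
      · have e : 2 * CJ * Nat.sqrt #(NB N u) = 2 * (CJ * Nat.sqrt #(NB N u)) := by ring
        rw [e] at h
        exact h
      · rcases hLK y with h | h
        · left
          have : κ * #(NB N u) ≤ κ * D := Nat.mul_le_mul_left _ hNBD
          omega
        · right
          have : A * #(VG N pr y) ≤ A * #(N y) := Nat.mul_le_mul_left _ (hle y)
          omega

/-- MAIN THEOREM in terms of neighbour functions. -/
theorem mainC (ε : ℝ) (hε : 0 < ε) : ∃ Δ0 : ℕ, ∀ (V : Type) [Fintype V] [DecidableEq V]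
    (N : V → Finset V) (L : V → Finset ℕ) (Δ : ℕ), Gr N → Δ0 ≤ Δ → (∀ v, #(N v) ≤ Δ) →
    (∀ x, #(N x) + 1 ≤ #(L x)) →
    (∀ x, (1 / 2 + ε) * Δ ≤ (#(L x) : ℝ) ∨ (#(N x) : ℝ) + ε * Δ ≤ #(L x)) →
    ∃ c : V → ℕ, (∀ v, c v ∈ L v) ∧ (∀ v, ∀ u ∈ N v, c u ≠ c v) ∧
      ∀ v, (N v).Nonempty → ∃ u ∈ N v, ∀ w ∈ N v, c w = c u → w = u := by
  classical
  set A : ℕ := max 1 ⌈1 / ε⌉₊ with hAdef
  have hA : 1 ≤ A := le_max_left _ _
  have hA0 : (0 : ℝ) < A := by exact_mod_cast hA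
  have hAε : 1 ≤ A * ε := by
    have h1 : 1 / ε ≤ A := (Nat.le_ceil _).trans (by exact_mod_cast le_max_right _ _)
    rwa [div_le_iff₀ hε] at h1
  obtain ⟨D0, hD0⟩ := bad_le A A hA hA
  refine ⟨max (max D0 5126400) (160000 * A), ?_⟩
  intro V _ _ N L Δ hG hΔ hN hL hLe
  have f1 : D0 ≤ Δ := (le_max_left _ _).trans ((le_max_left _ _).trans hΔ)
  have f2 : 5126400 ≤ Δ := (le_max_right _ _).trans ((le_max_left _ _).trans hΔ)
  have f3 : 160000 * A ≤ Δ := (le_max_right _ _).trans hΔ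
  have f2r : (5126400 : ℝ) ≤ Δ := by exact_mod_cast f2
  have hΔ0 : (0 : ℝ) < Δ := by linarith
  have hΔ1r : (1 : ℝ) ≤ Δ := by linarith
  have hLA : ∀ x, Δ ≤ A * #(L x) := by
    intro x
    have h1 : ε * Δ ≤ (#(L x) : ℝ) := by
      rcases hLe x with h | h
      · nlinarith
      · have : (0 : ℝ) ≤ #(N x) := Nat.cast_nonneg _
        linarith
    have h2 : (Δ : ℝ) ≤ A * #(L x) := by
      calc (Δ : ℝ) = 1 * Δ := (one_mul _).symm
        _ ≤ (A * ε) * Δ := mul_le_mul_of_nonneg_right hAε hΔ0.le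
        _ = A * (ε * Δ) := by ring
        _ ≤ A * #(L x) := mul_le_mul_of_nonneg_left h1 hA0.le
    exact_mod_cast h2
  have hLK : ∀ x, 2 * Δ + A * Δ ≤ 2 * A * #(L x) ∨ Δ + A * #(N x) ≤ A * #(L x) := by
    intro x
    have h3 : (Δ : ℝ) ≤ (A * ε) * Δ := by
      calc (Δ : ℝ) = 1 * Δ := (one_mul _).symm
        _ ≤ (A * ε) * Δ := mul_le_mul_of_nonneg_right hAε hΔ0.le
    rcases hLe x with h | h
    · left
      have h1 : 2 * A * ((1 / 2 + ε) * Δ) ≤ 2 * A * (#(L x) : ℝ) :=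
        mul_le_mul_of_nonneg_left h (by positivity)
      have h2 : (2 * (Δ : ℝ) + A * Δ) ≤ 2 * A * #(L x) := by nlinarith
      exact_mod_cast h2
    · right
      have h1 : A * ((#(N x) : ℝ) + ε * Δ) ≤ A * (#(L x) : ℝ) :=
        mul_le_mul_of_nonneg_left h hA0.le
      have h2 : ((Δ : ℝ) + A * #(N x)) ≤ A * #(L x) := by nlinarith
      exact_mod_cast h2
  -- the pairs
  have hprx : ∀ v, ∃ p : V × V, 2 ≤ #(N v) → p.1 ∈ N v ∧ p.2 ∈ N v ∧ p.1 ≠ p.2 := by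
    intro v
    by_cases h : 2 ≤ #(N v)
    · obtain ⟨a, ha, b, hb, hab⟩ := one_lt_card.mp (by omega : 1 < #(N v))
      exact ⟨(a, b), fun _ => ⟨ha, hb, hab⟩⟩
    · exact ⟨(v, v), fun h' => absurd h' h⟩
  choose pr hpr using hprx
  have hpr' : Pr N pr := hpr
  set H := VG N pr with hH
  have hle := vg_le hG hpr'
  obtain ⟨φ, hφ, hgood⟩ := rosen (H := H) (L := L) (univ.filter fun u => 400 ≤ #(NB N u))
    (fun u φ => Good N u φ) (dep N) (bal N H)
    (fun v _ φ ψ h hg => by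
      obtain ⟨g1, g2, g3⟩ := good_dep v h
      unfold Good at hg ⊢
      rw [g1, g2, g3]
      exact hg)
    (1 / (1281600 * (Δ : ℝ) ^ 5)) (by positivity)
    (num_a _ hΔ1r)
    (fun v _ => by
      have h1 : #((univ.filter fun u => 400 ≤ #(NB N u)).filter
          fun x => ¬ Disjoint (dep N x) (bal N H v)) ≤ 320400 * Δ ^ 5 := by
        refine (card_le_card ?_).trans (card_int hG (by omega : 1 ≤ Δ) hN
          (fun y => (hle y).trans (hN y)) v)
        intro x hx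
        rw [mem_filter] at hx
        exact mem_filter.mpr ⟨mem_univ _, hx.2⟩
      have h2 : (#((univ.filter fun u => 400 ≤ #(NB N u)).filter
          fun x => ¬ Disjoint (dep N x) (bal N H v)) : ℝ) ≤ 320400 * (Δ : ℝ) ^ 5 := by
        exact_mod_cast h1
      exact num_b _ _ hΔ1r h2)
    (fun v hv F hF => by
      have hv' : 400 ≤ #(NB N v) := (mem_filter.mp hv).2
      have h := hD0 V ℕ N pr L F v Δ hG hpr' f1 hL hN hLA hLK hv' hF
      have h' : (#(F.filter fun φ => ¬ Good N v φ) : ℝ) * (Δ : ℝ) ^ 6 ≤ 2 * #F := by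
        exact_mod_cast h
      exact num_c _ _ _ f2r (Nat.cast_nonneg _) h')
  obtain ⟨ψ, hψ, hs, hsafe, hW⟩ := uncolour hG hpr' hφ (univ.filter fun u => 400 ≤ #(NB N u))
    (fun u hu => hgood u hu)
  obtain ⟨χ, hχ, h0, hS, hW'⟩ := fillB hG hL _ ψ hψ hs hsafe hW
  refine small_phase hG (fun x _ => ?_) χ hχ h0 hS
    (fun u hu => hW' u (mem_filter.mpr ⟨mem_univ _, hu⟩))
  have h1 := hLA x
  have h2 : A * 160000 ≤ A * #(L x) := by
    calc A * 160000 = 160000 * A := Nat.mul_comm _ _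
      _ ≤ Δ := f3
      _ ≤ _ := h1
  exact Nat.le_of_mul_le_mul_left h2 (by omega)

end Pool.Agent.Helper25.CP
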