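import Pool.Agent.Helper25.CP.Base

namespace Pool.Agent.Helper25.CP

private theorem small_ev (k : ℕ) (C a : ℝ) (hC : 0 ≤ C) (ha : 0 < a) (ha1 : a < 1) :
    ∃ R : ℕ, ∀ n : ℕ, R ≤ n → C * ((n : ℝ) + 1) ^ k * a ^ n ≤ 1 / 3 := by
  have h := tendsto_pow_const_mul_const_pow_of_abs_lt_one k
    (show |a| < 1 by rw [abs_of_pos ha]; exact ha1)
  have h2 := h.comp (Filter.tendsto_add_atTop_nat 1)
  have hpos : 0 < 1 / (3 * (C * a⁻¹ + 1)) := by positivity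
  have h3 := h2.eventually (gt_mem_nhds hpos)
  obtain ⟨R, hR⟩ := Filter.eventually_atTop.1 h3
  refine ⟨R, fun n hn => ?_⟩
  have h4 := hR n hn
  simp only [Function.comp, Nat.cast_add, Nat.cast_one] at h4
  have h5 : C * ((n : ℝ) + 1) ^ k * a ^ n = (C * a⁻¹) * (((n : ℝ) + 1) ^ k * a ^ (n + 1)) := by
    rw [pow_succ]; field_simp
  rw [h5]
  have hCa : 0 ≤ C * a⁻¹ := by positivity
  calc (C * a⁻¹) * (((n : ℝ) + 1) ^ k * a ^ (n + 1))
      ≤ (C * a⁻¹) * (1 / (3 * (C * a⁻¹ + 1))) := mul_le_mul_of_nonneg_left h4.le hCa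
    _ ≤ 1 / 3 := by
        rw [mul_one_div, div_le_div_iff₀ (by positivity) (by norm_num)]
        nlinarith

private theorem bd (c l s d D A B E : ℝ) (r : ℝ) (hc : 1 ≤ c) (hl : 0 ≤ l) (hs : 1 ≤ s)
    (hr : r + 1 = s) (hr0 : 0 ≤ r)
    (hd0 : 0 ≤ d) (hd : d ≤ c * s ^ 2) (hD0 : 0 ≤ D) (hD : D ≤ c ^ 8 * s ^ 16)
    (hA : 0 ≤ A) (hB : 0 ≤ B) (hBA : B ≤ A) (hE : 0 ≤ E) :
    ((1 + 2 * (l * r)) * ((d + 2) * (2 * d * D) * ((r + 1) * A) + (d + 1) * B) +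
      l * r * E) * D ^ 6 ≤
    ((1 + 2 * l) * (c + 2) * (2 * c ^ 9) * c ^ 48) * s ^ 118 * A +
      ((1 + 2 * l) * (c + 2) * c ^ 48) * s ^ 118 * A +
      (l * c ^ 48) * s ^ 97 * E := by
  have hs0 : 0 ≤ s := by linarith
  have hc0 : 0 ≤ c := by linarith
  have hrs : r ≤ s := by linarith
  have e1 : 1 + 2 * (l * r) ≤ (1 + 2 * l) * s := by nlinarith
  have hs2 : 1 ≤ s ^ 2 := one_le_pow₀ hs
  have e2 : d + 2 ≤ (c + 2) * s ^ 2 := by nlinarith
  have e2' : d + 1 ≤ (c + 2) * s ^ 2 := by linarith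
  have e3 : D ^ 6 ≤ c ^ 48 * s ^ 96 := by
    calc D ^ 6 ≤ (c ^ 8 * s ^ 16) ^ 6 := pow_le_pow_left₀ hD0 hD 6
      _ = c ^ 48 * s ^ 96 := by ring
  have e4 : 2 * d * D ≤ 2 * c ^ 9 * s ^ 18 := by
    calc 2 * d * D ≤ 2 * (c * s ^ 2) * (c ^ 8 * s ^ 16) := by
          apply mul_le_mul _ hD hD0 (by positivity)
          linarith
      _ = 2 * c ^ 9 * s ^ 18 := by ring
  have e5 : (d + 2) * (2 * d * D) * ((r + 1) * A) ≤ (c + 2) * (2 * c ^ 9) * s ^ 21 * A := by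
    calc (d + 2) * (2 * d * D) * ((r + 1) * A)
        ≤ ((c + 2) * s ^ 2) * (2 * c ^ 9 * s ^ 18) * (s * A) := by
          rw [hr]
          apply mul_le_mul_of_nonneg_right _ (by positivity)
          exact mul_le_mul e2 e4 (by positivity) (by positivity)
      _ = (c + 2) * (2 * c ^ 9) * s ^ 21 * A := by ring
  have hs1 : s ^ 2 ≤ s ^ 21 := pow_le_pow_right₀ hs (by norm_num)
  have e6 : (d + 1) * B ≤ (c + 2) * s ^ 21 * A := by
    calc (d + 1) * B ≤ ((c + 2) * s ^ 2) * A := mul_le_mul e2' hBA hB (by positivity)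
      _ ≤ ((c + 2) * s ^ 21) * A := by
          apply mul_le_mul_of_nonneg_right _ hA
          exact mul_le_mul_of_nonneg_left hs1 (by positivity)
      _ = (c + 2) * s ^ 21 * A := by ring
  have e7 : (1 + 2 * (l * r)) * ((d + 2) * (2 * d * D) * ((r + 1) * A) + (d + 1) * B) ≤
      (1 + 2 * l) * s * ((c + 2) * (2 * c ^ 9) * s ^ 21 * A + (c + 2) * s ^ 21 * A) := by
    apply mul_le_mul e1 (add_le_add e5 e6) (by positivity) (by positivity)
  have e8 : l * r * E ≤ l * s * E := by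
    apply mul_le_mul_of_nonneg_right _ hE
    exact mul_le_mul_of_nonneg_left hrs hl
  calc ((1 + 2 * (l * r)) * ((d + 2) * (2 * d * D) * ((r + 1) * A) + (d + 1) * B) +
      l * r * E) * D ^ 6
      ≤ ((1 + 2 * l) * s * ((c + 2) * (2 * c ^ 9) * s ^ 21 * A + (c + 2) * s ^ 21 * A) +
          l * s * E) * (c ^ 48 * s ^ 96) := by
        apply mul_le_mul (add_le_add e7 e8) e3 (by positivity) (by positivity)
    _ = ((1 + 2 * l) * (c + 2) * (2 * c ^ 9) * c ^ 48) * s ^ 118 * A +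
      ((1 + 2 * l) * (c + 2) * c ^ 48) * s ^ 118 * A +
      (l * c ^ 48) * s ^ 97 * E := by ring

/-- PIECE P2 (pure analysis), general constants. -/
theorem final_bound (A lam q : ℕ) (hA : 1 ≤ A) (hq : 1 ≤ q) : ∃ d0 : ℕ, ∀ d D : ℕ,
    d0 ≤ d → D ≤ d ^ 8 →
    ((1 + 2 * ((lam : ℝ) * (Nat.sqrt (d / (32 * A)) : ℝ))) *
        ((d + 2) * (2 * d * D) *
          (((Nat.sqrt (d / (32 * A)) : ℝ) + 1) / 2 ^ Nat.sqrt (d / (32 * A))) +
          (d + 1) / 2 ^ (256 * A * Nat.sqrt (d / (32 * A)))) +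
      (lam : ℝ) * (Nat.sqrt (d / (32 * A)) : ℝ) *
        (3 / 4) ^ (512 * Nat.sqrt (d / (32 * A)) / q)) * (D : ℝ) ^ 6 ≤ 1 := by
  set c : ℝ := 32 * A with hc
  have hc1 : 1 ≤ c := by
    have : (1 : ℝ) ≤ A := by exact_mod_cast hA
    rw [hc]; linarith
  have hc0 : 0 ≤ c := by linarith
  set l : ℝ := (lam : ℝ) with hl
  have hl0 : 0 ≤ l := by positivity
  obtain ⟨R1, hR1⟩ := small_ev 118 ((1 + 2 * l) * (c + 2) * (2 * c ^ 9) * c ^ 48) (1 / 2)
    (by positivity) (by norm_num) (by norm_num)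
  obtain ⟨R2, hR2⟩ := small_ev 118 ((1 + 2 * l) * (c + 2) * c ^ 48) (1 / 2) (by positivity)
    (by norm_num) (by norm_num)
  obtain ⟨R3, hR3⟩ := small_ev 97 ((l * c ^ 48) * (q : ℝ) ^ 97) (3 / 4) (by positivity)
    (by norm_num) (by norm_num)
  refine ⟨32 * A * (R1 + R2 + q * R3) ^ 2, fun d D hd0 hD => ?_⟩
  set r := Nat.sqrt (d / (32 * A)) with hr
  have hrR : R1 + R2 + q * R3 ≤ r := by
    rw [hr, Nat.le_sqrt']
    rw [Nat.le_div_iff_mul_le (by omega)]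
    calc (R1 + R2 + q * R3) ^ 2 * (32 * A) = 32 * A * (R1 + R2 + q * R3) ^ 2 := by ring
      _ ≤ d := hd0
  have hdr : d < 32 * A * (r + 1) ^ 2 := by
    have h1 : d / (32 * A) < (r + 1) ^ 2 := by
      rw [hr]; exact Nat.lt_succ_sqrt' _
    have h2 := (Nat.div_lt_iff_lt_mul (by omega : 0 < 32 * A)).1 h1
    calc d < (r + 1) ^ 2 * (32 * A) := h2
      _ = 32 * A * (r + 1) ^ 2 := by ring
  have hdrR : (d : ℝ) ≤ c * ((r : ℝ) + 1) ^ 2 := by
    rw [hc]; exact_mod_cast hdr.le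
  have hDR : (D : ℝ) ≤ c ^ 8 * ((r : ℝ) + 1) ^ 16 := by
    have h1 : (D : ℝ) ≤ (d : ℝ) ^ 8 := by exact_mod_cast hD
    calc (D : ℝ) ≤ (d : ℝ) ^ 8 := h1
      _ ≤ (c * ((r : ℝ) + 1) ^ 2) ^ 8 := pow_le_pow_left₀ (by positivity) hdrR 8
      _ = c ^ 8 * ((r : ℝ) + 1) ^ 16 := by ring
  have hBA : (1 / 2 : ℝ) ^ (256 * A * r) ≤ (1 / 2) ^ r := by
    apply pow_le_pow_of_le_one (by norm_num) (by norm_num)
    calc r = 1 * r := (Nat.one_mul r).symm
      _ ≤ 256 * A * r := Nat.mul_le_mul_right r (by omega)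
  have hb := bd c l ((r : ℝ) + 1) d D ((1 / 2) ^ r) ((1 / 2) ^ (256 * A * r))
    ((3 / 4) ^ (512 * r / q)) r hc1 hl0
    (by have : (0 : ℝ) ≤ r := by positivity
        linarith) rfl (by positivity) (by positivity) hdrR (by positivity) hDR (by positivity)
    (by positivity) hBA (by positivity)
  have t1 := hR1 r (by omega)
  have t2 := hR2 r (by omega)
  have hn : R3 ≤ r / q := by
    rw [Nat.le_div_iff_mul_le (by omega), Nat.mul_comm]
    omega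
  have t3 := hR3 (r / q) hn
  have t3' : (l * c ^ 48) * ((r : ℝ) + 1) ^ 97 * (3 / 4) ^ (512 * r / q) ≤ 1 / 3 := by
    refine le_trans ?_ t3
    have hsq : (r : ℝ) + 1 ≤ (q : ℝ) * (((r / q : ℕ) : ℝ) + 1) := by
      have h1 : r < q * (r / q + 1) := Nat.lt_mul_div_succ r (by omega)
      exact_mod_cast h1
    have hp : (3 / 4 : ℝ) ^ (512 * r / q) ≤ (3 / 4) ^ (r / q) :=
      pow_le_pow_of_le_one (by norm_num) (by norm_num) (Nat.div_le_div_right (by omega))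
    calc (l * c ^ 48) * ((r : ℝ) + 1) ^ 97 * (3 / 4) ^ (512 * r / q)
        ≤ (l * c ^ 48) * ((q : ℝ) * (((r / q : ℕ) : ℝ) + 1)) ^ 97 * (3 / 4) ^ (r / q) := by
          apply mul_le_mul _ hp (by positivity) (by positivity)
          apply mul_le_mul_of_nonneg_left _ (by positivity)
          exact pow_le_pow_left₀ (by positivity) hsq 97
      _ = (l * c ^ 48) * (q : ℝ) ^ 97 * (((r / q : ℕ) : ℝ) + 1) ^ 97 * (3 / 4) ^ (r / q) := by
          rw [mul_pow]; ring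
  have hconv1 : ((r : ℝ) + 1) / 2 ^ r = ((r : ℝ) + 1) * (1 / 2) ^ r := by
    rw [one_div, inv_pow, div_eq_mul_inv]
  have hconv2 : ((d : ℝ) + 1) / 2 ^ (256 * A * r) = ((d : ℝ) + 1) * (1 / 2) ^ (256 * A * r) := by
    rw [one_div, inv_pow, div_eq_mul_inv]
  rw [hconv1, hconv2]
  linarith

end Pool.Agent.Helper25.CP
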