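import Pool.Agent.Helper25.CP.Def
import Pool.Agent.Helper4.PC.St.A2

namespace Pool.Agent.Helper25.CP

open Finset Pool.Agent.Helper4.PC

variable {V C : Type} [Fintype V] [DecidableEq V] [DecidableEq C]

private theorem vg_mem {N : V → Finset V} {pr : V → V × V} {x y : V} :
    y ∈ VG N pr x ↔ y ≠ x ∧ 400 ≤ #(N x) ∧ 400 ≤ #(N y) ∧
    (y ∈ N x ∨ (∃ v ∈ SS N, 2 ≤ #(N v) ∧ #(N v) ≤ 3 ∧ (pr v = (x, y) ∨ pr v = (y, x))) ∨
      1596 ≤ cnt2 (QS N) N x y) := by
  unfold VG
  rw [mem_filter]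
  exact ⟨fun h => h.2, fun h => ⟨mem_univ _, h⟩⟩

omit [Fintype V] in
private theorem vg_cnt2 (Q : Finset V) (P : V → Finset V) (x y : V) :
    cnt2 Q P x y = cnt2 Q P y x := by
  unfold cnt2
  congr 1
  ext q
  simp only [mem_filter]
  tauto

/-- The virtual graph is a symmetric irreflexive neighbour function (`cnt2` is symmetric, the pairs `pr v` are taken in both orders). -/
theorem vg_gr {N : V → Finset V} (hG : Gr N) (pr : V → V × V) : Gr (VG N pr) := by
  constructor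
  · intro u v h
    rw [vg_mem] at h ⊢
    obtain ⟨h1, h2, h3, h4⟩ := h
    refine ⟨h1.symm, h3, h2, ?_⟩
    rcases h4 with h4 | ⟨w, hw, h5, h6, h7⟩ | h4
    · exact Or.inl (hG.symm _ _ h4)
    · exact Or.inr (Or.inl ⟨w, hw, h5, h6, h7.symm⟩)
    · rw [vg_cnt2] at h4
      exact Or.inr (Or.inr h4)
  · intro v h
    rw [vg_mem] at h
    exact h.1 rfl

/-- big graph neighbours are neighbours in the virtual graph -/
theorem vg_adj {N : V → Finset V} (hG : Gr N) (pr : V → V × V) {x y : V} (hx : 400 ≤ #(N x))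
    (hy : 400 ≤ #(N y)) (h : y ∈ N x) : y ∈ VG N pr x := by
  rw [vg_mem]
  refine ⟨?_, hx, hy, Or.inl h⟩
  rintro rfl
  exact hG.irr _ h

/-- for `v ∈ SS N` of degree 2 or 3 the pair `pr v` is an edge of the virtual graph (both vertices are big because `v ∈ SS N`) -/
theorem vg_pair {N : V → Finset V} {pr : V → V × V} (hpr : Pr N pr) {v : V} (hv : v ∈ SS N)
    (h2 : 2 ≤ #(N v)) (h3 : #(N v) ≤ 3) : (pr v).2 ∈ VG N pr (pr v).1 := by
  obtain ⟨h4, h5, h6⟩ := hpr v h2
  have hv' := hv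
  unfold SS at hv'
  rw [mem_filter] at hv'
  rw [vg_mem]
  exact ⟨h6.symm, hv'.2.2 _ h4, hv'.2.2 _ h5, Or.inr (Or.inl ⟨v, hv, h2, h3, Or.inl rfl⟩)⟩

/-- two different vertices with the same colour lie together in at most 1596 sets `N q`, `q ∈ QS N`: if some `q ∈ QS N` has `b, c ∈ N q` then
`b`, `c` are big, and if the number is at least 1596 then `c ∈ VG N pr b`, against properness of `φ`. -/
theorem vg_nonheavy {N : V → Finset V} {pr : V → V × V} {L : V → Finset C} {φ : V → Option C}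
    (hφ : φ ∈ Om (VG N pr) L) {b c : V} (hbc : b ≠ c) (h : Eqv φ b c) :
    cnt2 (QS N) N b c ≤ 1596 := by
  by_contra hc
  push Not at hc
  obtain ⟨q, hq⟩ : ((QS N).filter fun q => b ∈ N q ∧ c ∈ N q).Nonempty := by
    rw [← card_pos]
    unfold cnt2 at hc
    omega
  rw [mem_filter] at hq
  have hq1 := hq.1
  unfold QS at hq1
  rw [mem_filter] at hq1
  have hq2 := hq1.1
  unfold SS at hq2
  rw [mem_filter] at hq2
  have h1 : c ∈ VG N pr b := by
    rw [vg_mem]
    exact ⟨hbc.symm, hq2.2.2 _ hq.2.1, hq2.2.2 _ hq.2.2, Or.inr (Or.inr hc.le)⟩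
  rw [mem_Om] at hφ
  exact h.1 (hφ.2 b c h1 h.2.symm)

/-- every vertex lies in at most `#(N x)` sets `N q` (symmetry) -/
theorem cnt_le {N : V → Finset V} (hG : Gr N) (x : V) : cnt (QS N) N x ≤ #(N x) := by
  unfold cnt
  apply card_le_card
  intro q hq
  rw [mem_filter] at hq
  exact hG.symm _ _ hq.2

end Pool.Agent.Helper25.CP
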