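import Pool.Agent.Helper25.CP.Def
import Pool.Agent.Helper25.CP.VG1
import Pool.Agent.Helper4.PC.St.A2

namespace Pool.Agent.Helper25.CP

open Finset Pool.Agent.Helper4.PC

variable {V C : Type} [Fintype V] [DecidableEq V] [DecidableEq C]

private theorem vg2_mem {N : V → Finset V} {pr : V → V × V} {x y : V} :
    y ∈ VG N pr x ↔ y ≠ x ∧ 400 ≤ #(N x) ∧ 400 ≤ #(N y) ∧
    (y ∈ N x ∨ (∃ v ∈ SS N, 2 ≤ #(N v) ∧ #(N v) ≤ 3 ∧ (pr v = (x, y) ∨ pr v = (y, x))) ∨
      1596 ≤ cnt2 (QS N) N x y) := by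
  unfold VG
  rw [mem_filter]
  exact ⟨fun h => h.2, fun h => ⟨mem_univ _, h⟩⟩

/-- the heavy partners of `x` -/
private def vg2Hv (N : V → Finset V) (x : V) : Finset V :=
  univ.filter fun y => y ≠ x ∧ 1596 ≤ cnt2 (QS N) N x y

/-- the vertices of `SS N` of degree two or three adjacent to `x` -/
private def vg2E (N : V → Finset V) (x : V) : Finset V :=
  (N x).filter fun v => v ∈ SS N ∧ 2 ≤ #(N v) ∧ #(N v) ≤ 3

private theorem vg2_qs {N : V → Finset V} {q : V} (hq : q ∈ QS N) :
    #(N q) < 400 ∧ 4 ≤ #(N q) ∧ ∀ u ∈ N q, 400 ≤ #(N u) := by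
  unfold QS at hq
  rw [mem_filter] at hq
  have h1 := hq.1
  unfold SS at h1
  rw [mem_filter] at h1
  exact ⟨h1.2.1, hq.2, h1.2.2⟩

/-- double counting -/
private theorem vg2_heavy (N : V → Finset V) (x : V) :
    4 * #(vg2Hv N x) ≤ cnt (QS N) N x := by
  have h1 : 1596 * #(vg2Hv N x) ≤ ∑ y ∈ vg2Hv N x, cnt2 (QS N) N x y := by
    calc 1596 * #(vg2Hv N x) = ∑ _y ∈ vg2Hv N x, 1596 := by
          rw [sum_const, smul_eq_mul, mul_comm]
      _ ≤ _ := by
          refine sum_le_sum fun y hy => ?_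
          unfold vg2Hv at hy
          rw [mem_filter] at hy
          exact hy.2.2
  have h2 : ∑ y ∈ vg2Hv N x, cnt2 (QS N) N x y =
      ∑ q ∈ (QS N).filter (fun q => x ∈ N q), #((vg2Hv N x).filter fun y => y ∈ N q) := by
    have h3 : ∀ y, cnt2 (QS N) N x y =
        #(((QS N).filter fun q => x ∈ N q).filter fun q => y ∈ N q) := by
      intro y
      unfold cnt2
      rw [filter_filter]
    simp_rw [h3]
    exact sum_card_bipartiteAbove_eq_sum_card_bipartiteBelow (fun y q => y ∈ N q)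
  have h4 : ∑ q ∈ (QS N).filter (fun q => x ∈ N q), #((vg2Hv N x).filter fun y => y ∈ N q) ≤
      cnt (QS N) N x * 398 := by
    unfold cnt
    rw [← smul_eq_mul, ← sum_const]
    refine sum_le_sum fun q hq => ?_
    rw [mem_filter] at hq
    have h5 := vg2_qs hq.1
    have h6 : ((vg2Hv N x).filter fun y => y ∈ N q) ⊆ (N q).erase x := by
      intro y hy
      rw [mem_filter] at hy
      have h7 := hy.1
      unfold vg2Hv at h7
      rw [mem_filter] at h7
      exact mem_erase.2 ⟨h7.2.1, hy.2⟩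
    have h8 := card_le_card h6
    rw [card_erase_of_mem hq.2] at h8
    omega
  omega

/-- DEGREE BOUND. For big `x`: `VG N pr x ⊆ NB N x ∪ E2 ∪ Hv` where `E2` = the images of the `v ∈ N x` with `v ∈ SS N`, degree 2 or 3, under
`v ↦` the other vertex of `pr v` (if `pr v = (x,y)` or `(y,x)` then `x ∈ N v` by `hpr`, so `v ∈ N x`), `Hv` = the `y ≠ x` with
`1596 ≤ cnt2 (QS N) N x y`. Double counting: `1596 #Hv ≤ ∑_{y ≠ x} cnt2 x y = ∑_{q ∈ QS N, x ∈ N q} (#(N q) - 1) ≤ 398 cnt (QS N) N x`, so `4 #Hv ≤ cnt`.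
`NB N x`, the `v ∈ N x` in `SS N` of degree 2 or 3 and the `q ∈ QS N` with `x ∈ N q` are disjoint subsets of `N x`
(symmetry of `N`), so `#(NB N x) + #E2 + cnt (QS N) N x ≤ #(N x)`. -/
theorem vg_deg {N : V → Finset V} (hG : Gr N) {pr : V → V × V} (hpr : Pr N pr) {x : V}
    (hx : 400 ≤ #(N x)) :
    4 * #(VG N pr x) + 3 * cnt (QS N) N x ≤ 4 * #(N x) := by
  have hsub : VG N pr x ⊆ (NB N x ∪
      (vg2E N x).image (fun v => if (pr v).1 = x then (pr v).2 else (pr v).1)) ∪ vg2Hv N x := by
    intro y hy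
    rw [vg2_mem] at hy
    obtain ⟨h1, -, h3, h4⟩ := hy
    rw [mem_union, mem_union]
    rcases h4 with h4 | ⟨v, hv, h5, h6, h7⟩ | h4
    · left; left
      unfold NB
      exact mem_filter.2 ⟨h4, h3⟩
    · left; right
      have h8 := hpr v h5
      rw [mem_image]
      rcases h7 with h7 | h7
      · refine ⟨v, ?_, ?_⟩
        · unfold vg2E
          rw [h7] at h8
          exact mem_filter.2 ⟨hG.symm _ _ h8.1, hv, h5, h6⟩
        · rw [h7]
          exact if_pos rfl
      · refine ⟨v, ?_, ?_⟩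
        · unfold vg2E
          rw [h7] at h8
          exact mem_filter.2 ⟨hG.symm _ _ h8.2.1, hv, h5, h6⟩
        · rw [h7]
          exact if_neg h1
    · right
      unfold vg2Hv
      exact mem_filter.2 ⟨mem_univ _, h1, h4⟩
  have hc1 := card_le_card hsub
  have hc2 := card_union_le (NB N x ∪
      (vg2E N x).image (fun v => if (pr v).1 = x then (pr v).2 else (pr v).1)) (vg2Hv N x)
  have hc3 := card_union_le (NB N x)
      ((vg2E N x).image (fun v => if (pr v).1 = x then (pr v).2 else (pr v).1))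
  have hc4 : #((vg2E N x).image (fun v => if (pr v).1 = x then (pr v).2 else (pr v).1)) ≤
      #(vg2E N x) := card_image_le
  have hc5 := vg2_heavy N x
  have hd1 : Disjoint (NB N x) (vg2E N x) := by
    rw [disjoint_left]
    intro u hu hu'
    unfold NB at hu
    unfold vg2E at hu'
    rw [mem_filter] at hu hu'
    omega
  have hd2 : Disjoint (NB N x ∪ vg2E N x) ((QS N).filter fun q => x ∈ N q) := by
    rw [disjoint_left]
    intro u hu hu'
    rw [mem_filter] at hu'
    have h1 := vg2_qs hu'.1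
    rcases mem_union.1 hu with hu | hu
    · unfold NB at hu
      rw [mem_filter] at hu
      omega
    · unfold vg2E at hu
      rw [mem_filter] at hu
      omega
  have hs : (NB N x ∪ vg2E N x) ∪ ((QS N).filter fun q => x ∈ N q) ⊆ N x := by
    intro u hu
    rcases mem_union.1 hu with hu | hu
    · rcases mem_union.1 hu with hu | hu
      · unfold NB at hu
        exact (mem_filter.1 hu).1
      · unfold vg2E at hu
        exact (mem_filter.1 hu).1
    · exact hG.symm _ _ (mem_filter.1 hu).2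
  have hs1 := card_le_card hs
  rw [card_union_of_disjoint hd2, card_union_of_disjoint hd1] at hs1
  have hs2 : #((QS N).filter fun q => x ∈ N q) = cnt (QS N) N x := rfl
  rw [hs2] at hs1
  omega

private theorem vg2_small {N : V → Finset V} {pr : V → V × V} {x : V}
    (hx : ¬ 400 ≤ #(N x)) : VG N pr x = ∅ := by
  rw [eq_empty_iff_forall_notMem]
  intro y hy
  rw [vg2_mem] at hy
  exact hx hy.2.1

/-- small vertices are isolated in the virtual graph; for big ones use `vg_deg` -/
theorem vg_le {N : V → Finset V} (hG : Gr N) {pr : V → V × V} (hpr : Pr N pr) (x : V) :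
    #(VG N pr x) ≤ #(N x) := by
  by_cases hx : 400 ≤ #(N x)
  · have h1 := vg_deg hG hpr hx
    omega
  · rw [vg2_small hx, card_empty]
    exact Nat.zero_le _

/-- available colours: `#(Av) ≥ #(L x) - #(VG x)` (`blank_card`), so `4 #Av ≥ 4 + 3 cnt` (for small `x` the count `cnt` is 0: all neighbours
of `q ∈ QS N` are big). -/
theorem vg_av {N : V → Finset V} (hG : Gr N) {pr : V → V × V} (hpr : Pr N pr) {L : V → Finset C}
    (hL : ∀ x, #(N x) + 1 ≤ #(L x)) (φ : V → Option C) (x : V) :
    4 + 3 * cnt (QS N) N x ≤ 4 * #(Av (VG N pr) L φ x) := by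
  have h1 := blank_card (VG N pr) L φ x
  have h2 := hL x
  by_cases hx : 400 ≤ #(N x)
  · have h3 := vg_deg hG hpr hx
    omega
  · have h3 : cnt (QS N) N x = 0 := by
      unfold cnt
      rw [card_eq_zero, eq_empty_iff_forall_notMem]
      intro q hq
      rw [mem_filter] at hq
      exact hx ((vg2_qs hq.1).2.2 _ hq.2)
    rw [vg2_small hx, card_empty] at h1
    omega

end Pool.Agent.Helper25.CP
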